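import Mathlib
import Pool.Agent.MP_a61dd1_gt.Model

-- part MP_a61dd1_gt.AE
section

/-! Absolute extensors for compact metric spaces: gluing, retracts, products, star-shaped sets. -/

namespace Pool.Agent.MP_a61dd1_gt

open Set Metric

variable {Y Y' : Type*} [TopologicalSpace Y] [TopologicalSpace Y']

/-- Maps from closed subsets of compact metric spaces into `S` extend. -/
def AE (S : Set Y) : Prop :=
  ∀ (Q : Type) [MetricSpace Q] [CompactSpace Q] (K : Set Q) (f : Q → Y), IsClosed K →
    ContinuousOn f K → MapsTo f K S → ∃ g : Q → Y, Continuous g ∧ (∀ q, g q ∈ S) ∧ EqOn g f K

lemma AE.nonempty [Nonempty Y] {S : Set Y} (h : AE S) : S.Nonempty := by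
  obtain ⟨g, -, hg, -⟩ := h Unit ∅ (fun _ => Classical.arbitrary Y) isClosed_empty
    (continuousOn_empty _) (mapsTo_empty _ _)
  exact ⟨_, hg ()⟩

lemma AE.retract {S : Set Y} {S' : Set Y'} (h : AE S') (α : Y → Y') (β : Y' → Y)
    (hα : ContinuousOn α S) (hβ : ContinuousOn β S') (mα : MapsTo α S S') (mβ : MapsTo β S' S)
    (hi : ∀ p ∈ S, β (α p) = p) : AE S := by
  intro Q _ _ K f hK hf mf
  obtain ⟨g, hg, gS, ge⟩ := h Q K (α ∘ f) hK (hα.comp hf mf) (mα.comp mf)
  refine ⟨β ∘ g, hβ.comp_continuous hg gS, fun q => mβ (gS q), fun q hq => ?_⟩
  simp only [Function.comp, ge hq]
  exact hi _ (mf hq)

lemma AE.prod {S : Set Y} {S' : Set Y'} (h : AE S) (h' : AE S') : AE (S ×ˢ S') := by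
  intro Q _ _ K f hK hf mf
  obtain ⟨g, hg, gS, ge⟩ := h Q K (fun q => (f q).1) hK hf.fst (fun q hq => (mf hq).1)
  obtain ⟨g', hg', gS', ge'⟩ := h' Q K (fun q => (f q).2) hK hf.snd (fun q hq => (mf hq).2)
  exact ⟨fun q => (g q, g' q), hg.prodMk hg', fun q => ⟨gS q, gS' q⟩,
    fun q hq => Prod.ext (ge hq) (ge' hq)⟩

lemma AE.union' {A B A' B' U : Set Y} (hA' : IsClosed A') (hB' : IsClosed B') (eA : A = A' ∩ U)
    (eB : B = B' ∩ U) (hA : AE A) (hB : AE B) (hAB : AE (A ∩ B)) : AE (A ∪ B) := by
  classical
  intro Q _ _ K f hK hf mf
  have hU : ∀ q ∈ K, f q ∈ U := fun q hq => by
    rcases mf hq with h | h
    · exact (eA ▸ h).2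
    · exact (eB ▸ h).2
  set KA := K ∩ f ⁻¹' A' with hKA
  set KB := K ∩ f ⁻¹' B' with hKB
  have cA : IsClosed KA := hf.preimage_isClosed_of_isClosed hK hA'
  have cB : IsClosed KB := hf.preimage_isClosed_of_isClosed hK hB'
  have mA : MapsTo f KA A := fun q hq => eA ▸ ⟨hq.2, hU q hq.1⟩
  have mB : MapsTo f KB B := fun q hq => eB ▸ ⟨hq.2, hU q hq.1⟩
  have cov : ∀ q ∈ K, q ∈ KA ∨ q ∈ KB := fun q hq => by
    rcases mf hq with h | h
    · exact Or.inl ⟨hq, (eA ▸ h).1⟩
    · exact Or.inr ⟨hq, (eB ▸ h).1⟩
  rcases KA.eq_empty_or_nonempty with nA | nA
  · obtain ⟨g, hg, gS, ge⟩ := hB Q K f hK hf fun q hq =>
      mB ((cov q hq).resolve_left (by simp [nA]))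
    exact ⟨g, hg, fun q => Or.inr (gS q), ge⟩
  rcases KB.eq_empty_or_nonempty with nB | nB
  · obtain ⟨g, hg, gS, ge⟩ := hA Q K f hK hf fun q hq =>
      mA ((cov q hq).resolve_right (by simp [nB]))
    exact ⟨g, hg, fun q => Or.inl (gS q), ge⟩
  obtain ⟨g, hg, gS, ge⟩ := hAB Q (KA ∩ KB) f (cA.inter cB)
    (hf.mono fun q hq => hq.1.1) fun q hq => ⟨mA hq.1, mB hq.2⟩
  set M := {q : Q | infDist q KA = infDist q KB} with hM
  have cM : IsClosed M := isClosed_eq (continuous_infDist_pt _) (continuous_infDist_pt _)
  set f' : Q → Y := fun q => if q ∈ K then f q else g q with hf'
  have hMK : ∀ q ∈ M, q ∈ K → q ∈ KA ∩ KB := fun q hq hqK => by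
    have hq : infDist q KA = infDist q KB := hq
    rcases cov q hqK with h | h
    · exact ⟨h, (cB.mem_iff_infDist_zero nB).2 (hq ▸ infDist_zero_of_mem h)⟩
    · exact ⟨(cA.mem_iff_infDist_zero nA).2 (hq ▸ infDist_zero_of_mem h), h⟩
  have fM : EqOn f' g M := fun q hq => by
    by_cases h : q ∈ K
    · simp only [hf', h, if_true]; exact (ge (hMK q hq h)).symm
    · simp [hf', h]
  have fK : EqOn f' f K := fun q hq => by simp [hf', hq]
  have side : ∀ (C : Set Y) (L : Set Q), IsClosed L → L ⊆ K → MapsTo f L C → A ∩ B ⊆ C → AE C →
      ∃ g' : Q → Y, Continuous g' ∧ (∀ q, g' q ∈ C) ∧ EqOn g' f' (L ∪ M) := by
    intro C L cL sL mL sC hC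
    refine hC Q (L ∪ M) f' (cL.union cM) ?_ ?_
    · exact ContinuousOn.union_of_isClosed ((hf.mono sL).congr (fK.mono sL))
        (hg.continuousOn.congr fM) cL cM
    · rintro q (hq | hq)
      · rw [fK (sL hq)]; exact mL hq
      · rw [fM hq]; exact sC (gS q)
  obtain ⟨gA, hgA, gAS, geA⟩ := side A KA cA inter_subset_left mA inter_subset_left hA
  obtain ⟨gB, hgB, gBS, geB⟩ := side B KB cB inter_subset_left mB inter_subset_right hB
  refine ⟨fun q => if infDist q KA ≤ infDist q KB then gA q else gB q, ?_, ?_, ?_⟩
  · refine Continuous.if_le hgA hgB (continuous_infDist_pt _) (continuous_infDist_pt _) ?_
    intro q hq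
    rw [geA (Or.inr hq), geB (Or.inr hq)]
  · intro q
    by_cases h : infDist q KA ≤ infDist q KB
    · simp only [h, if_true]; exact Or.inl (gAS q)
    · simp only [h, if_false]; exact Or.inr (gBS q)
  · intro q hq
    by_cases h : infDist q KA ≤ infDist q KB
    · simp only [h, if_true]
      have : q ∈ KA := by
        rcases cov q hq with h1 | h1
        · exact h1
        · refine (cA.mem_iff_infDist_zero nA).2 (le_antisymm ?_ infDist_nonneg)
          rwa [infDist_zero_of_mem h1] at h
      rw [geA (Or.inl this), fK hq]
    · simp only [h, if_false]
      have : q ∈ KB := by
        rcases cov q hq with h1 | h1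
        · exact absurd (by rw [infDist_zero_of_mem h1]; exact infDist_nonneg) h
        · exact h1
      rw [geB (Or.inl this), fK hq]

lemma AE.union {A B : Set Y} (cA : IsClosed A) (cB : IsClosed B) (hA : AE A) (hB : AE B)
    (hAB : AE (A ∩ B)) : AE (A ∪ B) :=
  AE.union' cA cB (inter_univ A).symm (inter_univ B).symm hA hB hAB

/-- A union of closed sets all of whose finite intersections are extensors. -/
lemma AE.biUnion {ι : Type*} [DecidableEq ι] (F : ι → Set Y) (hF : ∀ i, IsClosed (F i))
    (D : Finset ι) (hD : D.Nonempty) (G : Set Y) (hG : IsClosed G)
    (h : ∀ σ ⊆ D, σ.Nonempty → AE (G ∩ ⋂ i ∈ σ, F i)) : AE (G ∩ ⋃ i ∈ D, F i) := by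
  induction hD using Finset.Nonempty.cons_induction generalizing G with
  | singleton a => simpa using h {a} subset_rfl (by simp)
  | cons a D ha hD ih =>
    have e : G ∩ ⋃ i ∈ Finset.cons a D ha, F i = (G ∩ F a) ∪ (G ∩ ⋃ i ∈ D, F i) := by
      ext; simp; tauto
    rw [e]
    refine AE.union (hG.inter (hF a)) (hG.inter (isClosed_biUnion_finset fun i _ => hF i)) ?_ ?_ ?_
    · simpa using h {a} (by simp) (by simp)
    · exact ih G hG fun σ hσ hn => h σ (hσ.trans (Finset.subset_cons ha)) hn
    · have e2 : G ∩ F a ∩ (G ∩ ⋃ i ∈ D, F i) = (G ∩ F a) ∩ ⋃ i ∈ D, F i := by
        ext; simp; tauto
      rw [e2]
      refine ih _ (hG.inter (hF a)) fun σ hσ hn => ?_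
      have := h (insert a σ) (by
        rw [Finset.cons_eq_insert]; exact Finset.insert_subset_insert a hσ) (by simp)
      rwa [Finset.set_biInter_insert, ← inter_assoc] at this

/-- A relatively open subset of a box whose compact subsets can be coned off. -/
lemma AE.star {ι : Type} [Fintype ι] {lo hi : ι → ℝ} {O S : Set (ι → ℝ)} (hO : IsOpen O)
    (hS : S = Icc lo hi ∩ O) (hne : S.Nonempty)
    (hst : ∀ K ⊆ S, IsCompact K → ∃ c ∈ S, ∀ p ∈ K, segment ℝ p c ⊆ S) : AE S := by
  intro Q _ _ K f hK hf mf
  rcases K.eq_empty_or_nonempty with rfl | nK
  · obtain ⟨c, hc⟩ := hne
    exact ⟨fun _ => c, continuous_const, fun _ => hc, eqOn_empty _ _⟩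
  have hlh : lo ≤ hi := by
    obtain ⟨c, hc⟩ := hne
    rw [hS] at hc; exact hc.1.1.trans hc.1.2
  obtain ⟨g0, hg0⟩ := ContinuousMap.exists_restrict_eq hK
    (⟨K.domRestrict f, hf.domRestrict⟩ : C(K, ι → ℝ))
  have g0e : ∀ q ∈ K, g0 q = f q := fun q hq => congrArg (fun h : C(K, ι → ℝ) => h ⟨q, hq⟩) hg0
  set g : Q → ι → ℝ := fun q => (g0 q ⊓ hi) ⊔ lo with hg
  have cg : Continuous g := by
    refine continuous_pi fun i => ?_
    exact (((continuous_apply i).comp g0.continuous).min continuous_const).max continuous_const
  have gB : ∀ q, g q ∈ Icc lo hi := fun q => ⟨le_sup_right, sup_le inf_le_right hlh⟩
  have ge : ∀ q ∈ K, g q = f q := fun q hq => by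
    have := (hS ▸ mf hq).1
    simp only [hg, g0e q hq]
    rw [inf_eq_left.2 this.2, sup_eq_left.2 this.1]
  obtain ⟨ε, hε, hth⟩ := hK.isCompact.exists_cthickening_subset_open (hO.preimage cg)
    (fun q hq => by
      show g q ∈ O
      rw [ge q hq]; exact (hS ▸ mf hq).2)
  obtain ⟨c, hc, hseg⟩ := hst (g '' cthickening ε K)
    (by rintro _ ⟨q, hq, rfl⟩; rw [hS]; exact ⟨gB q, hth hq⟩)
    (isClosed_cthickening.isCompact.image cg)
  refine ⟨fun q => (1 - min 1 (infDist q K / ε)) • g q + min 1 (infDist q K / ε) • c, ?_, ?_, ?_⟩
  · have := continuous_infDist_pt K
    fun_prop
  · intro q
    by_cases h : infDist q K < ε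
    · have hq : q ∈ cthickening ε K :=
        thickening_subset_cthickening _ _ ((mem_thickening_iff_infDist_lt nK).2 h)
      refine hseg _ ⟨q, hq, rfl⟩ ⟨_, _, ?_, ?_, ?_, rfl⟩
      · linarith [min_le_left 1 (infDist q K / ε)]
      · exact le_min zero_le_one (div_nonneg infDist_nonneg hε.le)
      · ring
    · have : min 1 (infDist q K / ε) = 1 := min_eq_left (by
        rw [le_div_iff₀ hε]; linarith)
      simpa [this] using hc
  · intro q hq
    simp [infDist_zero_of_mem hq, ge q hq]

end Pool.Agent.MP_a61dd1_gt

end

-- part MP_a61dd1_gt.Check
section

/-! A verified checker: finite unions of boxes (with sign conditions, minus the model link) are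
absolute extensors, or empty. -/

namespace Pool.Agent.MP_a61dd1_gt

open Set Real Filter Topology

inductive Ax | x | y | u | v
  deriving DecidableEq, Fintype

structure Bx where
  a : ℤ × ℤ
  b : ℤ × ℤ
  c : ℤ × ℤ
  d : ℤ × ℤ

def Bx.g (B : Bx) : Ax → ℤ × ℤ
  | .x => B.a | .y => B.b | .u => B.c | .v => B.d

def Bx.of (f : Ax → ℤ × ℤ) : Bx := ⟨f .x, f .y, f .u, f .v⟩

@[simp] lemma Bx.g_of (f : Ax → ℤ × ℤ) (i : Ax) : (Bx.of f).g i = f i := by cases i <;> rfl

def Bx.mem (B : Bx) (p : Ax → ℝ) : Prop := ∀ i, ((B.g i).1 : ℝ) ≤ p i ∧ p i ≤ (B.g i).2

def allAx (P : Ax → Bool) : Bool := P .x && P .y && P .u && P .v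

lemma allAx_iff {P : Ax → Bool} : allAx P = true ↔ ∀ i, P i = true := by
  simp only [allAx, Bool.and_eq_true]
  exact ⟨fun h i => by cases i <;> tauto, fun h => ⟨⟨⟨h _, h _⟩, h _⟩, h _⟩⟩

inductive Ex
  | c (n : ℤ) | v (i : Ax) | neg (e : Ex) | add (e f : Ex) | smul (n : ℕ) (e : Ex)
  | mul (e f : Ex) | r (e : Ex) | t (e : Ex)

noncomputable def Ex.ev : Ex → (Ax → ℝ) → ℝ
  | .c n, _ => n
  | .v i, p => p i
  | .neg e, p => -e.ev p
  | .add e f, p => e.ev p + f.ev p
  | .smul n e, p => n * e.ev p
  | .mul e f, p => e.ev p * f.ev p
  | .r e, p => rp (e.ev p)
  | .t e, p => smoothTransition (e.ev p)

lemma Ex.continuous_ev (e : Ex) : Continuous e.ev := by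
  induction e with
  | c n => exact continuous_const
  | v i => exact continuous_apply i
  | neg e h => exact h.neg
  | add e f h h' => exact h.add h'
  | smul n e h => exact continuous_const.mul h
  | mul e f h h' => exact h.mul h'
  | r e h => exact continuous_rp.comp h
  | t e h => exact smoothTransition.continuous.comp h

def ivMul (a b : ℤ × ℤ) : ℤ × ℤ :=
  if 0 ≤ a.1 ∧ 0 ≤ b.1 then (a.1 * b.1, a.2 * b.2)
  else (-(max (-a.1) a.2 * max (-b.1) b.2), max (-a.1) a.2 * max (-b.1) b.2)

def Ex.iv : Ex → Bx → ℤ × ℤ
  | .c n, _ => (n, n)
  | .v i, B => B.g i
  | .neg e, B => match e.iv B with | (l, h) => (-h, -l)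
  | .add e f, B => match e.iv B, f.iv B with | (l, h), (l', h') => (l + l', h + h')
  | .smul n e, B => match e.iv B with | (l, h) => (n * l, n * h)
  | .mul e f, B => ivMul (e.iv B) (f.iv B)
  | .r e, B => match e.iv B with | (l, h) => (max l 0, max h 0)
  | .t e, B => match e.iv B with | (l, h) => (if 1 ≤ l then 1 else 0, if h ≤ 0 then 0 else 1)

lemma rp_int (n : ℤ) : rp n = (max n 0 : ℤ) := by
  rcases le_or_gt n 0 with h | h
  · rw [rp_of_nonpos (by exact_mod_cast h), max_eq_right h]; simp
  · rw [rp_of_one_le (by exact_mod_cast h), max_eq_left h.le]

lemma Ex.iv_sound {B : Bx} {p} (hp : B.mem p) (e : Ex) :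
    ((e.iv B).1 : ℝ) ≤ e.ev p ∧ e.ev p ≤ (e.iv B).2 := by
  induction e with
  | c n => exact ⟨le_rfl, le_rfl⟩
  | v i => exact hp i
  | neg e h => simp only [iv, ev]; push_cast; constructor <;> linarith [h.1, h.2]
  | add e f h h' => simp only [iv, ev]; push_cast; constructor <;> linarith [h.1, h.2, h'.1, h'.2]
  | smul n e h =>
    simp only [iv, ev]; push_cast
    exact ⟨mul_le_mul_of_nonneg_left h.1 n.cast_nonneg, mul_le_mul_of_nonneg_left h.2 n.cast_nonneg⟩
  | mul e f h h' =>
    simp only [iv, ev, ivMul]
    split_ifs with hc
    · have h1 : (0 : ℝ) ≤ (e.iv B).1 := by exact_mod_cast hc.1
      have h2 : (0 : ℝ) ≤ (f.iv B).1 := by exact_mod_cast hc.2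
      push_cast
      exact ⟨mul_le_mul h.1 h'.1 h2 (h1.trans h.1),
        mul_le_mul h.2 h'.2 (h2.trans h'.1) (h1.trans (h.1.trans h.2))⟩
    · push_cast
      rw [← abs_le, abs_mul]
      have a1 : |e.ev p| ≤ max (-((e.iv B).1 : ℝ)) (e.iv B).2 := abs_le.2
        ⟨by linarith [le_max_left (-((e.iv B).1 : ℝ)) (e.iv B).2, h.1], le_max_of_le_right h.2⟩
      have a2 : |f.ev p| ≤ max (-((f.iv B).1 : ℝ)) (f.iv B).2 := abs_le.2
        ⟨by linarith [le_max_left (-((f.iv B).1 : ℝ)) (f.iv B).2, h'.1], le_max_of_le_right h'.2⟩
      exact mul_le_mul a1 a2 (abs_nonneg _) ((abs_nonneg _).trans a1)
  | r e h =>
    simp only [iv, ev]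
    rw [← rp_int, ← rp_int]
    exact ⟨rp_mono h.1, rp_mono h.2⟩
  | t e h =>
    simp only [iv, ev]
    constructor
    · split_ifs with hc
      · have : (1 : ℝ) ≤ (e.iv B).1 := by exact_mod_cast hc
        rw [smoothTransition.one_of_one_le (this.trans h.1)]; simp
      · simpa using smoothTransition.nonneg _
    · split_ifs with hc
      · have : ((e.iv B).2 : ℝ) ≤ 0 := by exact_mod_cast hc
        rw [smoothTransition.zero_of_nonpos (h.2.trans this)]; simp
      · simpa using smoothTransition.le_one _

def Ex.mono (B : Bx) (d : Ax → Bool) : Ex → Bool → Bool
  | .c _, _ => true
  | .v i, up => (B.g i).2 ≤ (B.g i).1 || d i == up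
  | .neg e, up => e.mono B d (!up)
  | .add e f, up => e.mono B d up && f.mono B d up
  | .smul _ e, up => e.mono B d up
  | .mul e f, up => ((Ex.mul e f).iv B).2 ≤ ((Ex.mul e f).iv B).1 ||
      (0 ≤ (e.iv B).1 && 0 ≤ (f.iv B).1 && e.mono B d up && f.mono B d up)
  | .r e, up => ((Ex.r e).iv B).2 ≤ ((Ex.r e).iv B).1 || e.mono B d up
  | .t e, up => ((Ex.t e).iv B).2 ≤ ((Ex.t e).iv B).1 || e.mono B d up

def Le' (up : Bool) (a b : ℝ) : Prop := if up then a ≤ b else b ≤ a

lemma Ex.const_le {B : Bx} {p q} (hp : B.mem p) (hq : B.mem q) (e : Ex) (up : Bool)
    (h : (e.iv B).2 ≤ (e.iv B).1) : Le' up (e.ev p) (e.ev q) := by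
  have h1 := e.iv_sound hp
  have h2 := e.iv_sound hq
  have h : ((e.iv B).2 : ℝ) ≤ (e.iv B).1 := by exact_mod_cast h
  unfold Le'
  split_ifs <;> linarith [h1.1, h1.2, h2.1, h2.2]

lemma Ex.mono_sound {B : Bx} {d p q} (hp : B.mem p) (hq : B.mem q)
    (hd : ∀ i, Le' (d i) (p i) (q i)) (e : Ex) (up : Bool) (h : e.mono B d up = true) :
    Le' up (e.ev p) (e.ev q) := by
  induction e generalizing up with
  | c n => cases up <;> simp [Le', ev]
  | v i =>
    simp only [mono, Bool.or_eq_true, decide_eq_true_eq, beq_iff_eq] at h
    rcases h with h | h
    · exact (Ex.v i).const_le hp hq up h
    · exact h ▸ hd i
  | neg e ih =>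
    have := ih _ h
    cases up <;> simpa [Le', ev] using this
  | add e f ih ih' =>
    simp only [mono, Bool.and_eq_true] at h
    have h1 := ih _ h.1
    have h2 := ih' _ h.2
    cases up <;> simp only [Le', ev, if_true, Bool.false_eq_true, if_false] at * <;> linarith
  | smul n e ih =>
    have := ih _ h
    cases up <;> simp only [Le', ev, if_true, Bool.false_eq_true, if_false] at * <;>
      exact mul_le_mul_of_nonneg_left this n.cast_nonneg
  | mul e f ih ih' =>
    simp only [mono, Bool.or_eq_true, Bool.and_eq_true, decide_eq_true_eq] at h
    rcases h with h | ⟨⟨⟨h1, h2⟩, h3⟩, h4⟩
    · exact Ex.const_le hp hq _ up h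
    have h1 : (0 : ℝ) ≤ (e.iv B).1 := by exact_mod_cast h1
    have h2 : (0 : ℝ) ≤ (f.iv B).1 := by exact_mod_cast h2
    have h3 := ih _ h3
    have h4 := ih' _ h4
    have a1 := h1.trans (e.iv_sound hp).1
    have a2 := h1.trans (e.iv_sound hq).1
    have a3 := h2.trans (f.iv_sound hp).1
    have a4 := h2.trans (f.iv_sound hq).1
    cases up <;> simp only [Le', ev, if_true, Bool.false_eq_true, if_false] at * <;> gcongr
  | r e ih =>
    simp only [mono, Bool.or_eq_true, decide_eq_true_eq] at h
    rcases h with h | h
    · exact Ex.const_le hp hq _ up h
    have := ih _ h
    cases up <;> simp only [Le', ev, if_true, Bool.false_eq_true, if_false] at * <;>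
      exact rp_mono this
  | t e ih =>
    simp only [mono, Bool.or_eq_true, decide_eq_true_eq] at h
    rcases h with h | h
    · exact Ex.const_le hp hq _ up h
    have := ih _ h
    cases up <;> simp only [Le', ev, if_true, Bool.false_eq_true, if_false] at * <;>
      exact smoothTransition.monotone this

def eRect (a b c : ℤ) (s t : Ex) : Ex :=
  .add (.add (.add (.r (.add (.c a) (.neg s))) (.r (.add s (.c (-b))))) (.r (.add t (.c (-c)))))
    (.r (.add (.neg t) (.c (-c))))

def eBump (P : Ex) : Ex := .r (.add (.c 2) (.neg P))

def eXs : Ex := .add (.v .x) (.neg (.smul 9 (.add (.t (.add (.v .u) (.c (-3))))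
  (.t (.add (.neg (.v .u)) (.c (-3)))))))

def eVk : Ex := .mul (.v .v) (.add (.c 4) (.neg (.smul 3 (.t (.add (.v .x) (.c 3))))))

/-- The function cutting the link component out of the mirror `p k = 0`. -/
def PH : Ax → Ex
  | .x => .add (.add (.add (.mul (.v .y) (.v .y)) (.smul 25 (eBump (eRect (-5) 5 5 (.v .u) (.v .v)))))
      (.c (-25))) (.neg (.smul 100 (.r (.add (.c (-9)) (.neg (.v .x))))))
  | .y => .add (.add (.add (.mul eVk eVk) (.smul 64 (eRect (-21) 2 9 (.v .x) (.v .u))))
      (.smul 64 (eBump (eRect (-4) (-2) 0 (.v .x) (.v .u))))) (.c (-64))
  | .u => .add (.add (.mul (.v .v) (.v .v)) (.smul 25 (eBump (eRect (-2) 4 0 (.v .x) (.v .y)))))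
      (.c (-25))
  | .v => .add (.add (.add (.mul (.v .y) (.v .y)) (.smul 9 (eRect (-32) 6 11 eXs (.v .u))))
      (.smul 9 (eBump (eRect (-19) (-9) 7 eXs (.v .u))))) (.c (-9))

def FA (p : Ax → ℝ) : Prop := p .x = 36 ∨ p .x = -36 ∨ p .y = 36

def FB (p : Ax → ℝ) : Prop := p .u = 36 ∨ p .v = 36

/-- The model link. -/
def Lam (p : Ax → ℝ) : Prop := (∃ k, p k = 0 ∧ (PH k).ev p = 0) ∨ (FA p ∧ FB p)

lemma isClosed_Lam : IsClosed {p | Lam p} := by
  have h : ∀ (i : Ax) (a : ℝ), IsClosed {p : Ax → ℝ | p i = a} :=
    fun i a => isClosed_eq (continuous_apply i) continuous_const
  refine IsClosed.union ?_ (IsClosed.inter ((h _ _).union ((h _ _).union (h _ _)))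
    ((h _ _).union (h _ _)))
  show IsClosed {p : Ax → ℝ | ∃ k, p k = 0 ∧ (PH k).ev p = 0}
  rw [ofPred_exists]
  exact isClosed_iUnion_of_finite fun k =>
    (h k 0).inter (isClosed_eq (PH k).continuous_ev continuous_const)

abbrev Cell := Bx × List (Ax × Bool)

def cexp (c : Ax × Bool) : Ex := if c.2 then PH c.1 else .neg (PH c.1)

def cset (c : Cell) : Set (Ax → ℝ) := {p | c.1.mem p ∧ (∀ k ∈ c.2, 0 < (cexp k).ev p) ∧ ¬ Lam p}

def lset (l : List Cell) : Set (Ax → ℝ) := {p | ∃ c ∈ l, p ∈ cset c}

def deg (B : Bx) (i : Ax) (a : ℤ) : Bool := (B.g i).1 == a && (B.g i).2 == a

lemma deg_sound {B : Bx} {i a p} (h : deg B i a = true) (hp : B.mem p) : p i = a := by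
  simp only [deg, Bool.and_eq_true, beq_iff_eq] at h
  have := hp i
  rw [h.1, h.2] at this
  exact le_antisymm this.2 this.1

def emp (c : Cell) : Bool :=
  !allAx (fun i => (c.1.g i).1 ≤ (c.1.g i).2) || c.2.any (fun k => ((cexp k).iv c.1).2 ≤ 0) ||
  c.2.any (fun k => c.2.contains (k.1, !k.2)) ||
  !allAx (fun k => !(deg c.1 k 0 && (PH k).iv c.1 == (0, 0))) ||
  ((deg c.1 .x 36 || deg c.1 .x (-36) || deg c.1 .y 36) && (deg c.1 .u 36 || deg c.1 .v 36))

lemma empty_sound {c : Cell} (h : emp c = true) {p} : p ∉ cset c := by
  rintro ⟨h1, h2, h3⟩
  simp only [emp, Bool.or_eq_true, Bool.not_eq_true', List.any_eq_true, decide_eq_true_eq,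
    ← Bool.not_eq_true, allAx_iff, Bool.and_eq_true, not_forall, List.contains_iff_mem,
    not_not, beq_iff_eq] at h
  rcases h with (((⟨i, h⟩ | ⟨k, hk, h⟩) | ⟨k, hk, h⟩) | ⟨k, h, h'⟩) | h
  · exact h (by exact_mod_cast (h1 i).1.trans (h1 i).2)
  · have := (Ex.iv_sound h1 (cexp k)).2
    have h : (((cexp k).iv c.1).2 : ℝ) ≤ 0 := by exact_mod_cast h
    linarith [h2 k hk]
  · have a1 := h2 k hk
    have a2 := h2 _ h
    obtain ⟨k, _ | _⟩ := k <;> simp [cexp, Ex.ev] at a1 a2 <;> linarith
  · have := Ex.iv_sound h1 (PH k)
    rw [h'] at this
    exact h3 (Or.inl ⟨k, by simpa using deg_sound h h1, by simpa using le_antisymm this.2 this.1⟩)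
  · refine h3 (Or.inr ⟨?_, ?_⟩)
    · rcases h.1 with (h | h) | h
      · exact Or.inl (by simpa using deg_sound h h1)
      · exact Or.inr (Or.inl (by simpa using deg_sound h h1))
      · exact Or.inr (Or.inr (by simpa using deg_sound h h1))
    · rcases h.2 with h | h
      · exact Or.inl (by simpa using deg_sound h h1)
      · exact Or.inr (by simpa using deg_sound h h1)

lemma pos_of_iv {B : Bx} {p} (hp : B.mem p) {e : Ex} (h : 0 < (e.iv B).1) : 0 < e.ev p :=
  lt_of_lt_of_le (by exact_mod_cast h) (e.iv_sound hp).1

def nrmC (c : Cell) : Cell := (c.1, c.2.filter fun k => ((cexp k).iv c.1).1 ≤ 0)

lemma cset_nrmC (c : Cell) : cset (nrmC c) = cset c := by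
  ext p
  refine and_congr_right fun hp => and_congr_left fun _ => ⟨fun h k hk => ?_, fun h k hk => ?_⟩
  · by_cases h' : ((cexp k).iv c.1).1 ≤ 0
    · exact h k (List.mem_filter.2 ⟨hk, by simpa using h'⟩)
    · exact pos_of_iv hp (not_le.1 h')
  · exact h k (List.mem_filter.1 hk).1

def bsub (B B' : Bx) : Bool := allAx fun i => (B'.g i).1 ≤ (B.g i).1 && (B.g i).2 ≤ (B'.g i).2

lemma bsub_sound {B B' : Bx} (h : bsub B B' = true) {p} (hp : B.mem p) : B'.mem p := by
  simp only [bsub, allAx_iff, Bool.and_eq_true, decide_eq_true_eq] at h
  exact fun i => ⟨le_trans (by exact_mod_cast (h i).1) (hp i).1,
    le_trans (hp i).2 (by exact_mod_cast (h i).2)⟩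

def sub (c c' : Cell) : Bool :=
  bsub c.1 c'.1 && c'.2.all fun k => c.2.contains k || 0 < ((cexp k).iv c.1).1

lemma sub_sound {c c' : Cell} (h : sub c c' = true) : cset c ⊆ cset c' := by
  rintro p ⟨h1, h2, h3⟩
  simp only [sub, Bool.and_eq_true, List.all_eq_true, Bool.or_eq_true, List.contains_iff_mem,
    decide_eq_true_eq] at h
  exact ⟨bsub_sound h.1 h1, fun k hk => (h.2 k hk).elim (h2 k) (pos_of_iv h1), h3⟩

def addC (out : List Cell) (c : Cell) : List Cell :=
  if out.any (sub c) then out else out.filter (fun d => !sub d c) ++ [c]

def step (out : List Cell) (c : Cell) : List Cell := if emp c then out else addC out (nrmC c)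

def simp' (l : List Cell) : List Cell := l.foldl step []

lemma lset_cons (c : Cell) (l) : lset (c :: l) = cset c ∪ lset l := by
  ext; simp [lset]

lemma lset_step (out : List Cell) (c : Cell) : lset (step out c) = lset out ∪ cset c := by
  unfold step
  split_ifs with h
  · exact (union_eq_left.2 fun p hp => absurd hp (empty_sound h)).symm
  rw [← cset_nrmC c, addC]
  split_ifs with h
  · obtain ⟨d, hd, h⟩ := List.any_eq_true.1 h
    exact (union_eq_left.2 fun p hp => (⟨d, hd, sub_sound h hp⟩ : p ∈ lset out)).symm
  · ext p
    simp only [lset, List.mem_append, List.mem_filter, List.mem_singleton, mem_ofPred_eq, mem_union]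
    constructor
    · rintro ⟨d, ⟨h, -⟩ | rfl, hp⟩
      · exact Or.inl ⟨d, h, hp⟩
      · exact Or.inr hp
    · rintro (⟨d, h, hp⟩ | hp)
      · by_cases h' : sub d (nrmC c) = true
        · exact ⟨_, Or.inr rfl, sub_sound h' hp⟩
        · exact ⟨d, Or.inl ⟨h, by simpa using h'⟩, hp⟩
      · exact ⟨_, Or.inr rfl, hp⟩

lemma lset_simp' (l : List Cell) : lset (simp' l) = lset l := by
  have : ∀ out, lset (l.foldl step out) = lset out ∪ lset l := by
    induction l with
    | nil => intro out; simp [lset]
    | cons c l ih => intro out; rw [List.foldl_cons, ih, lset_step, lset_cons, union_assoc]
  rw [simp', this]; simp [lset]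

def binter (B B' : Bx) : Bx := .of fun i => (max (B.g i).1 (B'.g i).1, min (B.g i).2 (B'.g i).2)

lemma mem_binter {B B' : Bx} {p} : (binter B B').mem p ↔ B.mem p ∧ B'.mem p := by
  simp only [Bx.mem, binter, Bx.g_of, Int.cast_max, Int.cast_min, max_le_iff, le_min_iff,
    ← forall_and]
  exact forall_congr' fun i => by tauto

def meet (l l' : List Cell) : List Cell :=
  simp' (l.flatMap fun c => l'.map fun c' => (binter c.1 c'.1, c.2 ++ c'.2))

lemma lset_meet (l l' : List Cell) : lset (meet l l') = lset l ∩ lset l' := by
  rw [meet, lset_simp']
  ext p
  simp only [lset, List.mem_flatMap, List.mem_map, mem_ofPred_eq, mem_inter_iff]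
  constructor
  · rintro ⟨_, ⟨c, hc, c', hc', rfl⟩, h1, h2, h3⟩
    exact ⟨⟨c, hc, (mem_binter.1 h1).1, fun k hk => h2 k (List.mem_append_left _ hk), h3⟩,
      ⟨c', hc', (mem_binter.1 h1).2, fun k hk => h2 k (List.mem_append_right _ hk), h3⟩⟩
  · rintro ⟨⟨c, hc, h1, h2, h3⟩, c', hc', h1', h2', -⟩
    exact ⟨_, ⟨c, hc, c', hc', rfl⟩, mem_binter.2 ⟨h1, h1'⟩,
      fun k hk => (List.mem_append.1 hk).elim (h2 k) (h2' k), h3⟩

def cutL (B : Bx) (i : Ax) (a : ℤ) : Bx := .of fun j => if j = i then ((B.g j).1, min (B.g j).2 a) else B.g j

def cutR (B : Bx) (i : Ax) (a : ℤ) : Bx := .of fun j => if j = i then (max (B.g j).1 a, (B.g j).2) else B.g j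

lemma mem_cut {B : Bx} {i a p} : B.mem p ↔ (cutL B i a).mem p ∨ (cutR B i a).mem p := by
  simp only [Bx.mem, cutL, cutR, Bx.g_of]
  constructor
  · intro h
    rcases le_total (p i) a with h' | h'
    · refine Or.inl fun j => ?_
      split_ifs with e
      · subst e; push_cast; exact ⟨(h j).1, le_min (h j).2 h'⟩
      · exact h j
    · refine Or.inr fun j => ?_
      split_ifs with e
      · subst e; push_cast; exact ⟨max_le (h j).1 h', (h j).2⟩
      · exact h j
  · rintro (h | h) j <;> have := h j <;> split_ifs at this with e
    · push_cast at this; exact ⟨this.1, this.2.trans (min_le_left _ _)⟩
    · exact this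
    · push_cast at this; exact ⟨(le_max_left _ _).trans this.1, this.2⟩
    · exact this

def side (B : Bx) (i : Ax) (a : ℤ) : Bool :=
  if (B.g i).1 < (B.g i).2 then a ≤ (B.g i).1 || (B.g i).2 ≤ a else (B.g i).1 != a

def leaf (c : Cell) (d : Ax → Bool) : Bool :=
  allAx (fun i => (c.1.g i).1 ≤ (c.1.g i).2) &&
  allAx (fun k => side c.1 k 0 || c.2.contains (k, true) || c.2.contains (k, false) ||
    0 < ((PH k).iv c.1).1 || ((PH k).iv c.1).2 < 0) &&
  ((side c.1 .x 36 && side c.1 .x (-36) && side c.1 .y 36) || (side c.1 .u 36 && side c.1 .v 36)) &&
  c.2.all fun k => 0 < ((cexp k).iv c.1).1 || ((cexp k).mono c.1 d true &&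
    0 < ((cexp k).iv (.of fun i => if d i then ((c.1.g i).2, (c.1.g i).2)
      else ((c.1.g i).1, (c.1.g i).1))).1)

lemma side_sound {B : Bx} {i a p} (h : side B i a = true) (hp : B.mem p)
    (hi : (B.g i).1 < (B.g i).2 → ((B.g i).1 : ℝ) < p i ∧ p i < (B.g i).2) : p i ≠ a := by
  intro e
  unfold side at h
  split_ifs at h with h'
  · have := hi h'
    rw [e] at this
    norm_cast at this
    simp only [Bool.or_eq_true, decide_eq_true_eq] at h
    omega
  · have := hp i
    rw [e] at this
    norm_cast at this
    simp only [bne_iff_ne] at h
    omega

lemma leaf_sound {c : Cell} {d} (h : leaf c d = true) : AE (cset c) := by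
  simp only [leaf, Bool.and_eq_true, allAx_iff, decide_eq_true_eq, Bool.or_eq_true,
    List.all_eq_true, List.contains_iff_mem] at h
  obtain ⟨⟨⟨h1, h2⟩, h3⟩, h4⟩ := h
  set lo : Ax → ℝ := fun i => (c.1.g i).1
  set hi : Ax → ℝ := fun i => (c.1.g i).2
  have lh : ∀ i, lo i ≤ hi i := fun i => by simp only [lo, hi]; exact_mod_cast h1 i
  have inn : ∀ q, c.1.mem q → (∀ i, lo i < hi i → lo i < q i ∧ q i < hi i) →
      (∀ k ∈ c.2, 0 < (cexp k).ev q) → q ∈ cset c := by
    intro q hq hi' hk
    have sd : ∀ i a, side c.1 i a = true → q i ≠ a := fun i a h =>
      side_sound h hq fun h' => hi' i (by simp only [lo, hi]; exact_mod_cast h')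
    refine ⟨hq, hk, ?_⟩
    rintro (⟨k, e1, e2⟩ | ⟨e1, e2⟩)
    · rcases h2 k with (((h | h) | h) | h) | h
      · exact sd _ _ h (by simpa using e1)
      · simpa [cexp, e2] using hk _ h
      · simpa [cexp, e2, Ex.ev] using hk _ h
      · simpa [e2] using pos_of_iv hq h
      · have := (Ex.iv_sound hq (PH k)).2
        rw [e2] at this
        norm_cast at this
        omega
    · rcases h3 with ⟨⟨a1, a2⟩, a3⟩ | ⟨a1, a2⟩
      · rcases e1 with e | e | e
        · exact sd _ _ a1 (by simpa using e)
        · exact sd _ _ a2 (by simpa using e)
        · exact sd _ _ a3 (by simpa using e)
      · rcases e2 with e | e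
        · exact sd _ _ a1 (by simpa using e)
        · exact sd _ _ a2 (by simpa using e)
  set O : Set (Ax → ℝ) := {q | ∀ k ∈ c.2, 0 < (cexp k).ev q} with hO
  have oO : IsOpen O := by
    have : O = ⋂ k ∈ {k | k ∈ c.2}, {q | 0 < (cexp k).ev q} := by ext; simp [hO]
    rw [this]
    exact (List.finite_toSet _).isOpen_biInter fun k _ =>
      isOpen_lt continuous_const (cexp k).continuous_ev
  set c0 : Ax → ℝ := fun i => if d i then hi i else lo i with hc0
  have c0B : c.1.mem c0 := fun i => by
    simp only [hc0]; split_ifs; exacts [⟨lh i, le_rfl⟩, ⟨le_rfl, lh i⟩]
  have c0O : c0 ∈ O := fun k hk => by
    rcases h4 k hk with h | h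
    · exact pos_of_iv c0B h
    · refine pos_of_iv (fun i => ?_) h.2
      simp only [Bx.g_of, hc0]; split_ifs <;> exact ⟨le_rfl, le_rfl⟩
  have cvx : ∀ p q (t : ℝ), c.1.mem p → c.1.mem q → 0 ≤ t → t ≤ 1 →
      c.1.mem ((1 - t) • p + t • q) := fun p q t hp hq t0 t1 i => by
    simp only [Pi.add_apply, Pi.smul_apply, smul_eq_mul]
    constructor <;> nlinarith [(hp i).1, (hp i).2, (hq i).1, (hq i).2]
  have st : ∀ K ⊆ cset c, IsCompact K → ∃ e ∈ cset c, ∀ p ∈ K, segment ℝ p e ⊆ cset c := by
    intro K hK cK
    set m : Ax → ℝ := fun i => (lo i + hi i) / 2
    have mB : c.1.mem m := fun i => ⟨by linarith [lh i, show m i = (lo i + hi i) / 2 from rfl],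
      by linarith [lh i, show m i = (lo i + hi i) / 2 from rfl]⟩
    have ev := ((cK.insert c0).prod (isCompact_Icc (a := (0 : ℝ)) (b := 1))
      ).eventually_forall_of_forall_eventually (x₀ := (0 : ℝ))
      (P := fun ε z => (1 - z.2) • z.1 + z.2 • ((1 - ε) • c0 + ε • m) ∈ O) (by
        rintro ⟨p, t⟩ ⟨hp, ht⟩
        have hc : Continuous fun w : ℝ × (Ax → ℝ) × ℝ =>
          (1 - w.2.2) • w.2.1 + w.2.2 • ((1 - w.1) • c0 + w.1 • m) := by fun_prop
        refine hc.continuousAt.eventually (oO.mem_nhds ?_)
        simp only [sub_zero, one_smul, zero_smul, add_zero]
        have hp' : c.1.mem p ∧ p ∈ O := by
          rcases hp with rfl | hp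
          exacts [⟨c0B, c0O⟩, ⟨(hK hp).1, (hK hp).2.1⟩]
        have hz := cvx p c0 t hp'.1 c0B ht.1 ht.2
        intro k hk
        rcases h4 k hk with h | h
        · exact pos_of_iv hz h
        · refine (hp'.2 k hk).trans_le (Ex.mono_sound (d := d) hp'.1 hz (fun i => ?_) _ true h.1)
          have := hp'.1 i
          simp only [Le', Pi.add_apply, Pi.smul_apply, smul_eq_mul, hc0]
          split_ifs <;> nlinarith [this.1, this.2, ht.1])
    obtain ⟨ε, he, ε0, ε1⟩ := ((ev.filter_mono nhdsWithin_le_nhds).and
      (Ioo_mem_nhdsGT (zero_lt_one' ℝ))).exists
    have eB := cvx c0 m ε c0B mB ε0.le ε1.le
    have eI : ∀ i, lo i < hi i → lo i < ((1 - ε) • c0 + ε • m) i ∧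
        ((1 - ε) • c0 + ε • m) i < hi i := fun i h => by
      have := c0B i
      simp only [Pi.add_apply, Pi.smul_apply, smul_eq_mul, m]
      constructor <;> nlinarith [this.1, this.2]
    refine ⟨(1 - ε) • c0 + ε • m, inn _ eB eI ?_, ?_⟩
    · have := he (c0, 1) ⟨mem_insert _ _, by simp⟩
      rwa [sub_self, zero_smul, zero_add, one_smul] at this
    · intro p hp z hz
      rw [segment_eq_image] at hz
      obtain ⟨t, ht, rfl⟩ := hz
      rcases ht.1.eq_or_lt with rfl | t0
      · simpa using hK hp
      refine inn _ (cvx _ _ t (hK hp).1 eB ht.1 ht.2) (fun i h => ?_)
        (he (p, t) ⟨mem_insert_of_mem _ hp, ht⟩)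
      have a1 := (hK hp).1 i
      have a2 := eI i h
      generalize ((1 - ε) • c0 + ε • m) = e at a2
      simp only [Pi.add_apply, Pi.smul_apply, smul_eq_mul]
      constructor <;> nlinarith [a1.1, a1.2, a2.1, a2.2, ht.2]
  refine AE.star (lo := lo) (hi := hi) (oO.inter isClosed_Lam.isOpen_compl) ?_ ?_ st
  · ext p
    exact and_congr_left fun _ => ⟨fun h => ⟨fun i => (h i).1, fun i => (h i).2⟩,
      fun h i => ⟨h.1 i, h.2 i⟩⟩
  · obtain ⟨e, he, -⟩ := st ∅ (empty_subset _) isCompact_empty
    exact ⟨e, he⟩

def closedOK (c : Cell) : Bool := c.2.all fun k => deg c.1 k.1 0

lemma closed_sound {l : List Cell} (h : l.all closedOK = true) :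
    ∃ A, IsClosed A ∧ lset l = A ∩ {p | ¬ Lam p} := by
  induction l with
  | nil => exact ⟨∅, isClosed_empty, by simp [lset]⟩
  | cons c l ih =>
    rw [List.all_cons, Bool.and_eq_true] at h
    obtain ⟨A, hA, e⟩ := ih h.2
    refine ⟨(⋂ i, {p | ((c.1.g i).1 : ℝ) ≤ p i ∧ p i ≤ (c.1.g i).2}) ∩
      (⋂ k ∈ c.2, {p | 0 ≤ (cexp k).ev p}) ∪ A, IsClosed.union (IsClosed.inter ?_ ?_) hA, ?_⟩
    · exact isClosed_iInter fun i => (isClosed_le continuous_const (continuous_apply i)).inter
        (isClosed_le (continuous_apply i) continuous_const)
    · exact isClosed_biInter fun k _ => isClosed_le continuous_const (cexp k).continuous_ev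
    rw [lset_cons, e, union_inter_distrib_right]
    congr 1
    ext p
    simp only [cset, mem_inter_iff, mem_iInter, mem_ofPred_eq]
    refine ⟨fun h => ⟨⟨h.1, fun k hk => (h.2.1 k hk).le⟩, h.2.2⟩, fun h' =>
      ⟨h'.1.1, fun k hk => lt_of_le_of_ne (h'.1.2 k hk) fun e => h'.2 (Or.inl ⟨k.1, ?_, ?_⟩), h'.2⟩⟩
    · simpa using deg_sound (List.all_eq_true.1 h.1 k hk) h'.1.1
    · obtain ⟨k, _ | _⟩ := k <;> simpa [cexp, Ex.ev] using e.symm

inductive Ct
  | E | L (a b c d : Bool) | R (j : ℕ) (i : Ax) (a : ℤ) (t : Ct)
  | P (j : ℕ) (a b c d : Bool) (s t : Ct) | C (i : Ax) (a : ℤ) (s t : Ct)

def dirn (a b c d : Bool) : Ax → Bool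
  | .x => a | .y => b | .u => c | .v => d

def chk : Ct → Bool → List Cell → Bool
  | .E, w, l => !w && l.isEmpty
  | .L a b c d, w, l => w && match l with
    | [e] => leaf e (dirn a b c d)
    | _ => false
  | .R j i a t, w, l => match l[j]? with
    | some e => chk t w (simp' ((cutL e.1 i a, e.2) :: (cutR e.1 i a, e.2) :: l.eraseIdx j))
    | none => false
  | .P j a b c d s t, w, l => w && match l[j]? with
    | some e => closedOK e && (l.eraseIdx j).all closedOK && leaf e (dirn a b c d) &&
        chk s true (l.eraseIdx j) && chk t true (meet [e] (l.eraseIdx j))
    | none => false
  | .C _ _ _ _, _, _ => false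

lemma lset_erase {l : List Cell} {j e} (h : l[j]? = some e) :
    lset l = cset e ∪ lset (l.eraseIdx j) := by
  obtain ⟨hj, rfl⟩ := List.getElem?_eq_some_iff.1 h
  rw [← lset_cons]
  ext p
  simp only [lset, mem_ofPred_eq, (List.getElem_cons_eraseIdx_perm hj).mem_iff]

theorem chk_sound (t : Ct) (w : Bool) (l : List Cell) (h : chk t w l = true) :
    if w then AE (lset l) else lset l = ∅ := by
  induction t generalizing w l with
  | E =>
    simp only [chk, Bool.and_eq_true, Bool.not_eq_true', List.isEmpty_iff] at h
    simp [h.1, h.2, lset]
  | L a b c d =>
    simp only [chk, Bool.and_eq_true] at h
    obtain ⟨rfl, h⟩ := h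
    split at h
    · simpa [lset] using leaf_sound h
    · simp at h
  | R j i a t ih =>
    simp only [chk] at h
    split at h
    · rename_i e he
      have := ih _ _ h
      rw [lset_simp', lset_cons, lset_cons, ← union_assoc] at this
      rw [lset_erase he]
      convert this using 3 <;>
      · ext p
        simp only [cset, mem_union, mem_ofPred_eq, mem_cut (B := e.1) (i := i) (a := a), or_and_right]
    · simp at h
  | P j a b c d s t ih ih' =>
    simp only [chk, Bool.and_eq_true] at h
    obtain ⟨rfl, h⟩ := h
    split at h
    · rename_i e he
      simp only [Bool.and_eq_true] at h
      obtain ⟨⟨⟨⟨h1, h2⟩, h3⟩, h4⟩, h5⟩ := h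
      obtain ⟨A, hA, eA⟩ := closed_sound (l := [e]) (by simpa using h1)
      obtain ⟨B, hB, eB⟩ := closed_sound h2
      have e1 : lset [e] = cset e := by ext; simp [lset]
      have := ih' _ _ h5
      rw [lset_meet, e1] at this
      rw [lset_erase he]
      exact AE.union' hA hB (e1 ▸ eA) eB (leaf_sound h3) (ih _ _ h4) this
    · simp at h
  | C => simp [chk] at h

def kd (P : Bx → Bool) : Ct → Bx → Bool
  | .C i a s t, B => kd P s (cutL B i a) && kd P t (cutR B i a)
  | _, B => P B

theorem kd_sound {P : Bx → Bool} {Q : (Ax → ℝ) → Prop} (hP : ∀ B p, P B = true → B.mem p → Q p)
    (t : Ct) (B : Bx) (h : kd P t B = true) {p} (hp : B.mem p) : Q p := by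
  induction t generalizing B with
  | C i a s t ih ih' =>
    simp only [kd, Bool.and_eq_true] at h
    exact (mem_cut.1 hp).elim (ih _ h.1) (ih' _ h.2)
  | _ => exact hP _ _ h hp

end Pool.Agent.MP_a61dd1_gt

end

-- part MP_a61dd1_gt.Certs
section

/-! Certificates for the box checker (computer generated). -/

namespace Pool.Agent.MP_a61dd1_gt

inductive Nm | a | b | x | x1 | y | y1 | u | u1 | u2 | v | v1
  deriving DecidableEq, Fintype

def certL : List (ℕ × Ct) := [
    (3, .E),
    (9, .E),
    (33, .E),
    (1025, .E),
    (34, .E),
    (258, .E),
    (1026, .E),
    (12, .E),
    (20, (.R 0 .u 6 (.R 0 .v 6 .E))),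
    (1032, .E),
    (48, .E),
    (320, .E),
    (576, .E),
    (1536, .E),
    (0, (.P 6 true true true true (.P 2 true true true true (.P 2 true true true true (.P 0 true
    true true true (.P 0 true true true true (.P 0 true true true true (.L true true true true)
    (.L true true true true)) (.P 0 true true true true (.L true true true true) (.L true true
    true true))) (.P 0 true true true true (.P 0 true true true true (.L true true true true) (.L
    true true true true)) (.P 0 true true true true (.L true true true true) (.L true true true
    true)))) (.P 0 true true true true (.L true true true true) (.L true true true true))) (.P 0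
    true true true true (.P 0 true true true true (.L true true true true) (.L true true true
    true)) (.P 0 true true true true (.L true true true true) (.L true true true true)))) (.L true
    true true true))),
    (1, (.P 1 true true true true (.P 2 true true true true (.P 0 true true true true (.P 0 true
    true true true (.P 0 true true true true (.L true true true true) (.L true true true true))
    (.P 0 true true true true (.L true true true true) (.L true true true true))) (.P 0 true true
    true true (.P 0 true true true true (.L true true true true) (.L true true true true)) (.P 0
    true true true true (.L true true true true) (.L true true true true)))) (.L true true true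
    true)) (.P 0 true true true true (.L true true true true) (.L true true true true)))),
    (2, (.P 1 true true true true (.P 0 true true true true (.P 0 true true true true (.L true
    true true true) (.L true true true true)) (.P 0 true true true true (.L true true true true)
    (.L true true true true))) (.L true true true true))),
    (4, (.P 8 true true true true (.P 8 true true false true (.P 4 true true false true (.P 0 true
    true false false (.P 8 true true true true (.P 5 true true true true (.P 2 true true true true
    (.P 8 true true true true (.P 6 true true true true (.P 6 true true true true (.P 0 true true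
    true true (.P 0 true true true true (.P 0 true true true true (.P 0 true true true true (.P 0
    true true true true (.L true true true true) (.L true true true true)) (.L true true true
    true)) (.P 0 true true true true (.L true true true true) (.L true true true true))) (.P 0
    true true true true (.L true true true true) (.L true true true true))) (.P 0 true true true
    true (.P 0 true true true true (.L true true true true) (.L true true true true)) (.P 0 true
    true true true (.L true true true true) (.L true true true true)))) (.L true true true true))
    (.P 0 true true true true (.L true true true true) (.L true true true true))) (.P 0 true true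
    true true (.L true true true true) (.L true true true true))) (.P 0 true true true true (.P 0
    true true true true (.L true true true true) (.L true true true true)) (.P 0 true true true
    true (.L true true true true) (.L true true true true)))) (.P 0 true true true true (.P 0 true
    true true true (.L true true true true) (.L true true true true)) (.P 0 true true true true
    (.L true true true true) (.L true true true true)))) (.P 0 true true true true (.L true true
    true true) (.L true true true true))) (.P 0 true true true true (.P 0 true true true true (.L
    true true true true) (.L true true true true)) (.P 0 true true true true (.L true true true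
    true) (.L true true true true)))) (.P 0 true true false true (.P 0 true true true true (.L
    true true true true) (.L true true true true)) (.P 0 true true true true (.L true true true
    true) (.L true true true true)))) (.P 0 true true false true (.P 0 true true false true (.L
    true true true true) (.L true true true true)) (.P 0 true true false true (.L true true true
    true) (.L true true true true)))) (.P 0 true true true true (.P 0 true true true true (.L true
    true true true) (.L true true true true)) (.P 0 true true true true (.L true true true true)
    (.L true true true true))))),
    (8, (.P 6 true true true true (.P 0 true false true true (.P 2 true false true true (.P 9 true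
    false true true (.P 5 true true true true (.P 4 true true true true (.P 4 true true true true
    (.P 0 true true true true (.P 1 true true true true (.P 2 true true true true (.P 0 true true
    true true (.P 0 true true true true (.P 0 true true true true (.L true true true true) (.L
    true true true true)) (.P 0 true true true true (.L true true true true) (.L true true true
    true))) (.P 0 true true true true (.P 0 true true true true (.L true true true true) (.L true
    true true true)) (.P 0 true true true true (.L true true true true) (.L true true true
    true)))) (.L true true true true)) (.P 0 true true true true (.L true true true true) (.L true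
    true true true))) (.P 0 true true true true (.P 0 true true true true (.L true true true true)
    (.L true true true true)) (.P 0 true true true true (.L true true true true) (.L true true
    true true)))) (.P 0 true true true true (.L true true true true) (.L true true true true)))
    (.P 0 true true true true (.P 0 true true true true (.L true true true true) (.L true true
    true true)) (.P 0 true true true true (.L true true true true) (.L true true true true)))) (.P
    0 true true true true (.P 0 true true true true (.L true true true true) (.L true true true
    true)) (.P 0 true true true true (.L true true true true) (.L true true true true)))) (.L true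
    true true true)) (.P 0 true true true true (.L true true true true) (.L true true true true)))
    (.P 0 true true true true (.P 0 true false true true (.L true false true true) (.L true true
    true true)) (.P 0 true true true true (.L true true true true) (.L true true true true)))) (.P
    0 true true true true (.P 0 true true true true (.L true true true true) (.L true true true
    true)) (.P 0 true true true true (.L true true true true) (.L true true true true))))),
    (16, (.R 0 .x (-21) (.R 1 .u 2 (.R 0 .x (-4) (.R 6 .x (-4) (.P 0 true true false true (.P 0
    false true false true (.P 1 false true false true (.P 0 true true false true (.P 0 false true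
    true true (.P 0 false true true true (.P 0 true true true true (.L true true true true) (.L
    true true true true)) (.P 0 true true true true (.L true true true true) (.L true true true
    true))) (.P 0 true true true true (.L true true true true) (.L true true true true))) (.P 0
    true true true true (.L true true true true) (.L true true true true))) (.P 0 true true false
    true (.L false true true true) (.L true true true true))) (.L false true false true)) (.P 0
    true true false true (.L true true false true) (.L true true false true)))))))),
    (32, (.R 0 .x (-21) (.R 1 .u 2 (.R 0 .x (-4) (.R 6 .x (-4) (.P 0 false true true false (.P 0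
    true true true false (.P 1 true true true false (.P 2 true true false false (.P 0 false true
    true false (.P 0 true true false false (.P 0 true true true true (.L true true true true) (.L
    true true true true)) (.P 0 true true true true (.L true true true true) (.L true true true
    true))) (.P 0 true true true false (.L true true true true) (.L true true true true))) (.P 0
    true true true false (.L true true false false) (.L true true true false))) (.P 0 true true
    true false (.L true true true false) (.L true true true false))) (.L true true true true)) (.P
    0 true true true false (.L false true true true) (.L true true true true)))))))),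
    (64, (.P 0 true false true true (.L true false true true) (.L true false true true))),
    (256, (.P 4 false true true false (.P 2 true true true true (.P 0 false true true false (.P 0
    true true true true (.L true true true true) (.L true true true true)) (.P 0 true true true
    true (.L true true true true) (.L true true true true))) (.P 0 true true true true (.L true
    true true true) (.L true true true true))) (.L false true true true))),
    (512, (.P 1 true true true true (.P 1 true true true true (.P 0 true true true true (.P 0 true
    true true true (.L true true true true) (.L true true true true)) (.P 0 true true true true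
    (.L true true true true) (.L true true true true))) (.L true true true true)) (.P 0 true true
    true true (.L true true true true) (.L true true true true)))),
    (1024, (.L true true true true)),
    (5, (.P 0 true true true true (.L true true true true) (.L true true true true))),
    (17, (.P 0 true true true true (.P 0 true true true true (.L true true true true) (.L true
    true true true)) (.P 0 true true true true (.L true true true true) (.L true true true
    true)))),
    (65, (.P 0 true true true true (.L true true true true) (.L true true true true))),
    (257, (.P 1 true true true false (.P 2 true true true true (.P 0 true true true false (.P 0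
    true true true true (.L true true true true) (.L true true true true)) (.P 0 true true true
    true (.L true true true true) (.L true true true true))) (.L true true true true)) (.P 0 true
    true true false (.L true true true true) (.L true true true true)))),
    (513, (.P 1 true true true true (.P 0 true true true true (.P 0 true true true true (.L true
    true true true) (.L true true true true)) (.P 0 true true true true (.L true true true true)
    (.L true true true true))) (.L true true true true))),
    (6, (.P 1 true true true true (.P 0 true true true true (.L true true true true) (.L true true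
    true true)) (.L true true true true))),
    (10, (.P 1 true false true true (.P 0 true false true true (.P 0 true false true true (.L true
    true true true) (.L true true true true)) (.P 0 true false true true (.L true true true true)
    (.L true true true true))) (.L true false true true))),
    (18, (.P 1 true true true true (.P 0 true true true true (.L true true true true) (.L true
    true true true)) (.L true true true true))),
    (66, (.L true true true true)),
    (514, (.P 0 true true true true (.L true true true true) (.L true true true true))),
    (36, (.P 3 true true true true (.P 3 true true false true (.P 0 true true false false (.P 4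
    true true true true (.P 2 true true true true (.P 2 true true true true (.P 0 true true true
    true (.P 0 true true true true (.P 0 true true true true (.L true true true true) (.L true
    true true true)) (.L true true true true)) (.P 0 true true true true (.L true true true true)
    (.L true true true true))) (.L true true true true)) (.P 0 true true true true (.L true true
    true true) (.L true true true true))) (.L true true true true)) (.P 0 true true true true (.L
    true true true true) (.L true true true true))) (.P 0 true true false true (.L true true true
    true) (.L true true true true))) (.P 0 true true true true (.L true true true true) (.L true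
    true true true)))),
    (68, (.R 0 .y 1 (.R 1 .v 6 (.P 1 true true true false (.P 0 true false true true (.P 0 true
    true true false (.L true false true true) (.L true true true true)) (.P 0 true true true true
    (.L true false true true) (.L true true true true))) (.P 0 true true true true (.L true true
    true false) (.L true true true true)))))),
    (260, (.P 3 true true true true (.P 0 true true true false (.P 5 true true true false (.P 3
    true true true true (.P 1 true true true true (.P 4 true true true true (.P 3 true true true
    true (.P 0 true true true true (.P 0 true true true true (.L true true true true) (.L true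
    true true true)) (.P 0 true true true true (.L true true true true) (.L true true true true)))
    (.L true true true true)) (.L true true true true)) (.P 0 true true true true (.L true true
    true true) (.L true true true true))) (.P 0 true true true true (.L true true true true) (.L
    true true true true))) (.L true true true true)) (.P 0 true true true true (.L true true true
    true) (.L true true true true))) (.P 0 true true true true (.L true true true true) (.L true
    true true true)))),
    (516, (.P 4 true true true true (.P 4 true true false true (.P 0 true true false true (.P 2
    true true true true (.P 0 true true true true (.P 0 true true true true (.P 0 true true true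
    true (.L true true true true) (.L true true true true)) (.L true true true true)) (.P 0 true
    true true true (.L true true true true) (.L true true true true))) (.P 0 true true true true
    (.L true true true true) (.L true true true true))) (.P 0 true true true true (.L true true
    true true) (.L true true true true))) (.P 0 true true false true (.L true true true true) (.L
    true true true true))) (.P 0 true true true true (.L true true true true) (.L true true true
    true)))),
    (1028, (.P 0 true true true true (.P 0 true true true true (.P 0 true true true true (.L true
    true true true) (.L true true true true)) (.P 0 true true true true (.L true true true true)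
    (.L true true true true))) (.P 0 true true true true (.L true true true true) (.L true true
    true true)))),
    (24, (.P 0 true true true true (.P 2 true true true true (.P 1 false true true true (.P 2 true
    true true true (.P 0 false true true true (.P 0 true true true true (.L true true true true)
    (.L true true true true)) (.P 0 true true true true (.L true true true true) (.L true true
    true true))) (.L true true true true)) (.P 0 true true true true (.L true true true true) (.L
    true true true true))) (.L true true true true)) (.P 0 true true true true (.L true true true
    true) (.L true true true true)))),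
    (40, (.R 0 .u 7 (.R 0 .v 7 (.P 1 true true true false (.P 0 true true true true (.P 0 true
    true false false (.P 4 true true true true (.P 0 true true false true (.P 1 true true true
    true (.P 0 true true false true (.P 0 true true true true (.L true true true true) (.L true
    true true true)) (.P 0 true true true true (.L true true true true) (.L true true true true)))
    (.L true true true true)) (.P 0 true true false true (.L true true true true) (.L true true
    true true))) (.L true true true true)) (.L true true false true)) (.P 0 true true true true
    (.L true true true true) (.L true true true true))) (.P 0 true true true true (.L true true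
    true false) (.L true true true true)))))),
    (72, (.L true false true true)),
    (264, (.R 0 .v 5 (.P 2 true true true true (.P 0 true true true true (.P 0 true true true true
    (.L true true true true) (.L true true true true)) (.P 0 true true true true (.L true true
    true true) (.L true true true true))) (.P 0 true true true true (.L true true true true) (.L
    true true true true))))),
    (520, (.P 3 true true true true (.P 0 true false true true (.P 7 true false true true (.P 3
    true true true true (.P 2 true true true true (.P 2 true true true true (.P 0 true true true
    true (.P 1 true true true true (.P 0 true true true true (.P 0 true true true true (.L true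
    true true true) (.L true true true true)) (.P 0 true true true true (.L true true true true)
    (.L true true true true))) (.L true true true true)) (.P 0 true true true true (.L true true
    true true) (.L true true true true))) (.L true true true true)) (.P 0 true true true true (.L
    true true true true) (.L true true true true))) (.P 0 true true true true (.L true true true
    true) (.L true true true true))) (.L true true true true)) (.P 0 true true true true (.L true
    true true true) (.L true true true true))) (.P 0 true true true true (.L true true true true)
    (.L true true true true)))),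
    (80, (.R 0 .x (-21) (.R 1 .x (-3) (.R 3 .x (-4) (.R 0 .x (-2) (.P 4 false true true true (.P 1
    false true true true (.P 0 true true true true (.P 0 true true true true (.L false true true
    true) (.L true true true true)) (.P 0 true true true true (.L true true true true) (.L true
    true true true))) (.P 0 true true true true (.L false true true true) (.L true true true
    true))) (.L true true true true))))))),
    (272, (.R 0 .x (-5) (.R 0 .v 3 (.R 0 .x (-21) (.R 3 .x (-3) (.R 5 .x (-4) (.R 1 .x (-3) (.P 6
    true true true true (.P 0 false true true false (.P 0 true true true true (.P 0 false true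
    true false (.P 0 false true true true (.P 0 true true true true (.L true true true false) (.L
    true true true true)) (.P 0 true true true true (.L true true true true) (.L true true true
    true))) (.P 0 true true true true (.L true true true false) (.L true true true true))) (.P 0
    true true true true (.L true true true true) (.L true true true true))) (.P 0 true true true
    true (.L false true true true) (.L true true true true))) (.L true true true true))))))))),
    (528, (.P 0 true true true true (.L true true true true) (.L true true true true))),
    (1040, (.R 0 .x (-4) (.P 0 true true false true (.L false true false true) (.L true true false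
    true)))),
    (96, (.R 0 .x (-5) (.R 0 .v 2 (.R 0 .x (-3) (.R 1 .x (-5) (.R 0 .x (-2) (.P 0 true true true
    false (.L true true true false) (.L true true true true)))))))),
    (288, (.R 0 .x (-21) (.R 1 .x (-3) (.R 3 .x (-3) (.P 0 false true true false (.P 1 true true
    true false (.P 0 false true true false (.L true true true true) (.L true true true true)) (.L
    true true true false)) (.L false true true true)))))),
    (544, (.P 0 true true true true (.L true true true true) (.L true true true true))),
    (1056, (.R 0 .x (-4) (.P 0 false true true true (.L true true true true) (.L true true true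
    true)))),
    (1088, (.L true false true true)),
    (768, (.P 1 true true true true (.P 0 true true true true (.L true true true true) (.L true
    true true true)) (.L true true true true))),
    (1280, (.L false true true true)),
    (69, (.L true true true true)),
    (261, (.P 0 true true true false (.L true true true true) (.L true true true true))),
    (517, (.L true true true true)),
    (81, (.L true true true true)),
    (273, (.P 0 true true true false (.L true true true true) (.L true true true true))),
    (529, (.P 0 true true true true (.L true true true true) (.L true true true true))),
    (769, (.P 1 true true true true (.P 0 true true true true (.L true true true true) (.L true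
    true true true)) (.L true true true true))),
    (70, (.L true true true true)),
    (518, (.L true true true true)),
    (26, (.P 1 true true true true (.P 0 true true true true (.L true true true true) (.L true
    true true true)) (.L true true true true))),
    (74, (.L true false true true)),
    (522, (.P 0 true false true true (.L true true true true) (.L true true true true))),
    (82, (.L true true true true)),
    (530, (.L true true true true)),
    (100, (.P 0 true true true false (.L true true true true) (.L true true true true))),
    (292, (.P 1 true true true true (.P 0 true true true true (.L true true true true) (.L true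
    true true true)) (.L true true true true))),
    (548, (.P 0 true true true true (.P 0 true true false true (.P 0 true true true true (.L true
    true true true) (.L true true true true)) (.L true true true true)) (.L true true true true))),
    (1060, (.P 0 true true true true (.P 0 true true true true (.L true true true true) (.L true
    true true true)) (.L true true true true))),
    (1092, (.L true false true true)),
    (772, (.P 0 true true true true (.P 1 true true true true (.P 0 true true true true (.L true
    true true true) (.L true true true true)) (.L true true true true)) (.L true true true true))),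
    (1284, (.P 0 true true true true (.P 0 true true true true (.L true true true true) (.L true
    true true true)) (.L true true true true))),
    (88, (.L true true true true)),
    (280, (.P 0 false true true true (.L true true true true) (.L true true true true))),
    (536, (.P 0 true true true true (.P 1 true true true true (.P 0 true true true true (.L true
    true true true) (.L true true true true)) (.L true true true true)) (.L true true true true))),
    (104, (.R 0 .v 7 (.P 0 true true true true (.L true true true false) (.L true true true
    true)))),
    (296, (.P 0 true true true true (.L true true true true) (.L true true true true))),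
    (552, (.P 0 true true true true (.P 0 true true true true (.P 0 true true true true (.L true
    true true true) (.L true true true true)) (.L true true true true)) (.L true true true true))),
    (776, (.P 1 true true true true (.P 0 true true true true (.L true true true true) (.L true
    true true true)) (.L true true true true))),
    (1104, (.R 0 .x (-2) (.P 0 true true true true (.L false true true true) (.L true true true
    true)))),
    (784, (.L true true true true)),
    (1296, (.R 0 .x (-4) (.P 0 true true true true (.L false true true true) (.L true true true
    true)))),
    (1120, (.R 0 .x (-4) (.L true true true true))),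
    (800, (.L true true true true)),
    (1312, (.R 0 .x (-3) (.L false true true true))),
    (773, (.L true true true true)),
    (785, (.L true true true true)),
    (90, (.L true true true true)),
    (538, (.L true true true true)),
    (1124, (.L true true true true)),
    (804, (.L true true true true)),
    (1316, (.L true true true true)),
    (792, (.L true true true true)),
    (808, (.L true true true true))]

def certR : List (ℕ × Ct) := [
    (3, .E),
    (9, .E),
    (33, .E),
    (129, .E),
    (1025, .E),
    (34, .E),
    (130, .E),
    (258, .E),
    (1026, .E),
    (12, .E),
    (20, (.R 0 .u 6 (.R 0 .v 6 .E))),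
    (132, .E),
    (264, (.R 0 .v 5 .E)),
    (1032, .E),
    (48, .E),
    (192, .E),
    (320, .E),
    (576, (.R 0 .x 5 (.R 0 .y 1 .E))),
    (384, .E),
    (1536, .E),
    (0, (.P 1 true true true true (.P 1 true true true true (.P 0 true true true true (.P 0 true
    true true true (.P 0 true true true true (.L true true true true) (.L true true true true))
    (.P 0 true true true true (.L true true true true) (.L true true true true))) (.P 0 true true
    true true (.L true true true true) (.L true true true true))) (.L true true true true)) (.L
    true true true true))),
    (1, (.P 0 true true true true (.L true true true true) (.L true true true true))),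
    (2, (.P 0 true true true true (.L true true true true) (.L true true true true))),
    (4, (.P 2 true true false true (.P 1 true true false true (.P 0 true true false false (.P 0
    true true true true (.P 2 true true true true (.P 2 true true true true (.P 5 true true true
    true (.P 1 true true true true (.P 3 true true true true (.P 5 true true true true (.P 0 true
    true true true (.P 0 true true true true (.P 0 true true true true (.P 0 true true true true
    (.P 0 true true true true (.L true true true true) (.L true true true true)) (.L true true
    true true)) (.P 0 true true true true (.L true true true true) (.L true true true true))) (.P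
    0 true true true true (.L true true true true) (.L true true true true))) (.P 0 true true true
    true (.P 0 true true true true (.L true true true true) (.L true true true true)) (.P 0 true
    true true true (.L true true true true) (.L true true true true)))) (.L true true true true))
    (.P 0 true true true true (.L true true true true) (.L true true true true))) (.P 0 true true
    true true (.P 0 true true true true (.L true true true true) (.L true true true true)) (.P 0
    true true true true (.L true true true true) (.L true true true true)))) (.P 0 true true true
    true (.L true true true true) (.L true true true true))) (.P 0 true true true true (.P 0 true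
    true true true (.L true true true true) (.L true true true true)) (.P 0 true true true true
    (.L true true true true) (.L true true true true)))) (.P 0 true true true true (.P 0 true true
    true true (.L true true true true) (.L true true true true)) (.P 0 true true true true (.L
    true true true true) (.L true true true true)))) (.P 0 true true true true (.L true true true
    true) (.L true true true true))) (.P 0 true true true true (.P 0 true true true true (.L true
    true true true) (.L true true true true)) (.P 0 true true true true (.L true true true true)
    (.L true true true true)))) (.P 0 true true false true (.P 0 true true true true (.L true true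
    true true) (.L true true true true)) (.P 0 true true true true (.L true true true true) (.L
    true true true true)))) (.P 0 true true false true (.P 0 true true false true (.L true true
    true true) (.L true true true true)) (.P 0 true true false true (.L true true true true) (.L
    true true true true))))),
    (8, (.P 2 true true true true (.P 0 true false true true (.P 0 true false true true (.P 0 true
    false true true (.P 3 true true true true (.P 2 true true true true (.P 5 true true true true
    (.P 0 true true true true (.P 0 true true true true (.P 0 true true true true (.P 0 true true
    true true (.P 0 true true true true (.P 0 true true true true (.L true true true true) (.L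
    true true true true)) (.P 0 true true true true (.L true true true true) (.L true true true
    true))) (.P 0 true true true true (.P 0 true true true true (.L true true true true) (.L true
    true true true)) (.P 0 true true true true (.L true true true true) (.L true true true
    true)))) (.L true true true true)) (.P 0 true true true true (.L true true true true) (.L true
    true true true))) (.P 0 true true true true (.P 0 true true true true (.L true true true true)
    (.L true true true true)) (.P 0 true true true true (.L true true true true) (.L true true
    true true)))) (.P 0 true true true true (.L true true true true) (.L true true true true)))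
    (.P 0 true true true true (.P 0 true true true true (.L true true true true) (.L true true
    true true)) (.P 0 true true true true (.L true true true true) (.L true true true true)))) (.P
    0 true true true true (.P 0 true true true true (.L true true true true) (.L true true true
    true)) (.P 0 true true true true (.L true true true true) (.L true true true true)))) (.L true
    true true true)) (.P 0 true true true true (.L true true true true) (.L true true true true)))
    (.P 0 true false true true (.P 0 true false true true (.L true true true true) (.L true true
    true true)) (.P 0 true true true true (.L true true true true) (.L true true true true)))) (.P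
    0 true true true true (.P 0 true true true true (.L true true true true) (.L true true true
    true)) (.P 0 true true true true (.L true true true true) (.L true true true true))))),
    (16, (.P 0 true true true true (.P 0 false true true true (.L false true true true) (.L true
    true true true)) (.L true true true true))),
    (32, (.P 1 true true false false (.P 1 true true false false (.P 0 false true false false (.P
    0 true true true true (.L true true true true) (.L true true true true)) (.L true true true
    true)) (.L true true false false)) (.L true true false false))),
    (64, (.L false false true true)),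
    (128, (.L true true true true)),
    (256, (.P 0 true true true false (.P 0 true true true true (.L true true true true) (.L true
    true true true)) (.L true true true true))),
    (512, (.R 0 .u 9 (.R 0 .x 2 (.R 0 .u 4 (.R 4 .x (-23) (.R 1 .u 9 (.R 7 .u 9 (.P 4 false true
    true true (.P 2 true true false true (.P 2 true true true true (.P 0 true true false true (.P
    0 true true true true (.P 3 true true true true (.P 2 true true false true (.P 1 false true
    false true (.P 0 false true true true (.P 0 false true true true (.P 0 false true true true
    (.L true true true true) (.L true true true true)) (.P 0 true true true true (.L true true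
    true true) (.L true true true true))) (.P 0 true true true true (.L true true true true) (.L
    true true true true))) (.P 0 false true true true (.L true true true true) (.L true true true
    true))) (.P 0 true true true true (.L true true true true) (.L true true true true))) (.P 0
    true true true true (.L true true true true) (.L true true true true))) (.L true true true
    true)) (.P 0 true true true true (.L true true false true) (.L true true true true))) (.L true
    true true true)) (.P 0 true true false true (.L true true true true) (.L true true true
    true))) (.P 0 true true true true (.L true true true true) (.L true true true true)))))))))),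
    (1024, (.R 0 .u 9 (.R 0 .x 2 (.R 0 .u 4 (.R 4 .x (-23) (.R 1 .u 9 (.R 7 .u 9 (.P 4 true false
    false true (.P 2 false false true true (.P 2 true false false true (.P 0 true false true true
    (.P 0 true false false true (.P 3 false false false true (.P 1 true false true true (.P 1
    false false true true (.P 0 true false false true (.P 0 true false false true (.P 0 true false
    false true (.L true false true true) (.L true false true true)) (.P 0 true false false true
    (.L true false true true) (.L true false true true))) (.P 0 true false false true (.L true
    false true true) (.L true false true true))) (.L true false true true)) (.P 0 true false true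
    true (.L true false true true) (.L true false true true))) (.P 0 true false true true (.L
    false false true true) (.L true false true true))) (.L true false false true)) (.P 0 true
    false true true (.L true false true true) (.L true false true true))) (.L true false false
    true)) (.P 0 true false true true (.L true false true true) (.L true false true true))) (.P 0
    true false true true (.L true false false true) (.L true false true true)))))))))),
    (5, (.P 0 true true true true (.L true true true true) (.L true true true true))),
    (17, (.L true true true true)),
    (65, (.P 0 true true true true (.L true true true true) (.L true true true true))),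
    (257, (.P 0 true true true false (.L true true true false) (.L true true true false))),
    (513, (.P 0 true true true true (.L true true true true) (.L true true true true))),
    (6, (.P 1 true true true true (.P 0 true true true true (.L true true true true) (.L true true
    true true)) (.L true true true true))),
    (10, (.P 3 true false true true (.P 0 true false true true (.P 0 true false true true (.L true
    true true true) (.L true true true true)) (.P 0 true false true true (.L true true true true)
    (.L true true true true))) (.L true false true true))),
    (18, (.P 0 true true true true (.L true true true true) (.L true true true true))),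
    (66, (.L true true true true)),
    (514, (.L true true true true)),
    (36, (.P 1 true true false true (.P 0 true true false false (.P 0 true true true true (.P 1
    true true true true (.P 1 true true true true (.P 3 true true true true (.P 0 true true true
    true (.P 0 true true true true (.P 0 true true true true (.L true true true true) (.L true
    true true true)) (.L true true true true)) (.P 0 true true true true (.L true true true true)
    (.L true true true true))) (.L true true true true)) (.P 0 true true true true (.L true true
    true true) (.L true true true true))) (.P 0 true true true true (.L true true true true) (.L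
    true true true true))) (.L true true true true)) (.P 0 true true true true (.L true true true
    true) (.L true true true true))) (.P 0 true true false true (.L true true true true) (.L true
    true true true)))),
    (68, (.R 0 .y 1 (.R 1 .v 6 (.P 1 true true true false (.P 0 true false true true (.P 0 true
    true true false (.L true false true true) (.L true true true true)) (.P 0 true true true true
    (.L true false true true) (.L true true true true))) (.P 0 true true true true (.L true true
    true false) (.L true true true true)))))),
    (260, (.P 1 true true true true (.P 0 true true true false (.P 0 true true true false (.P 2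
    true true true true (.P 1 true true true true (.P 3 true true true true (.P 0 true true true
    true (.P 0 true true true true (.P 0 true true true true (.L true true true true) (.L true
    true true true)) (.L true true true true)) (.P 0 true true true true (.L true true true true)
    (.L true true true true))) (.L true true true true)) (.P 0 true true true true (.L true true
    true true) (.L true true true true))) (.P 0 true true true true (.L true true true true) (.L
    true true true true))) (.L true true true true)) (.P 0 true true true true (.L true true true
    true) (.L true true true true))) (.P 0 true true true true (.L true true true true) (.L true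
    true true true)))),
    (516, (.P 1 true true false true (.P 0 true true false true (.P 1 true true true true (.P 1
    true true true true (.P 2 true true true true (.P 0 true true true true (.P 0 true true true
    true (.L true true true true) (.L true true true true)) (.P 0 true true true true (.L true
    true true true) (.L true true true true))) (.L true true true true)) (.P 0 true true true true
    (.L true true true true) (.L true true true true))) (.P 0 true true true true (.L true true
    true true) (.L true true true true))) (.P 0 true true true true (.L true true true true) (.L
    true true true true))) (.P 0 true true false true (.L true true true true) (.L true true true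
    true)))),
    (1028, (.P 0 true true true true (.P 0 true true true true (.P 0 true true true true (.L true
    true true true) (.L true true true true)) (.P 0 true true true true (.L true true true true)
    (.L true true true true))) (.P 0 true true true true (.L true true true true) (.L true true
    true true)))),
    (24, (.P 0 true true true true (.P 0 true true true true (.P 2 true true true true (.P 0 false
    true true true (.P 0 true true true true (.P 0 false true true true (.L true true true true)
    (.L true true true true)) (.L true true true true)) (.P 0 true true true true (.L true true
    true true) (.L true true true true))) (.P 0 true true true true (.L true true true true) (.L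
    true true true true))) (.L true true true true)) (.P 0 true true true true (.L true true true
    true) (.L true true true true)))),
    (40, (.R 0 .u 7 (.R 0 .v 7 (.P 1 true true true false (.P 0 true true true true (.P 0 true
    true false false (.P 0 true true true true (.P 0 true true false true (.P 0 true true true
    true (.P 0 true true false true (.P 0 true true true true (.L true true true true) (.L true
    true true true)) (.P 0 true true true true (.L true true true true) (.L true true true true)))
    (.L true true true true)) (.P 0 true true true true (.L true true false true) (.L true true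
    true true))) (.L true true true true)) (.L true true false true)) (.P 0 true true true true
    (.L true true true true) (.L true true true true))) (.P 0 true true true true (.L true true
    true false) (.L true true true true)))))),
    (72, (.L true false true true)),
    (136, (.P 2 true true true true (.P 0 true true true true (.P 0 true true true true (.L true
    true true true) (.L true true true true)) (.P 0 true true true true (.L true true true true)
    (.L true true true true))) (.P 0 true true true true (.L true true true true) (.L true true
    true true)))),
    (520, (.P 1 true true true true (.P 0 true false true true (.P 0 true false true true (.P 2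
    true true true true (.P 1 true true true true (.P 3 true true true true (.P 0 true true true
    true (.P 0 true true true true (.P 0 true true true true (.P 0 true true true true (.L true
    true true true) (.L true true true true)) (.P 0 true true true true (.L true true true true)
    (.L true true true true))) (.L true true true true)) (.P 0 true true true true (.L true true
    true true) (.L true true true true))) (.L true true true true)) (.P 0 true true true true (.L
    true true true true) (.L true true true true))) (.P 0 true true true true (.L true true true
    true) (.L true true true true))) (.L true true true true)) (.P 0 true true true true (.L true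
    true true true) (.L true true true true))) (.P 0 true true true true (.L true true true true)
    (.L true true true true)))),
    (80, (.R 0 .x 4 (.P 0 true true true true (.L false true true true) (.L true true true
    true)))),
    (144, (.L false true true true)),
    (272, (.R 0 .x 4 (.L true true true false))),
    (528, (.R 0 .u 9 (.R 0 .x 2 (.R 2 .x (-22) (.R 1 .u 9 (.R 4 .u 9 (.P 2 false true true true
    (.P 1 false true true true (.P 0 true true true true (.P 0 true true false true (.L true true
    true true) (.L true true true true)) (.L true true true true)) (.L true true true true)) (.L
    true true true true)))))))),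
    (1040, (.R 0 .u 11 (.R 0 .x 2 (.R 0 .u 4 (.R 1 .x 4 (.R 4 .x (-23) (.R 1 .u 11 (.R 7 .u 11 (.P
    4 true true false true (.P 2 false true true true (.P 2 true true false true (.P 0 true true
    true true (.P 0 true true false true (.P 1 false true true true (.P 0 true true true true (.P
    0 true true true true (.L false true false true) (.L true true true true)) (.P 0 true true
    true true (.L true true true true) (.L true true true true))) (.P 0 true true true true (.L
    false true true true) (.L true true true true))) (.L true true false true)) (.P 0 true true
    true true (.L true true true true) (.L true true true true))) (.L true true false true)) (.P 0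
    true true true true (.L true true true true) (.L true true true true))) (.P 0 true true true
    true (.L true true false true) (.L true true true true))))))))))),
    (96, (.R 0 .x 3 (.L false true true false))),
    (160, (.L true true true false)),
    (288, (.R 0 .x 3 (.L true true true true))),
    (544, (.R 0 .x 1 (.R 0 .u 4 (.R 1 .u 10 (.R 2 .x 3 (.R 0 .u 10 (.R 2 .x (-23) (.R 0 .u 10 (.R
    3 .u 10 (.P 1 true true false true (.P 0 true true false true (.P 2 false true true true (.P 0
    false true false true (.P 0 false true true true (.L false true true true) (.L true true true
    true)) (.P 0 false true true true (.L true true true true) (.L true true true true))) (.L true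
    true true true)) (.L true true false true)) (.L true true false true))))))))))),
    (1056, (.R 0 .x 2 (.R 0 .u 4 (.R 1 .u 9 (.R 3 .x 3 (.R 4 .x (-21) (.R 1 .u 9 (.R 7 .u 9 (.P 9
    true true false true (.P 9 true true false true (.P 4 true true false true (.P 2 false true
    true true (.P 2 true true false true (.P 0 true true true true (.P 0 true true false true (.P
    2 true true false true (.P 0 false true false true (.P 0 true true true true (.L true true
    false true) (.L true true true true)) (.P 0 true true true true (.L true true true true) (.L
    true true true true))) (.P 0 true true false true (.L true true true true) (.L true true true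
    true))) (.L true true false true)) (.P 0 true true true true (.L true true true true) (.L true
    true true true))) (.L true true false true)) (.P 0 true true true true (.L true true true
    true) (.L true true true true))) (.P 0 true true true true (.L true true false true) (.L true
    true true true))) (.L true true false true)) (.L true true false true)))))))))),
    (1088, (.L false false true true)),
    (640, (.R 0 .x (-32) (.P 0 false true true true (.L true true true true) (.L true true true
    true)))),
    (1152, (.R 0 .x (-32) (.P 0 true false true true (.L false false true true) (.L true false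
    true true)))),
    (768, (.P 0 true true true true (.P 0 false true true true (.L true true true true) (.L true
    true true true)) (.L true true true true))),
    (1280, (.R 0 .x 6 (.R 0 .y 2 (.P 3 true false true true (.P 3 true false true true (.P 0 true
    true true true (.P 0 true false true true (.L false false true true) (.L true false true
    true)) (.P 0 true true true true (.L true true true true) (.L true true true true))) (.L true
    false true true)) (.L true false true true))))),
    (69, (.L true true true true)),
    (261, (.P 0 true true true false (.L true true true true) (.L true true true true))),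
    (517, (.L true true true true)),
    (81, (.L true true true true)),
    (273, (.L true true true false)),
    (529, (.L true true true true)),
    (769, (.P 0 true true true true (.L true true true true) (.L true true true true))),
    (70, (.L true true true true)),
    (518, (.L true true true true)),
    (26, (.P 1 true true true true (.P 0 true true true true (.L true true true true) (.L true
    true true true)) (.L true true true true))),
    (74, (.L true false true true)),
    (522, (.P 0 true false true true (.L true true true true) (.L true true true true))),
    (82, (.L true true true true)),
    (530, (.L true true true true)),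
    (100, (.P 0 true true true false (.L true true true true) (.L true true true true))),
    (292, (.P 1 true true true true (.P 0 true true true true (.L true true true true) (.L true
    true true true)) (.L true true true true))),
    (548, (.P 0 true true false true (.P 0 true true true true (.P 0 true true true true (.L true
    true true true) (.L true true true true)) (.L true true true true)) (.L true true true true))),
    (1060, (.P 0 true true true true (.P 0 true true true true (.L true true true true) (.L true
    true true true)) (.L true true true true))),
    (1092, (.L true false true true)),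
    (772, (.P 0 true true true true (.P 1 true true true true (.P 0 true true true true (.L true
    true true true) (.L true true true true)) (.L true true true true)) (.L true true true true))),
    (1284, (.P 0 true true true true (.P 0 true true true true (.L true true true true) (.L true
    true true true)) (.L true true true true))),
    (88, (.L true true true true)),
    (152, (.P 0 false true true true (.L true true true true) (.L true true true true))),
    (536, (.P 0 true true true true (.P 1 true true true true (.P 0 true true true true (.L true
    true true true) (.L true true true true)) (.L true true true true)) (.L true true true true))),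
    (104, (.R 0 .v 7 (.P 0 true true true true (.L true true true false) (.L true true true
    true)))),
    (168, (.P 0 true true true true (.L true true true true) (.L true true true true))),
    (552, (.P 0 true true true true (.P 0 true true true true (.P 0 true true true true (.L true
    true true true) (.L true true true true)) (.L true true true true)) (.L true true true true))),
    (648, (.P 1 true true true true (.P 0 true true true true (.L true true true true) (.L true
    true true true)) (.L true true true true))),
    (1104, (.R 0 .x 4 (.P 0 true true true true (.L false true true true) (.L true true true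
    true)))),
    (656, (.R 0 .x (-22) (.L false true true true))),
    (1168, (.R 0 .x (-32) (.P 0 true true true true (.L false true true true) (.L true true true
    true)))),
    (784, (.L true true true true)),
    (1296, (.R 0 .x 6 (.P 0 true true true true (.L false true true true) (.L true true true
    true)))),
    (1120, (.L false true true true)),
    (672, (.R 0 .x (-32) (.L true true true true))),
    (1184, (.R 0 .x (-21) (.P 0 true true true true (.L false true true true) (.L true true true
    true)))),
    (800, (.R 0 .x 3 (.L false true true true))),
    (1312, (.R 0 .x 3 (.L true true true true))),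
    (773, (.L true true true true)),
    (785, (.L true true true true)),
    (90, (.L true true true true)),
    (538, (.L true true true true)),
    (1124, (.L true true true true)),
    (804, (.L true true true true)),
    (1316, (.L true true true true)),
    (664, (.L true true true true)),
    (680, (.L true true true true))]

def row : Bool → Nm → ℕ
  | false, .a => 852
  | false, .b => 604
  | false, .x => 1891
  | false, .x1 => 882
  | false, .y => 1867
  | false, .y1 => 1868
  | false, .u => 1087
  | false, .u1 => 0
  | false, .u2 => 1597
  | false, .v => 319
  | false, .v1 => 372
  | true, .a => 852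
  | true, .b => 604
  | true, .x => 1891
  | true, .x1 => 754
  | true, .y => 1995
  | true, .y1 => 1996
  | true, .u => 1087
  | true, .u1 => 1592
  | true, .u2 => 1589
  | true, .v => 447
  | true, .v1 => 500

def certCov : Ct :=
    (.C .x 0 (.C .v 1 (.C .y 4 (.C .u 5 (.C .x (-6) (.C .x (-10) (.C .x (-34) .E .E) (.C .x (-9)
    .E .E)) (.C .u 2 (.C .y 2 .E .E) .E)) (.C .x (-10) (.C .u 13 (.C .x (-34) .E .E) .E) (.C .u 7
    (.C .x (-9) .E .E) (.C .u 13 .E .E)))) .E) .E) .E)

def certL0 : Ct :=
    (.C .v 1 (.C .y 4 (.C .u 13 .E .E) .E) .E)

def certL1 : Ct :=
    (.C .v 1 .E .E)

def certL2 : Ct :=
    (.C .v 1 (.C .y 4 .E .E) .E)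

def certL3 : Ct :=
    .E

def certD : Ax → Ax → Ct
  | .x, .y =>
      (.C .u 7 (.C .v 7 .E .E) .E)
  | .x, .u =>
      (.C .y 1 (.C .v 1 .E .E) (.C .v 6 .E .E))
  | .x, .v =>
      (.C .u 7 (.C .u 4 .E .E) (.C .y 4 .E .E))
  | .y, .u =>
      (.C .x (-4) (.C .v 3 .E .E) (.C .x (-2) .E (.C .x 4 .E .E)))
  | .y, .v =>
      (.C .u 9 (.C .x (-7) (.C .x (-23) .E (.C .x (-21) .E .E)) (.C .x 2 (.C .u 2 .E .E) (.C .x 4
      .E .E))) (.C .x (-23) .E (.C .x 4 (.C .u 11 .E .E) .E)))
  | .u, .v =>
      (.C .x (-7) .E (.C .x 6 (.C .y 2 .E .E) .E))
  | _, _ => .E

end Pool.Agent.MP_a61dd1_gt

end
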