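import Pool.Agent.MP_a61dd1_gt.Mg.Quad

/-! The finite combinatorics: 192 chambers, 33 labels. -/

namespace Pool.Agent.MP_a61dd1_gt

inductive Nf | X | Y | q (n : Nm)
  deriving DecidableEq, Fintype

inductive Lb
  | X (j : Fin 3) (b : Bool) | P (j : Fin 3) (b c : Bool) | Y (j : Fin 3) | Y1 (j : Fin 3)
  | V1 (j : Fin 3) | Z (j : Fin 3) (b : Bool)
  deriving DecidableEq, Fintype

abbrev B3 := Fin 3 → Bool

abbrev Ch := Fin 3 × B3 × B3

abbrev Sl := Option (Fin 3 × Bool)

def flp (b : B3) (j : Fin 3) : B3 := fun k => if k = j then !b k else b k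

def slotF (i : Fin 3) : Nf → Sl
  | .X => some (i, false) | .Y => some (i, true)
  | .q .a | .q .b => none
  | .q .x | .q .x1 => some (i + 1, false)
  | .q .y | .q .y1 => some (i + 1, true)
  | .q .u | .q .u1 | .q .u2 => some (i + 2, false)
  | .q .v | .q .v1 => some (i + 2, true)

def coF (c : Ch) : Sl → Fin 3
  | none => c.1
  | some (j, false) => if c.2.1 j then 1 else 0
  | some (j, true) => if c.2.2 j then 1 else 0

def nbF (c : Ch) (n : Nf) : Ch :=
  match slotF c.1 n with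
  | none => (if n = .q .a then c.1 + 1 else c.1 + 2, c.2)
  | some (j, false) => (c.1, flp c.2.1 j, c.2.2)
  | some (j, true) => (c.1, c.2.1, flp c.2.2 j)

def nxtF : Nf → Nf → Nf
  | .q .a, .q .a => .q .b | .q .a, .X => .q .u | .q .a, .Y => .q .v | .q .a, .q .x => .X
  | .q .a, .q .y => .Y | .q .a, .q .u => .q .x | .q .a, .q .u2 => .q .x1 | .q .a, .q .v => .q .y
  | .q .b, .q .b => .q .a | .q .b, .q .u => .X | .q .b, .q .v => .Y | .q .b, .X => .q .x
  | .q .b, .Y => .q .y | .q .b, .q .x => .q .u | .q .b, .q .x1 => .q .u2 | .q .b, .q .y => .q .v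
  | .q .x1, .q .u1 => .q .u2 | .q .x1, .q .u2 => .q .u1
  | _, m => m

def presF (r : Bool) : Nf → Bool
  | .q n => presQ r n
  | _ => true

def adjF (r : Bool) : Nf → Nf → Bool
  | .q n, .q m => adjQ r n m
  | .q _, _ => true
  | _, .q _ => true
  | _, _ => false

def labF (i : Fin 3) (ξ β : B3) : Nf → Lb
  | .X => .X i (β i) | .Y => .Y i
  | .q .a => .Z i (β (i + 1)) | .q .b => .Z (i + 2) (β i)
  | .q .x => .X (i + 1) (β (i + 1)) | .q .x1 => .P (i + 1) (β i) (xor (β (i + 1)) (ξ (i + 1)))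
  | .q .y => .Y (i + 1) | .q .y1 => .Y1 (i + 1)
  | .q .u => .X (i + 2) (β (i + 2))
  | .q .u1 => .P (i + 2) (!β (i + 1)) (xor (β (i + 2)) (ξ (i + 2)))
  | .q .u2 => .P (i + 2) (β (i + 1)) (xor (β (i + 2)) (ξ (i + 2)))
  | .q .v => .Y (i + 2) | .q .v1 => .V1 (i + 2)

def togF : Lb → B3 → B3
  | .P j _ _, β => flp β j
  | _, β => β

def comm0 : Lb → Lb → Bool
  | .X j _, .X k _ => j != k
  | .X j b, .P k c _ => (k == j + 1 && c == b) || k == j + 2
  | .X j _, .Y k => j != k
  | .X _ _, .Y1 _ => true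
  | .X _ _, .V1 _ => true
  | .X j b, .Z k c => k != j + 2 || b == c
  | .P j _ b, .P k c _ => k == j + 1 && c == b
  | .P _ _ _, .Y _ => true
  | .P j _ _, .Y1 k => k == j || k == j + 2
  | .P j _ _, .V1 k => k == j
  | .P j b _, .Z k c => k == j + 1 && b == c
  | .Y j, .Y k => j != k
  | .Y j, .Y1 k => j != k
  | .Y j, .V1 k => j != k
  | .Y _, .Z _ _ => true
  | .Y1 j, .V1 k => k == j + 1
  | _, _ => false

def commF (s t : Lb) : Bool := comm0 s t || comm0 t s

lemma forall_B3 {P : B3 → Prop} (h : ∀ a b c, P ![a, b, c]) (f : B3) : P f := by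
  have : f = ![f 0, f 1, f 2] := by ext i; fin_cases i <;> rfl
  exact this ▸ h _ _ _

def allN : List Nf := .X :: .Y :: names.map .q

lemma mem_allN : ∀ n, n ∈ allN := by decide

def chkLab (i : Fin 3) (ξ β : B3) : Bool :=
  allN.all fun n => allN.all fun m => !(presF (ξ (i + 1)) n && presF (ξ (i + 1)) m) ||
    (adjF (ξ (i + 1)) n m == commF (labF i ξ β n) (labF i ξ β m) &&
    (labF i ξ β n != labF i ξ β m || n == m) &&
    (!(adjF (ξ (i + 1)) n m || n == m) ||
      (presF ((nbF (i, ξ, ξ) n).2.1 ((nbF (i, ξ, ξ) n).1 + 1)) (nxtF n m) &&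
      slotF (nbF (i, ξ, ξ) n).1 (nxtF n m) == slotF i m &&
      labF (nbF (i, ξ, ξ) n).1 (nbF (i, ξ, ξ) n).2.1 (togF (labF i ξ β n) β) (nxtF n m)
        == labF i ξ β m)))

theorem chkLab_ok : ∀ i a b c d e f, chkLab i ![a, b, c] ![d, e, f] = true := by decide +kernel

lemma nbF_eta (i : Fin 3) (ξ η η' : B3) (n) : (nbF (i, ξ, η) n).1 = (nbF (i, ξ, η') n).1 ∧
    (nbF (i, ξ, η) n).2.1 = (nbF (i, ξ, η') n).2.1 := by
  simp only [nbF]
  rcases slotF i n with _ | ⟨j, _ | _⟩ <;> simp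

theorem lab_spec (c : Ch) (β : B3) (n m : Nf) (hn : presF (c.2.1 (c.1 + 1)) n = true)
    (hm : presF (c.2.1 (c.1 + 1)) m = true) :
    (adjF (c.2.1 (c.1 + 1)) n m = true ↔ commF (labF c.1 c.2.1 β n) (labF c.1 c.2.1 β m) = true) ∧
    (labF c.1 c.2.1 β n = labF c.1 c.2.1 β m → n = m) ∧
    ((adjF (c.2.1 (c.1 + 1)) n m = true ∨ n = m) →
      presF ((nbF c n).2.1 ((nbF c n).1 + 1)) (nxtF n m) = true ∧
      slotF (nbF c n).1 (nxtF n m) = slotF c.1 m ∧
      labF (nbF c n).1 (nbF c n).2.1 (togF (labF c.1 c.2.1 β n) β) (nxtF n m)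
        = labF c.1 c.2.1 β m) := by
  obtain ⟨i, ξ, η⟩ := c
  have h : chkLab i ξ β = true :=
    forall_B3 (P := fun ξ => chkLab i ξ β = true) (fun a b c =>
      forall_B3 (P := fun β => chkLab i ![a, b, c] β = true) (chkLab_ok i a b c) β) ξ
  have h := List.all_eq_true.1 (List.all_eq_true.1 h n (mem_allN n)) m (mem_allN m)
  simp only at hn hm
  simp only [hn, hm, Bool.and_self, Bool.not_true, Bool.false_or, Bool.and_eq_true, beq_iff_eq,
    Bool.or_eq_true, bne_iff_ne, Bool.not_eq_true', Bool.or_eq_false_iff] at h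
  simp only [(nbF_eta i ξ η ξ n).1, (nbF_eta i ξ η ξ n).2]
  refine ⟨by rw [h.1.1], fun e => h.1.2.resolve_left (not_not.2 e), fun e => ?_⟩
  rcases h.2 with h | h
  · rcases e with e | e <;> simp_all
  · exact ⟨h.1.1, h.1.2, h.2⟩

theorem adj_slotF : ∀ (i : Fin 3) r n m, adjF r n m = true → slotF i n ≠ slotF i m := by
  decide +kernel

lemma flp_flp (b : B3) (j) : flp (flp b j) j = b := by
  funext k; by_cases h : k = j <;> simp [flp, h]

lemma flp_comm (b : B3) (j k) : flp (flp b j) k = flp (flp b k) j := by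
  funext l; simp only [flp]; split_ifs <;> rfl

theorem co_injF (c c' : Ch) (h : ∀ k, coF c k = coF c' k) : c = c' := by
  have key : ∀ a b : Bool, (if a then (1 : Fin 3) else 0) = (if b then 1 else 0) → a = b := by decide
  exact Prod.ext (h none) (Prod.ext (funext fun j => key _ _ (h (some (j, false))))
    (funext fun j => key _ _ (h (some (j, true)))))

theorem co_nbF (c : Ch) (n k) : coF (nbF c n) k = coF c k ↔ k ≠ slotF c.1 n := by
  have k1 : ∀ i : Fin 3, i + 1 ≠ i ∧ i + 2 ≠ i := by decide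
  unfold nbF
  split <;> rename_i h <;> rw [h] <;> rcases k with _ | ⟨l, _ | _⟩ <;> simp [coF, flp]
  · split_ifs <;> simp [k1]
  all_goals split_ifs <;> simp_all

theorem nb_nbF (c : Ch) (n) : nbF (nbF c n) (nxtF n n) = c := by
  obtain ⟨i, ξ, η⟩ := c
  have k1 : ∀ i : Fin 3, i + 1 + 2 = i ∧ i + 2 + 1 = i := by decide
  rcases n with _ | _ | n
  · simp [nbF, slotF, nxtF, flp_flp]
  · simp [nbF, slotF, nxtF, flp_flp]
  · cases n <;> simp [nbF, slotF, nxtF, flp_flp, k1]

theorem nb_commF (c : Ch) (n m) (hn : presF (c.2.1 (c.1 + 1)) n = true)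
    (hm : presF (c.2.1 (c.1 + 1)) m = true) (h : adjF (c.2.1 (c.1 + 1)) n m = true) :
    nbF (nbF c n) (nxtF n m) = nbF (nbF c m) (nxtF m n) := by
  have h' : adjF (c.2.1 (c.1 + 1)) m n = true := by
    rw [(lab_spec c c.2.1 m n hm hn).1, commF, Bool.or_comm]
    exact (lab_spec c c.2.1 n m hn hm).1.1 h
  have s1 := ((lab_spec c c.2.1 n m hn hm).2.2 (Or.inl h)).2.1
  have s2 := ((lab_spec c c.2.1 m n hm hn).2.2 (Or.inl h')).2.1
  have s3 := adj_slotF c.1 _ _ _ h
  have key : ∀ r n m, adjF r n m = true → (nxtF n m = .q .a ↔ m = .q .a) := by decide +kernel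
  have k1 := key _ _ _ h
  have k2 := key _ _ _ h'
  rw [nbF, s1, nbF.eq_1 (nbF c m), s2]
  simp only [k1, k2, nbF]
  rcases e1 : slotF c.1 n with _ | ⟨j, _ | _⟩ <;> rcases e2 : slotF c.1 m with _ | ⟨l, _ | _⟩ <;>
    simp_all [flp_comm]

theorem tog_togF (s b) : togF s (togF s b) = b := by cases s <;> simp [togF, flp_flp]

theorem tog_commF (s t b) : togF s (togF t b) = togF t (togF s b) := by
  cases s <;> cases t <;> simp [togF, flp_comm]

theorem comm_irreflF : ∀ s, commF s s = false := by decide +kernel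

theorem twoF : ∀ s, ∃ t t', t ≠ t' ∧ t ≠ s ∧ t' ≠ s ∧ commF s t = false ∧ commF s t' = false := by
  decide +kernel

theorem reachF (c c' : Ch) : Relation.ReflTransGen
    (fun c c' : Ch => ∃ n, presF (c.2.1 (c.1 + 1)) n = true ∧ nbF c n = c') c c' := by
  induction hk : {k | coF c k ≠ coF c' k}.ncard using Nat.strong_induction_on generalizing c with
  | _ k ih =>
    by_cases e : c = c'
    · rw [e]
    obtain ⟨k, hk'⟩ : ∃ k, coF c k ≠ coF c' k := by
      by_contra h; push Not at h; exact e (co_injF _ _ h)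
    obtain ⟨n, h1, h2, h3⟩ : ∃ n, presF (c.2.1 (c.1 + 1)) n = true ∧ slotF c.1 n = k ∧
        coF (nbF c n) k = coF c' k := by
      have k1 : ∀ i j : Fin 3, j = i ∨ j = i + 1 ∨ j = i + 2 := by decide
      have k2 : ∀ a b : Bool, (if a then (1 : Fin 3) else 0) ≠ (if b then 1 else 0) →
        (if !a then (1 : Fin 3) else 0) = (if b then 1 else 0) := by decide
      rcases k with _ | ⟨j, _ | _⟩
      · rcases k1 c.1 c'.1 with h | h | h
        · exact absurd h.symm hk'
        · exact ⟨.q .a, by simp [presF, presQ], rfl, h.symm⟩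
        · exact ⟨.q .b, by simp [presF, presQ], rfl, h.symm⟩
      · have := k2 _ _ hk'
        rcases k1 c.1 j with rfl | rfl | rfl
        · exact ⟨.X, rfl, rfl, by simpa [coF, nbF, slotF, flp] using this⟩
        · exact ⟨.q .x, by simp [presF, presQ], rfl, by simpa [coF, nbF, slotF, flp] using this⟩
        · exact ⟨.q .u, by simp [presF, presQ], rfl, by simpa [coF, nbF, slotF, flp] using this⟩
      · have := k2 _ _ hk'
        rcases k1 c.1 j with rfl | rfl | rfl
        · exact ⟨.Y, rfl, rfl, by simpa [coF, nbF, slotF, flp] using this⟩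
        · exact ⟨.q .y, by simp [presF, presQ], rfl, by simpa [coF, nbF, slotF, flp] using this⟩
        · exact ⟨.q .v, by simp [presF, presQ], rfl, by simpa [coF, nbF, slotF, flp] using this⟩
    refine Relation.ReflTransGen.head ⟨n, h1, rfl⟩ (ih _ (hk ▸ Set.ncard_lt_ncard
      (s := {k | coF (nbF c n) k ≠ coF c' k}) ⟨fun l hl => ?_, fun h => h hk' h3⟩
      (Set.toFinite _)) _ rfl)
    by_cases h : l = slotF c.1 n
    · rw [h, h2]; exact hk'
    · have hl : coF (nbF c n) l ≠ coF c' l := hl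
      rwa [(co_nbF c n l).2 h] at hl

end Pool.Agent.MP_a61dd1_gt
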