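import Pool.Agent.MP_a61dd1_gt.Mg.Quad

-- part MP_a61dd1_gt.Quad2
section

/-! Meaning of the box computations. -/

namespace Pool.Agent.MP_a61dd1_gt

open Set

/-- The model chamber (`true` = right, `false` = left). -/
def Sd (r : Bool) : Set (Ax → ℝ) := lset (sideL r)

/-- The condition defining a facet. -/
def Fc (r : Bool) (n : Nm) : Set (Ax → ℝ) := lset (facet r n)

lemma lset_face (r : Bool) (ns : List Nm) :
    lset (face r ns) = Sd r ∩ {p | ∀ n ∈ ns, p ∈ Fc r n} := by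
  induction ns using List.reverseRecOn with
  | nil => simp [face, Sd]
  | append_singleton ns n ih =>
    rw [face, List.foldl_append, List.foldl_cons, List.foldl_nil, lset_meet, ← face, ih]
    ext p
    simp only [mem_inter_iff, mem_ofPred_eq, List.mem_append, List.mem_singleton, or_imp, forall_and,
      forall_eq, and_assoc, Fc]

lemma allCl_sound {r} (σ : Nm → Bool) (h1 : ∀ n, σ n = true → presQ r n = true)
    (h2 : ∀ n m, σ n = true → σ m = true → n ≠ m → adjQ r n m = true) (rest ch : List Nm)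
    (hn : (ch ++ rest).Nodup) (hc : ∀ n ∈ ch, σ n = true) (h : allCl r ch rest = true) :
    AE (lset (face r (ch ++ rest.filter σ))) := by
  induction rest generalizing ch with
  | nil => simpa using chk_sound _ _ _ h
  | cons n rest ih =>
    simp only [allCl, Bool.and_eq_true, Bool.or_eq_true, Bool.not_eq_true'] at h
    cases e : σ n
    · rw [List.filter_cons_of_neg (by simp [e])]
      exact ih ch (hn.sublist (by simp)) hc h.1
    · rw [List.filter_cons_of_pos e, List.append_cons]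
      refine ih _ (by simpa using hn) (by simpa [or_imp, forall_and, e] using hc)
        (h.2.resolve_left ?_)
      simp only [Bool.not_eq_false, Bool.and_eq_true, List.all_eq_true]
      refine ⟨h1 n e, fun m hm => h2 n m e (hc m hm) ?_⟩
      rintro rfl
      exact (List.nodup_append.1 hn).2.2 n hm n List.mem_cons_self rfl

lemma mem_names : ∀ n, n ∈ names := by decide

theorem ae_face (r : Bool) (σ : Nm → Prop) (h1 : ∀ n, σ n → presQ r n = true)
    (h2 : ∀ n m, σ n → σ m → n ≠ m → adjQ r n m = true) :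
    AE (Sd r ∩ {p | ∀ n, σ n → p ∈ Fc r n}) := by
  classical
  have := allCl_sound (r := r) (fun n => decide (σ n)) (by simpa using h1) (by simpa using h2)
    names [] (by decide) (by simp) (by cases r; exacts [allCl_L, allCl_R])
  rw [lset_face] at this
  simpa [mem_names] using this

lemma Fc_pres {r n p} (h : p ∈ Fc r n) : presQ r n = true := by
  cases r
  · cases n <;> first | rfl | simp [Fc, facet, lset] at h
  · rfl

theorem Fc_adj {r n m p} (hp : p ∈ Sd r) (hn : p ∈ Fc r n) (hm : p ∈ Fc r m) (h : n ≠ m) :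
    adjQ r n m = true := by
  have key : ∀ {n m}, p ∈ Fc r n → p ∈ Fc r m → n.idx < m.idx → adjQ r n m = true := by
    intro n m hn hm h
    refine (emp_ok r n m h (Fc_pres hn) (Fc_pres hm)).resolve_right fun h => ?_
    have := chk_sound _ _ _ h
    rw [lset_face] at this
    simp only [Bool.false_eq_true, if_false] at this
    exact (this ▸ ⟨hp, by simp [hn, hm]⟩ : p ∈ (∅ : Set (Ax → ℝ)))
  have inj : ∀ n m : Nm, n.idx = m.idx → n = m := by decide
  rcases lt_trichotomy n.idx m.idx with h' | h' | h'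
  · exact key hn hm h'
  · exact absurd (inj _ _ h') h
  · rw [adjQ_symm]; exact key hm hn h'

lemma closed_Sd (r) : ∃ A, IsClosed A ∧ Sd r = A ∩ {p | ¬ Lam p} := closed_sound (closed_ok r).1

lemma closed_Fc (r n) : ∃ A, IsClosed A ∧ Sd r ∩ Fc r n = A ∩ {p | ¬ Lam p} := by
  have := closed_sound ((closed_ok r).2 n)
  simpa [lset_face] using this

lemma bx_mem {a b c d : ℤ × ℤ} {p} : (Bx.mk a b c d).mem p ↔ ((a.1 : ℝ) ≤ p .x ∧ p .x ≤ a.2) ∧
    ((b.1 : ℝ) ≤ p .y ∧ p .y ≤ b.2) ∧ ((c.1 : ℝ) ≤ p .u ∧ p .u ≤ c.2) ∧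
    ((d.1 : ℝ) ≤ p .v ∧ p .v ≤ d.2) :=
  ⟨fun h => ⟨h .x, h .y, h .u, h .v⟩, fun h i => by
    cases i; exacts [h.1, h.2.1, h.2.2.1, h.2.2.2]⟩

lemma Sd_of {r p} (hl : ¬ Lam p) (h : ∃ c ∈ sideL r, c.1.mem p) : p ∈ Sd r := by
  obtain ⟨c, hc, h⟩ := h
  have : ∀ r, ∀ c ∈ sideL r, c.2 = [] := by decide
  exact ⟨c, hc, h, by simp [this r c hc], hl⟩

lemma Sd_big {r p} (h : p ∈ Sd r) : big.mem p ∧ ¬ Lam p := by
  obtain ⟨c, hc, h1, -, h2⟩ := h
  have : ∀ r, ∀ c ∈ sideL r, bsub c.1 big = true := by decide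
  exact ⟨bsub_sound (this r c hc) h1, h2⟩

lemma Sd_cov {p} (h : big.mem p) (hl : ¬ Lam p) : ∃ r, p ∈ Sd r := by
  refine kd_sound (Q := fun p => ¬ Lam p → ∃ r, p ∈ Sd r) (fun B p hB hp hl => ?_) _ _ cov_ok h hl
  obtain ⟨c, hc, hs⟩ := List.any_eq_true.1 hB
  rcases List.mem_append.1 hc with hc | hc
  · exact ⟨_, Sd_of hl ⟨c, hc, bsub_sound hs hp⟩⟩
  · exact ⟨_, Sd_of hl ⟨c, hc, bsub_sound hs hp⟩⟩

lemma wall_ne {p} (h : p ∈ Sd false) (h' : p ∈ Sd true) : (PH .x).ev p ≠ 0 := by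
  intro e
  obtain ⟨c, hc, h1, -, h3⟩ : p ∈ lset (meet (sideL false) (sideL true)) := by
    rw [lset_meet]; exact ⟨h, h'⟩
  have := List.all_eq_true.1 wall_ok c hc
  simp only [Bool.or_eq_true, decide_eq_true_eq] at this
  have iv := Ex.iv_sound h1 (PH .x)
  rw [e] at iv
  have i1 : ((PH .x).iv c.1).1 ≤ 0 := by exact_mod_cast iv.1
  have i2 : 0 ≤ ((PH .x).iv c.1).2 := by exact_mod_cast iv.2
  rcases this with (h | h) | h
  · exact h3 (Or.inl ⟨.x, by simpa using deg_sound h h1, e⟩)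
  · omega
  · omega

lemma mem_Fc {r p} (h : p ∈ Sd r) : (p ∈ Fc r .a ↔ FA p) ∧ (p ∈ Fc r .b ↔ FB p) ∧
    (p ∈ Fc r .x ↔ p ∈ Sd (!r) ∧ 0 < (PH .x).ev p) ∧
    (p ∈ Fc r .x1 ↔ p ∈ Sd (!r) ∧ (PH .x).ev p < 0) ∧
    (p ∈ Fc r .y ↔ p .y = 0 ∧ 0 < (PH .y).ev p) ∧ (p ∈ Fc r .y1 ↔ p .y = 0 ∧ (PH .y).ev p < 0) ∧
    (p ∈ Fc r .u ↔ p .u = 0 ∧ 0 < (PH .u).ev p) ∧
    (p ∈ Fc r .u1 ↔ r = true ∧ p .x ≤ -10 ∧ p .u = 0 ∧ (PH .u).ev p < 0) ∧
    (p ∈ Fc r .u2 ↔ (r = true → -9 ≤ p .x) ∧ p .u = 0 ∧ (PH .u).ev p < 0) ∧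
    (p ∈ Fc r .v ↔ p .v = 0 ∧ 0 < (PH .v).ev p) ∧ (p ∈ Fc r .v1 ↔ p .v = 0 ∧ (PH .v).ev p < 0) := by
  obtain ⟨hb, hl⟩ := Sd_big h
  simp only [big, bx_mem, Int.cast_neg, Int.cast_ofNat, Int.cast_zero] at hb
  obtain ⟨⟨a1, a2⟩, ⟨a3, a4⟩, ⟨a5, a6⟩, a7, a8⟩ := hb
  have hx : ∀ s : Bool, p ∈ lset ((sideL (!r)).map fun c => (c.1, [(.x, s)])) ↔
      p ∈ Sd (!r) ∧ 0 < (cexp (.x, s)).ev p := fun s => by
    constructor
    · rintro ⟨_, hc, h1, h2, h3⟩
      obtain ⟨c, hc', rfl⟩ := List.mem_map.1 hc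
      exact ⟨Sd_of hl ⟨c, hc', h1⟩, h2 _ (by simp)⟩
    · rintro ⟨⟨c, hc, h1, -⟩, h2⟩
      exact ⟨(c.1, [(.x, s)]), List.mem_map.2 ⟨c, hc, rfl⟩, h1, by simpa using h2, hl⟩
  refine ⟨?_, ?_, by simpa [cexp, Fc, facet] using hx true,
    by simpa [cexp, Ex.ev, Fc, facet] using hx false, ?_, ?_, ?_, ?_, ?_, ?_, ?_⟩ <;> cases r <;>
  simp [Fc, facet, lset, cset, bx_mem, cexp, Ex.ev, FA, FB, *] <;> grind

lemma Sd_x {p} (h : FA p ∨ FB p) (hb : big.mem p) (hl : ¬ Lam p) :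
    (p ∈ Sd true ↔ 0 ≤ p .x) ∧ (p ∈ Sd false ↔ p .x ≤ 0) := by
  simp only [big, bx_mem, Int.cast_neg, Int.cast_ofNat, Int.cast_zero] at hb
  obtain ⟨⟨a1, a2⟩, ⟨a3, a4⟩, ⟨a5, a6⟩, a7, a8⟩ := hb
  simp only [FA, FB] at h
  simp only [Sd, sideL, lset, cset, bx_mem, List.mem_cons, List.not_mem_nil, or_false,
    exists_eq_or_imp, exists_eq_left, mem_ofPred_eq, hl, not_false_eq_true, and_true,
    IsEmpty.forall_iff, implies_true]
  push_cast
  refine ⟨⟨fun h' => ?_, fun h' => by tauto⟩, fun h' => by grind, fun h' => ?_⟩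
  · grind
  · rcases le_total (p .v) 1 with b1 | b1
    · rcases le_total (p .y) 4 with b2 | b2
      · rcases le_total (p .u) 13 with b3 | b3 <;> grind
      · tauto
    · tauto

lemma Sd_u {p} (h : p ∈ Sd true) (hu : p .u = 0) : p .x ≤ -10 ∨ -9 ≤ p .x := by
  simp only [Sd, sideL, lset, cset, bx_mem, List.mem_cons, List.not_mem_nil, or_false,
    exists_eq_or_imp, exists_eq_left, mem_ofPred_eq] at h
  push_cast at h
  grind

theorem PH_disj {k l : Ax} (h : k ≠ l) {p : Ax → ℝ} (hx : |p .x| ≤ 64)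
    (hp : ∀ i ≠ .x, 0 ≤ p i ∧ p i ≤ 64) (hk : p k = 0) (hl : p l = 0) (ek : (PH k).ev p = 0) :
    (PH l).ev p ≠ 0 := by
  obtain ⟨t, -, ht⟩ := dj_ok k l h
  intro el
  refine kd_sound (Q := fun q => (PH k).ev q = 0 → (PH l).ev q = 0 → False)
    (fun B q hB hq ek el => ?_) _ _ ht (fun i => ?_) ek el
  · have i1 := Ex.iv_sound hq (PH k)
    have i2 := Ex.iv_sound hq (PH l)
    rw [ek] at i1
    rw [el] at i2
    norm_cast at i1 i2
    simp only [Bool.or_eq_true, decide_eq_true_eq] at hB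
    omega
  · rw [Bx.g_of]
    split_ifs with h1 h2
    · rcases h1 with rfl | rfl <;> simp [*]
    · subst h2; simpa using abs_le.1 hx
    · simpa using hp i h2

end Pool.Agent.MP_a61dd1_gt

end

-- part MP_a61dd1_gt.Fold
section

/-! Folding a piece of the sphere onto the model quadrant. -/

namespace Pool.Agent.MP_a61dd1_gt

open Set Real

def fold (i : Fin 3) (w : W) : Ax → ℝ
  | .x => (w (i + 1)).1 | .y => |(w (i + 1)).2| | .u => |(w (i + 2)).1| | .v => |(w (i + 2)).2|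

lemma continuous_fold (i : Fin 3) : Continuous (fold i) :=
  continuous_pi fun k => by cases k <;> simp only [fold] <;> fun_prop

lemma fin3 (i : Fin 3) : i + 1 + 1 = i + 2 ∧ i + 1 + 2 = i ∧ i + 2 + 1 = i ∧ i + 2 + 2 = i + 1 := by
  revert i; decide

lemma fin3_cases (i j : Fin 3) : j = i ∨ j = i + 1 ∨ j = i + 2 := by revert i j; decide

lemma rect_abs (a b c s t : ℝ) : rect a b c s |t| = rect a b c s t := by
  rcases abs_cases t with h | h <;> rw [h.1]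
  unfold rect; rw [neg_neg]; ring

lemma rect_abs' (c s t : ℝ) : rect (-5) 5 c |s| t = rect (-5) 5 c s t := by
  rcases abs_cases s with h | h <;> rw [h.1]
  unfold rect
  rw [show -5 - -s = s - 5 by ring, show -s - 5 = -5 - s by ring]; ring

lemma shr_abs (u : ℝ) : shr |u| = shr u := by
  rcases abs_cases u with h | h <;> rw [h.1]
  unfold shr; rw [neg_neg]; ring

lemma ev_rect (a b c : ℤ) (s t : Ex) (p) :
    (eRect a b c s t).ev p = rect a b c (s.ev p) (t.ev p) := by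
  simp [eRect, Ex.ev, rect, sub_eq_add_neg]

lemma ev_bump (P : Ex) (p) : (eBump P).ev p = bump (P.ev p) := by
  simp [eBump, Ex.ev, bump, sub_eq_add_neg]

variable {i : Fin 3} {w : W}

lemma ev_x : (PH .x).ev (fold i w) =
    (w (i + 1)).2 ^ 2 + 25 * bA (w (i + 2)) - 25 - 100 * rp (-9 - (w (i + 1)).1) := by
  simp only [PH, Ex.ev, ev_rect, ev_bump, fold, bA, ← sq, sq_abs]
  push_cast
  rw [rect_abs, rect_abs', ← sub_eq_add_neg, ← sub_eq_add_neg, ← sub_eq_add_neg]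

lemma ev_u : (PH .u).ev (fold i w) = (w (i + 2)).2 ^ 2 + 25 * bB (w (i + 1)) - 25 := by
  simp only [PH, Ex.ev, ev_rect, ev_bump, fold, bB, ← sq, sq_abs]
  push_cast
  rw [rect_abs, ← sub_eq_add_neg]

lemma ev_y : (PH .y).ev (fold i w) = f1 (w (i + 1)).1 (w (i + 2)).1 (w (i + 2)).2 := by
  simp only [PH, Ex.ev, ev_rect, ev_bump, fold, eVk, f1, kap, ← sq, mul_pow, sq_abs]
  push_cast
  rw [rect_abs, rect_abs, ← sub_eq_add_neg, ← sub_eq_add_neg]

lemma ev_v : (PH .v).ev (fold i w) = f2 (w (i + 1)).1 (w (i + 1)).2 (w (i + 2)).1 := by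
  have : eXs.ev (fold i w) = (w (i + 1)).1 - shr (w (i + 2)).1 := by
    rw [← shr_abs]
    simp [eXs, Ex.ev, fold, shr, sub_eq_add_neg]
  simp only [PH, Ex.ev, ev_rect, ev_bump, this, fold, f2, ← sq, sq_abs]
  push_cast
  rw [rect_abs, rect_abs, ← sub_eq_add_neg]

/-- The nine components other than `T0`. -/
def comp (t : Fin 3 × Fin 3) : Set W := ![TU t.2, T1 t.2, T2 t.2] t.1

def emb (i : Fin 3) : Ax → Fin 3 × Fin 3
  | .x => (0, i + 1) | .y => (1, i) | .u => (0, i + 2) | .v => (2, i)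

lemma emb_iff (h : 1225 ≤ sq2 (w i)) (k : Ax) :
    w ∈ comp (emb i k) ↔ fold i w k = 0 ∧ (PH k).ev (fold i w) = 0 := by
  have hA := bA_of_big (z := w i) (by linarith)
  have hB := bB_of_big (z := w i) (by linarith)
  cases k
  · rw [ev_x]
    refine and_congr_right fun (e : (w (i + 1)).1 = 0) => ?_
    show fU (i + 1) w = 0 ↔ _
    rw [fU, (fin3 i).1, (fin3 i).2.1, hB, rp_of_nonpos (by linarith)]; simp
  · rw [ev_y]; exact and_congr_left fun _ => abs_eq_zero.symm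
  · rw [ev_u]
    refine and_congr abs_eq_zero.symm ?_
    show fU (i + 2) w = 0 ↔ _
    rw [fU, (fin3 i).2.2.1, (fin3 i).2.2.2, hA]; simp
  · rw [ev_v]; exact and_congr_left fun _ => abs_eq_zero.symm

lemma comp_emb (h : 1225 ≤ sq2 (w i)) {t} (ht : w ∈ comp t) : ∃ k, t = emb i k := by
  obtain ⟨s, j⟩ := t
  fin_cases s <;> rcases fin3_cases i j with rfl | rfl | rfl
  · linarith [TU_small ht]
  · exact ⟨.x, rfl⟩
  · exact ⟨.u, rfl⟩
  · exact ⟨.y, rfl⟩
  · have := (T1_small ht).2; rw [(fin3 i).2.1] at this; linarith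
  · have := (T1_small ht).1; rw [(fin3 i).2.2.1] at this; linarith
  · exact ⟨.v, rfl⟩
  · have := (T2_small ht).2; rw [(fin3 i).2.1] at this; linarith
  · have := (T2_small ht).1; rw [(fin3 i).2.2.1] at this; linarith

lemma comp_small {t} (ht : w ∈ comp t) : ∃ j, sq2 (w j) ≤ 200 := by
  obtain ⟨s, j⟩ := t
  fin_cases s
  · exact ⟨j, (TU_small ht).trans (by norm_num)⟩
  · exact ⟨_, (T1_small ht).2⟩
  · exact ⟨_, (T2_small ht).2⟩

lemma Near.comp {w w' : W} (h : Near w w') {t} (ht : w ∈ comp t) : w' ∈ comp t := by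
  have e : ∀ j, sq2 (w j) ≤ 1100 → w j = w' j := fun j hj =>
    (h j).resolve_right fun h => by linarith [h.1]
  have eA : ∀ j, bA (w j) = bA (w' j) := fun j => by
    rcases h j with h | h
    · rw [h]
    · rw [bA_of_big (by linarith [h.1]), bA_of_big (by linarith [h.2])]
  have eB : ∀ j, bB (w j) = bB (w' j) := fun j => by
    rcases h j with h | h
    · rw [h]
    · rw [bB_of_big (by linarith [h.1]), bB_of_big (by linarith [h.2])]
  obtain ⟨s, j⟩ := t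
  fin_cases s
  · have := e j ((TU_small ht).trans (by norm_num))
    show (w' j).1 = 0 ∧ fU j w' = 0
    rw [fU, ← this, ← eA, ← eB]; exact ht
  · show _ ∧ _
    rw [← e _ (T1_small ht).1, ← e _ ((T1_small ht).2.trans (by norm_num))]; exact ht
  · show _ ∧ _
    rw [← e _ (T2_small ht).1, ← e _ ((T2_small ht).2.trans (by norm_num))]; exact ht

lemma Near.symm {w w' : W} (h : Near w w') : Near w' w :=
  fun j => (h j).imp Eq.symm And.symm

lemma comp_disjoint (hw : w ∈ Sph) {t t'} (ht : w ∈ comp t) (ht' : w ∈ comp t') : t = t' := by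
  have hs : sq2 (w 0) + sq2 (w 1) + sq2 (w 2) = 4096 := hw
  obtain ⟨i, hi⟩ : ∃ i, 1225 ≤ sq2 (w i) := by
    by_contra h; push Not at h; linarith [h 0, h 1, h 2]
  obtain ⟨k, rfl⟩ := comp_emb hi ht
  obtain ⟨l, rfl⟩ := comp_emb hi ht'
  by_contra h
  have h1 := (emb_iff hi k).1 ht
  have h2 := (emb_iff hi l).1 ht'
  have := Sph_sum hw i
  unfold sq2 at this
  have b : ∀ t : ℝ, t ^ 2 ≤ 4096 → |t| ≤ 64 := fun t ht => abs_le_of_sq_le_sq (by linarith) (by norm_num)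
  have s1 := sq_nonneg (w i).1; have s2 := sq_nonneg (w i).2
  have s3 := sq_nonneg (w (i + 1)).1; have s4 := sq_nonneg (w (i + 1)).2
  have s5 := sq_nonneg (w (i + 2)).1; have s6 := sq_nonneg (w (i + 2)).2
  refine PH_disj (k := k) (l := l) (fun e => h (e ▸ rfl)) (b _ (by simp only [fold]; linarith))
    (fun m hm => ?_) h1.1 h2.1 h1.2 h2.2
  cases m
  · exact absurd rfl hm
  all_goals exact ⟨abs_nonneg _, b _ (by linarith)⟩

lemma T0_disjoint (hw : w ∈ Sph) (h0 : w ∈ T0) {t} : w ∉ comp t := fun ht => by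
  have hs : sq2 (w 0) + sq2 (w 1) + sq2 (w 2) = 4096 := hw
  obtain ⟨j, hj⟩ := comp_small ht
  have h1 := h0.1
  have h2 := h0.2
  fin_cases j <;> simp at hj <;> linarith

lemma norm_eq (z : ℝ × ℝ) : ‖z‖ = max |z.1| |z.2| := rfl

lemma sq2_of_norm {z : ℝ × ℝ} (h : ‖z‖ = 36) : 1225 ≤ sq2 z := by
  rw [norm_eq] at h
  unfold sq2
  rw [← sq_abs z.1, ← sq_abs z.2]
  rcases max_choice |z.1| |z.2| with e | e <;> rw [e] at h <;> rw [h] <;>
    nlinarith [sq_nonneg |z.1|, sq_nonneg |z.2|]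

/-- The link in the cube boundary. -/
def LkC : Set W := {w | (∃ t, w ∈ comp t) ∨ ∀ j, ‖w j‖ = 36}

lemma big_iff : big.mem (fold i w) ↔ ‖w (i + 1)‖ ≤ 36 ∧ ‖w (i + 2)‖ ≤ 36 := by
  simp only [big, bx_mem, fold, norm_eq, max_le_iff, abs_nonneg, true_and, Int.cast_neg,
    Int.cast_ofNat, Int.cast_zero, ← abs_le, and_assoc]

lemma FA_iff (h : big.mem (fold i w)) : FA (fold i w) ↔ ‖w (i + 1)‖ = 36 := by
  have := (big_iff.1 h).1
  simp only [FA, fold, norm_eq, max_le_iff] at this ⊢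
  rw [max_eq_iff, ← or_assoc, ← abs_eq (by norm_num)]
  grind

lemma FB_iff (h : big.mem (fold i w)) : FB (fold i w) ↔ ‖w (i + 2)‖ = 36 := by
  have := (big_iff.1 h).2
  simp only [FB, fold, norm_eq, max_le_iff] at this ⊢
  rw [max_eq_iff]
  grind

lemma link_iff (hi : ‖w i‖ = 36) (h : big.mem (fold i w)) : w ∈ LkC ↔ Lam (fold i w) := by
  refine or_congr ⟨fun ⟨t, ht⟩ => ?_, fun ⟨k, hk⟩ => ⟨_, (emb_iff (sq2_of_norm hi) k).2 hk⟩⟩ ?_
  · obtain ⟨k, rfl⟩ := comp_emb (sq2_of_norm hi) ht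
    exact ⟨k, (emb_iff (sq2_of_norm hi) k).1 ht⟩
  · rw [FA_iff h, FB_iff h]
    refine ⟨fun h => ⟨h _, h _⟩, fun h j => ?_⟩
    rcases fin3_cases i j with rfl | rfl | rfl
    exacts [hi, h.1, h.2]

lemma cub_iff : w ∈ Cub ↔ ∃ i, ‖w i‖ = 36 ∧ big.mem (fold i w) := by
  constructor
  · intro h
    have h : ‖w‖ = 36 := h
    have h1 : ∀ j, ‖w j‖ ≤ 36 := fun j => h ▸ norm_le_pi_norm w j
    obtain ⟨i, hi⟩ : ∃ i, 36 ≤ ‖w i‖ := by
      by_contra h'; push Not at h'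
      exact absurd h ((pi_norm_lt_iff (by norm_num)).2 h').ne
    exact ⟨i, le_antisymm (h1 i) hi, big_iff.2 ⟨h1 _, h1 _⟩⟩
  · rintro ⟨i, hi, h⟩
    refine le_antisymm ((pi_norm_le_iff_of_nonneg (by norm_num)).2 fun j => ?_)
      (hi ▸ norm_le_pi_norm w i)
    rcases fin3_cases i j with rfl | rfl | rfl
    exacts [hi.le, (big_iff.1 h).1, (big_iff.1 h).2]

lemma big_of_cub (h : w ∈ Cub) (i) : big.mem (fold i w) :=
  big_iff.2 ⟨(show ‖w‖ = 36 from h) ▸ norm_le_pi_norm w _,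
    (show ‖w‖ = 36 from h) ▸ norm_le_pi_norm w _⟩

end Pool.Agent.MP_a61dd1_gt

end
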