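import Pool.Agent.MP_a61dd1_gt.Mg.Certs
import Pool.Agent.MP_a61dd1_gt.Model
import Pool.Agent.MP_a61dd1_gt.Mg.Fold
import Pool.Agent.MP_a61dd1_gt.Mg.Comb

-- part MP_a61dd1_gt.Cover
section

/-! Developing a finite closed cover along a transport rule into a covering space. -/

namespace Pool.Agent.MP_a61dd1_gt

open Set Filter Topology

structure Dev (X Ch G : Type) [TopologicalSpace X] where
  C : Ch → Set X
  T : X → Ch → Ch → G → G
  closed : ∀ c, IsClosed (C c)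
  cov : ∀ x, ∃ c, x ∈ C c
  T_self : ∀ x c γ, x ∈ C c → T x c c γ = γ
  T_comp : ∀ x c c' c'' γ, x ∈ C c → x ∈ C c' → x ∈ C c'' →
    T x c' c'' (T x c c' γ) = T x c c'' γ
  T_loc : ∀ x0, ∀ᶠ x in 𝓝 x0, ∀ c c', x ∈ C c → x ∈ C c' → T x c c' = T x0 c c'

variable {X Ch G : Type} [TopologicalSpace X] [Finite Ch] (D : Dev X Ch G)

namespace Dev

noncomputable def ch (x : X) : Ch := (D.cov x).choose

omit [Finite Ch] in
lemma mem_ch (x : X) : x ∈ D.C (D.ch x) := (D.cov x).choose_spec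

def base (i : X) : Set X := interior {x | (∀ c, x ∈ D.C c → i ∈ D.C c) ∧
  ∀ c c', x ∈ D.C c → x ∈ D.C c' → D.T x c c' = D.T i c c'}

lemma mem_base (i : X) : i ∈ D.base i := by
  rw [base, mem_interior_iff_mem_nhds]
  refine Eventually.and (eventually_all.2 fun c => ?_) (D.T_loc i)
  by_cases h : i ∈ D.C c
  · exact Eventually.of_forall fun _ _ => h
  · filter_upwards [(D.closed c).isOpen_compl.mem_nhds h] with x hx hx' using absurd hx' hx

noncomputable def core [TopologicalSpace G] [DiscreteTopology G] : FiberBundleCore X X G where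
  baseSet := D.base
  isOpen_baseSet _ := isOpen_interior
  indexAt := id
  mem_baseSet_at := D.mem_base
  coordChange i j x v := D.T j (D.ch x) (D.ch j) (D.T i (D.ch i) (D.ch x) v)
  coordChange_self i x hx v := by
    have h := (interior_subset hx).1 _ (D.mem_ch x)
    rw [D.T_comp _ _ _ _ _ (D.mem_ch i) h (D.mem_ch i), D.T_self _ _ _ (D.mem_ch i)]
  continuousOn_coordChange i j := by
    rw [continuousOn_prod_of_discrete_right]
    intro v x hx
    obtain ⟨⟨hi, hj⟩, -⟩ := hx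
    refine (continuousAt_const (y := D.T j (D.ch x) (D.ch j) (D.T i (D.ch i) (D.ch x) v))).congr
      ?_ |>.continuousWithinAt
    filter_upwards [isOpen_interior.mem_nhds hi, isOpen_interior.mem_nhds hj,
      isOpen_interior.mem_nhds (D.mem_base x)] with y hyi hyj hyx
    have hi' := interior_subset hi
    have hj' := interior_subset hj
    have a1 := (interior_subset hyi).1 _ (D.mem_ch y)
    have a2 := (interior_subset hyj).1 _ (D.mem_ch y)
    have a3 := (interior_subset hyx).1 _ (D.mem_ch y)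
    have b1 := hi'.1 _ (D.mem_ch x)
    have b2 := hj'.1 _ (D.mem_ch x)
    rw [← D.T_comp i _ _ _ v (D.mem_ch i) b1 a1, ← hi'.2 _ _ (D.mem_ch x) a3,
      hj'.2 _ _ (D.mem_ch x) a3, D.T_comp j _ _ _ _ b2 a2 (D.mem_ch j)]
  coordChange_comp i j k x hx v := by
    have h := (interior_subset hx.1.2).1 _ (D.mem_ch x)
    rw [D.T_comp j _ _ _ _ h (D.mem_ch j) h, D.T_self _ _ _ h]

theorem exists_cover : ∃ (E : Type) (_ : TopologicalSpace E) (p : E → X) (s : Ch → G → X → E),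
    IsCoveringMap p ∧ (∀ c γ, ContinuousOn (s c γ) (D.C c)) ∧ (∀ c γ x, p (s c γ x) = x) ∧
    (∀ e c, p e ∈ D.C c → ∃ γ, e = s c γ (p e)) ∧
    (∀ x c c' γ γ', x ∈ D.C c → x ∈ D.C c' → (s c γ x = s c' γ' x ↔ γ' = D.T x c c' γ)) ∧
    (∀ e, ∀ᶠ e' in 𝓝 e, ∀ c γ, p e' ∈ D.C c → e' = s c γ (p e') →
      p e ∈ D.C c ∧ e = s c γ (p e)) := by
  let _ : TopologicalSpace G := ⊥
  have _ : DiscreteTopology G := ⟨rfl⟩
  have key : ∀ (x0 x : X) c γ, x ∈ D.base x0 → x ∈ D.C c →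
      (D.core.localTriv x0 ⟨x, D.T x c (D.ch x) γ⟩).2 = D.T x0 c (D.ch x0) γ := by
    intro x0 x c γ hx hc
    have hx' := interior_subset hx
    show D.T x0 (D.ch x) (D.ch x0) (D.T x (D.ch x) (D.ch x) (D.T x c (D.ch x) γ)) = _
    rw [D.T_self _ _ _ (D.mem_ch x), hx'.2 _ _ hc (D.mem_ch x),
      D.T_comp _ _ _ _ _ (hx'.1 _ hc) (hx'.1 _ (D.mem_ch x)) (D.mem_ch x0)]
  refine ⟨D.core.TotalSpace, inferInstance, D.core.proj,
    fun c γ x => ⟨x, D.T x c (D.ch x) γ⟩, FiberBundle.isCoveringMap, ?_, fun _ _ _ => rfl,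
    ?_, ?_, ?_⟩
  · intro c γ x0 hx0
    rw [FiberBundle.continuousWithinAt_totalSpace]
    refine ⟨continuousWithinAt_id, ?_⟩
    refine (continuousWithinAt_const (b := D.T x0 c (D.ch x0) γ)).congr_of_eventuallyEq ?_ ?_
    · filter_upwards [self_mem_nhdsWithin,
        nhdsWithin_le_nhds (isOpen_interior.mem_nhds (D.mem_base x0))] with x hx hx'
      exact key x0 x c γ hx' hx
    · exact key x0 x0 c γ (D.mem_base x0) hx0
  · rintro ⟨x, v⟩ c hc
    refine ⟨D.T x (D.ch x) c v, ?_⟩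
    show (⟨x, v⟩ : D.core.TotalSpace) = ⟨x, D.T x c (D.ch x) (D.T x (D.ch x) c v)⟩
    rw [D.T_comp _ _ _ _ _ (D.mem_ch x) hc (D.mem_ch x), D.T_self _ _ _ (D.mem_ch x)]
  · intro x c c' γ γ' hc hc'
    constructor
    · intro h
      have h2 : D.T x c (D.ch x) γ = D.T x c' (D.ch x) γ' :=
        congrArg (fun e : D.core.TotalSpace => (e.2 : G)) h
      rw [← D.T_comp x c (D.ch x) c' γ hc (D.mem_ch x) hc', h2,
        D.T_comp _ _ _ _ _ hc' (D.mem_ch x) hc', D.T_self _ _ _ hc']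
    · rintro rfl
      show (⟨x, _⟩ : D.core.TotalSpace) = ⟨x, _⟩
      rw [D.T_comp _ _ _ _ _ hc hc' (D.mem_ch x)]
  · rintro ⟨x0, v0⟩
    have hs : (⟨x0, v0⟩ : D.core.TotalSpace) ∈ (D.core.localTriv x0).source := D.mem_base x0
    have hc : ContinuousAt (fun e => (D.core.localTriv x0 e).2) ⟨x0, v0⟩ :=
      ((D.core.localTriv x0).continuousAt hs).snd
    have hv : (D.core.localTriv x0 ⟨x0, v0⟩).2 = v0 :=
      congrArg Prod.snd (D.core.localTrivAt_apply_mk x0 v0)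
    have h1 := hc.eventually (isOpen_discrete (α := G) {v0} |>.mem_nhds hv)
    filter_upwards [h1, (D.core.localTriv x0).open_source.mem_nhds hs]
    rintro ⟨x, v⟩ he hb c γ hx hv
    have hb : x ∈ D.base x0 := hb
    refine ⟨(interior_subset hb).1 c hx, ?_⟩
    have h2 : v = D.T x c (D.ch x) γ := congrArg (fun e : D.core.TotalSpace => (e.2 : G)) hv
    subst h2
    have := key x0 x c γ hb hx
    have he : (D.core.localTriv x0 ⟨x, D.T x c (D.ch x) γ⟩).2 = v0 := he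
    rw [he] at this
    subst this
    rfl

lemma boundary_preconnected {n : ℕ} (hn : 2 ≤ n) : IsPreconnected (Cube.boundary (Fin n)) := by
  have face : ∀ (i : Fin n) (e : unitInterval), IsPreconnected {y : Fin n → unitInterval | y i = e} := by
    intro i e
    have : {y : Fin n → unitInterval | y i = e} = range fun y => Function.update y i e := by
      ext y
      constructor
      · rintro rfl; exact ⟨y, by simp⟩
      · rintro ⟨y, rfl⟩; simp
    rw [this]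
    exact isPreconnected_range (by fun_prop)
  refine isPreconnected_of_forall 0 ?_
  rintro y ⟨i, hi⟩
  obtain ⟨j, hj⟩ : ∃ j : Fin n, j ≠ i := by
    have : Nontrivial (Fin n) := Fin.nontrivial_iff_two_le.2 hn
    exact exists_ne i
  refine ⟨{z | z i = y i} ∪ {z | z j = 0}, ?_, Or.inr rfl, Or.inl rfl, ?_⟩
  · rintro z (hz | hz)
    · exact ⟨i, by rw [show z i = y i from hz]; exact hi⟩
    · exact ⟨j, Or.inl hz⟩
  · exact (face i _).union (Function.update (0 : Fin n → unitInterval) i (y i)) (by simp) (by simp [hj]) (face j _)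

open scoped Topology.Homotopy unitInterval in
theorem main (Good : Ch → G → Prop) (h : Ch → G → ℤ) (c0 : Ch) (γ0 : G) (good0 : Good c0 γ0)
    (good_T : ∀ x c c' γ, x ∈ D.C c → x ∈ D.C c' → Good c γ → Good c' (D.T x c c' γ))
    (fin : ∀ N, {g : Ch × G | Good g.1 g.2 ∧ h g.1 g.2 ≤ N}.Finite)
    (hmin : ∀ c γ, Good c γ → (c, γ) ≠ (c0, γ0) → h c0 γ0 < h c γ)
    (tie : ∀ x c c' γ, Good c γ → x ∈ D.C c → x ∈ D.C c' → c' ≠ c →
      h c' (D.T x c c' γ) ≤ h c γ → ∃ c'', x ∈ D.C c'' ∧ h c'' (D.T x c c'' γ) < h c γ)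
    (aeC : ∀ c, AE (D.C c))
    (aeLow : ∀ c γ, Good c γ → (c, γ) ≠ (c0, γ0) →
      AE {x | x ∈ D.C c ∧ ∃ c', x ∈ D.C c' ∧ h c' (D.T x c c' γ) < h c γ}) :
    (∀ x ∈ D.C c0, ∀ n, 2 ≤ n → ∀ f : Ω^ (Fin n) X x, GenLoop.Homotopic f GenLoop.const) ∧
    ∀ c γ, Good c γ → ∀ x ∈ D.C c0, ∀ y ∈ D.C c, Joined x y := by
  classical
  obtain ⟨E, _, p, s, hp, sc, ps, sex, seq, sloc⟩ := D.exists_cover
  set L : Ch × G → Set E := fun g => {e | p e ∈ D.C g.1 ∧ e = s g.1 g.2 (p e)} with hL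
  have Lcl : ∀ g, IsClosed (L g) := fun g => by
    rw [← isOpen_compl_iff, isOpen_iff_mem_nhds]
    intro e he
    filter_upwards [sloc e] with e' h' h2 using he (h' _ _ h2.1 h2.2)
  have Lrel : ∀ g g' e, e ∈ L g → e ∈ L g' → g'.2 = D.T (p e) g.1 g'.1 g.2 :=
    fun g g' e he he' => (seq _ _ _ _ _ he.1 he'.1).1 (he.2.symm.trans he'.2)
  have Lae : ∀ (g : Ch × G) (A : Set X), A ⊆ D.C g.1 → AE A → AE (L g ∩ p ⁻¹' A) :=
    fun g A hA h1 => h1.retract p (s g.1 g.2) hp.continuous.continuousOn ((sc _ _).mono hA)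
      (fun e he => he.2) (fun x hx => by
        refine ⟨⟨?_, ?_⟩, ?_⟩
        · rw [ps]; exact hA hx
        · rw [ps]
        · show p _ ∈ A
          rw [ps]; exact hx) (fun e he => he.1.2.symm)
  have ind : ∀ k (S : Finset (Ch × G)), S.card = k + 1 → (∀ g ∈ S, Good g.1 g.2) →
      (∀ g ∈ S, ∀ g' : Ch × G, Good g'.1 g'.2 → h g'.1 g'.2 < h g.1 g.2 → g' ∈ S) →
      AE (⋃ g ∈ S, L g) := by
    have one : ∀ g, AE (L g) := fun g => by
      have := Lae g _ subset_rfl (aeC g.1)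
      rwa [inter_eq_left.2 fun e he => he.1] at this
    intro k
    induction k with
    | zero =>
      intro S hS _ _
      obtain ⟨g, rfl⟩ := Finset.card_eq_one.1 hS
      simpa using one g
    | succ k ih =>
      intro S hS hG hD
      obtain ⟨g, hg, hmax⟩ := S.exists_max_image (fun g => h g.1 g.2)
        (Finset.card_pos.1 (by omega))
      have hc : (S.erase g).card = k + 1 := by rw [Finset.card_erase_of_mem hg]; omega
      have e1 : (⋃ g ∈ S, L g) = L g ∪ ⋃ g' ∈ S.erase g, L g' := by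
        conv_lhs => rw [← Finset.insert_erase hg, Finset.set_biUnion_insert]
      have hne : g ≠ (c0, γ0) := by
        rintro rfl
        obtain ⟨g', hg'⟩ := Finset.card_pos.1 (by omega : 0 < (S.erase (c0, γ0)).card)
        obtain ⟨h1, h2⟩ := Finset.mem_erase.1 hg'
        exact absurd (hmax g' h2) (not_le.2 (hmin _ _ (hG g' h2) h1))
      rw [e1]
      refine AE.union (Lcl g) (isClosed_biUnion_finset fun i _ => Lcl i) (one g) ?_ ?_
      · refine ih _ hc (fun g' hg' => hG g' (Finset.mem_of_mem_erase hg')) fun g1 h1 g2 h2 h3 => ?_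
        have h1' := Finset.mem_of_mem_erase h1
        refine Finset.mem_erase.2 ⟨?_, hD g1 h1' g2 h2 h3⟩
        rintro rfl
        exact absurd (hmax g1 h1') (not_le.2 h3)
      · convert Lae g _ (fun x hx => hx.1) (aeLow g.1 g.2 (hG g hg) hne) using 1
        ext e
        refine and_congr_right fun he => ?_
        simp only [mem_iUnion, mem_preimage, mem_ofPred_eq, exists_prop]
        constructor
        · rintro ⟨g', h1, h2⟩
          obtain ⟨h1, h3⟩ := Finset.mem_erase.1 h1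
          have r := Lrel g g' e he h2
          refine ⟨he.1, tie _ _ g'.1 _ (hG g hg) he.1 h2.1 ?_ (r ▸ hmax g' h3)⟩
          intro hc
          refine h1 (Prod.ext hc ?_)
          rw [r, hc, D.T_self _ _ _ he.1]
        · rintro ⟨-, c', h1, h2⟩
          refine ⟨(c', D.T (p e) g.1 c' g.2), Finset.mem_erase.2 ⟨?_, ?_⟩, h1, ?_⟩
          · intro hc
            rw [show h c' (D.T (p e) g.1 c' g.2) = h g.1 g.2 from
              congrArg (fun g : Ch × G => h g.1 g.2) hc] at h2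
            exact lt_irrefl _ h2
          · exact hD g hg _ (good_T _ _ _ _ he.1 h1 (hG g hg)) h2
          · exact he.2.trans ((seq _ _ _ _ _ he.1 h1).2 rfl)
  set V : ℤ → Set E := fun N => {e | ∃ g : Ch × G, Good g.1 g.2 ∧ h g.1 g.2 ≤ N ∧ e ∈ L g} with hV
  have Vae : ∀ N, h c0 γ0 ≤ N → AE (V N) := fun N hN => by
    have hpos : 0 < (fin N).toFinset.card := Finset.card_pos.2 ⟨(c0, γ0), by simp [good0, hN]⟩
    have := ind ((fin N).toFinset.card - 1) (fin N).toFinset (by omega)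
      (fun g hg => ((fin N).mem_toFinset.1 hg).1)
      (fun g hg g' h1 h2 => (fin N).mem_toFinset.2
        ⟨h1, h2.le.trans ((fin N).mem_toFinset.1 hg).2⟩)
    convert this using 1
    ext e
    simp [hV, and_assoc]
  have Vmono : Monotone V := fun N M hNM e ⟨g, h1, h2, h3⟩ => ⟨g, h1, h2.trans hNM, h3⟩
  have Vloc : ∀ N, ∀ e ∈ V N, ∃ M, V M ∈ 𝓝 e := by
    rintro N e ⟨g, h1, -, h3⟩
    obtain ⟨M, hM⟩ := (finite_range fun c' => h c' (D.T (p e) g.1 c' g.2)).bddAbove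
    refine ⟨M, ?_⟩
    filter_upwards [sloc e] with e' he'
    obtain ⟨c', hc'⟩ := D.cov (p e')
    obtain ⟨γ', hγ'⟩ := sex e' c' hc'
    have h4 : e ∈ L (c', γ') := he' _ _ hc' hγ'
    have r : γ' = D.T (p e) g.1 c' g.2 := Lrel g (c', γ') e h3 h4
    exact ⟨(c', γ'), r ▸ good_T _ _ _ _ h3.1 h4.1 h1, r ▸ hM ⟨c', rfl⟩, hc', hγ'⟩
  have Vclopen : IsClopen (⋃ N, V N) := by
    constructor
    · rw [← isOpen_compl_iff, isOpen_iff_mem_nhds]
      intro e he
      filter_upwards [sloc e] with e' h' h2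
      obtain ⟨N, g, h1, h2, h3⟩ := mem_iUnion.1 h2
      exact he (mem_iUnion.2 ⟨N, g, h1, h2, h' _ _ h3.1 h3.2⟩)
    · rw [isOpen_iff_mem_nhds]
      intro e he
      obtain ⟨N, hN⟩ := mem_iUnion.1 he
      obtain ⟨M, hM⟩ := Vloc N e hN
      exact mem_of_superset hM (subset_iUnion V M)
  have sV : ∀ c γ N x, Good c γ → h c γ ≤ N → x ∈ D.C c → s c γ x ∈ V N :=
    fun c γ N x h1 h2 h3 => ⟨(c, γ), h1, h2, by rw [ps]; exact h3, by rw [ps]⟩
  constructor
  · intro x hx n hn f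
    set e0 := s c0 γ0 x with he0
    have z : (0 : Fin n → I) ∈ Cube.boundary (Fin n) := ⟨⟨0, by omega⟩, Or.inl rfl⟩
    let H : C(I × (Fin n → I), X) := ⟨fun q => f fun i => q.1 * q.2 i, by fun_prop⟩
    have H0 : ∀ a, H (0, a) = p (ContinuousMap.const _ e0 a) := fun a => by
      show f (fun i => 0 * a i) = p e0
      rw [ps]; simp only [zero_mul]; exact f.2 0 z
    set Ht := hp.liftHomotopy H (ContinuousMap.const _ e0) H0 with hHt
    have lf : ∀ q, p (Ht q) = H q := congrFun (hp.liftHomotopy_lifts H _ H0)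
    set F : (Fin n → I) → E := fun y => Ht (1, y) with hF
    have cF : Continuous F := by fun_prop
    have pF : ∀ y, p (F y) = f y := fun y => by
      rw [hF, lf]; show f (fun i => 1 * y i) = _; simp
    have F0 : F 0 = e0 := by
      have := hp.const_of_comp (g := fun t : I => Ht (t, 0)) (by fun_prop) (fun a a' => by
        rw [lf, lf]; show f (fun i => a * 0) = f fun i => a' * 0; simp) 1 0
      rw [hF]; simp only [this]; exact hp.liftHomotopy_zero H _ H0 0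
    have Fb : ∀ y ∈ Cube.boundary (Fin n), F y = e0 := fun y hy => by
      rw [← F0]
      exact hp.constOn_of_comp (boundary_preconnected hn) cF.continuousOn
        (fun a ha a' ha' => by rw [pF, pF]; exact (f.2 a ha).trans (f.2 a' ha').symm) hy z
    have FV : ∀ y, F y ∈ ⋃ N, V N := fun y => by
      have : F ⁻¹' (⋃ N, V N) = univ := (Vclopen.preimage cF).eq_univ
        ⟨0, by rw [mem_preimage, F0]; exact mem_iUnion.2 ⟨_, sV _ _ _ _ good0 le_rfl hx⟩⟩
      exact (this ▸ mem_univ y : y ∈ F ⁻¹' (⋃ N, V N))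
    obtain ⟨N, hN⟩ : ∃ N, range F ⊆ V N := by
      obtain ⟨N, hN⟩ := (isCompact_range cF).elim_directed_cover (fun N => interior (V N))
        (fun _ => isOpen_interior) (by
          rintro _ ⟨y, rfl⟩
          obtain ⟨N, hN⟩ := mem_iUnion.1 (FV y)
          obtain ⟨M, hM⟩ := Vloc N _ hN
          exact mem_iUnion.2 ⟨M, mem_interior_iff_mem_nhds.2 hM⟩)
        (Monotone.directed_le fun a b hab => interior_mono (Vmono hab))
      exact ⟨N, hN.trans interior_subset⟩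
    set N' := max N (h c0 γ0)
    have c1 : IsClosed {q : I × (Fin n → I) | q.1 = 0} := isClosed_eq continuous_fst continuous_const
    have c2 : IsClosed {q : I × (Fin n → I) | q.1 = 1 ∨ q.2 ∈ Cube.boundary (Fin n)} := by
      refine IsClosed.union (isClosed_eq continuous_fst continuous_const) ?_
      show IsClosed {q : I × (Fin n → I) | ∃ i, q.2 i = 0 ∨ q.2 i = 1}
      rw [ofPred_exists]
      exact isClosed_iUnion_of_finite fun i => IsClosed.union
        (isClosed_eq (by fun_prop) continuous_const) (isClosed_eq (by fun_prop) continuous_const)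
    have k1 : ∀ q : I × (Fin n → I), q.1 = 1 ∨ q.2 ∈ Cube.boundary (Fin n) →
        (if q.1 = 0 then F q.2 else e0) = e0 := by
      rintro q (hq | hq)
      · simp [hq]
      · simp [Fb _ hq]
    obtain ⟨g, cg, gV, ge⟩ := Vae N' (le_max_right _ _) (I × (Fin n → I)) _
      (fun q => if q.1 = 0 then F q.2 else e0) (c1.union c2)
      (ContinuousOn.union_of_isClosed
        ((cF.comp continuous_snd).continuousOn.congr fun q hq => if_pos hq)
        (continuousOn_const.congr fun q hq => k1 q hq) c1 c2)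
      (by
        rintro q (hq | hq)
        · simp only [show q.1 = 0 from hq, if_true]
          exact Vmono (le_max_left _ _) (hN ⟨_, rfl⟩)
        · simp only [k1 q hq]
          exact sV _ _ _ _ good0 (le_max_right _ _) hx)
    refine ⟨⟨⟨⟨fun q => p (g q), hp.continuous.comp cg⟩, fun y => ?_, fun y => ?_⟩, fun t y hy => ?_⟩⟩
    · show p (g (0, y)) = f y
      rw [ge (Or.inl rfl)]; simp [pF]
    · show p (g (1, y)) = x
      rw [ge (Or.inr (Or.inl rfl))]; simp [he0, ps]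
    · show p (g (t, y)) = f y
      rw [ge (Or.inr (Or.inr hy))]
      have := k1 (t, y) (Or.inr hy)
      simp only [this]
      exact (ps _ _ _).trans (f.2 y hy).symm
  · intro c γ hg x hx y hy
    obtain ⟨g, cg, -, ge⟩ := Vae (max (h c γ) (h c0 γ0)) (le_max_right _ _) I {0, 1}
      (fun t => if t = 0 then s c0 γ0 x else s c γ y) (Set.toFinite _).isClosed
      ((Set.toFinite _).continuousOn _) (by
        rintro t (rfl | rfl)
        · simpa using sV _ _ _ _ good0 (le_max_right _ _) hx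
        · simpa using sV _ _ _ _ hg (le_max_left _ _) hy)
    refine ⟨⟨⟨fun t => p (g t), hp.continuous.comp cg⟩, ?_, ?_⟩⟩
    · show p (g 0) = x
      rw [ge (by simp)]; simp [ps]
    · show p (g 1) = y
      rw [ge (by simp)]; simp [ps]

end Dev

end Pool.Agent.MP_a61dd1_gt

end

-- part MP_a61dd1_gt.Game
section

/-! Chamber systems with labelled facets are developed along the numbers game of a
right-angled Coxeter group. -/

namespace Pool.Agent.MP_a61dd1_gt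

open Set Filter Topology

structure Sys (X Ch B N S K V : Type) [TopologicalSpace X] where
  C : Ch → Set X
  F : Ch → N → Set X
  pres : Ch → N → Prop
  adj : Ch → N → N → Prop
  slot : Ch → N → K
  co : Ch → K → V
  nb : Ch → N → Ch
  nxt : Ch → N → N → N
  lab : Ch → B → N → S
  tog : S → B → B
  comm : S → S → Prop
  closedC : ∀ c, IsClosed (C c)
  closedF : ∀ c n, IsClosed (F c n)
  cov : ∀ x, ∃ c, x ∈ C c
  F_C : ∀ {x c n}, x ∈ F c n → x ∈ C c
  F_pres : ∀ {x c n}, x ∈ F c n → pres c n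
  F_adj : ∀ {x c n m}, x ∈ F c n → x ∈ F c m → n ≠ m → adj c n m
  F_nxt : ∀ {x c n m}, x ∈ F c n → x ∈ F c m → x ∈ F (nb c n) (nxt c n m)
  conn : ∀ {x c c'}, x ∈ C c → x ∈ C c' → c ≠ c' → ∃ n, x ∈ F c n ∧
    co c (slot c n) ≠ co c' (slot c n) ∧ co (nb c n) (slot c n) = co c' (slot c n)
  ae : ∀ c (σ : Finset N), (∀ n ∈ σ, pres c n) → (∀ n ∈ σ, ∀ m ∈ σ, n ≠ m → adj c n m) →
    AE (C c ∩ ⋂ n ∈ σ, F c n)
  co_inj : ∀ c c', (∀ k, co c k = co c' k) → c = c'
  adj_slot : ∀ c n m, adj c n m → slot c n ≠ slot c m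
  adj_iff : ∀ c b n m, pres c n → pres c m → (adj c n m ↔ comm (lab c b n) (lab c b m))
  lab_inj : ∀ c b n m, pres c n → pres c m → lab c b n = lab c b m → n = m
  nxt_spec : ∀ c b n m, pres c n → pres c m → (adj c n m ∨ n = m) →
    pres (nb c n) (nxt c n m) ∧ slot (nb c n) (nxt c n m) = slot c m ∧
      lab (nb c n) (tog (lab c b n) b) (nxt c n m) = lab c b m
  nb_nb : ∀ c n, pres c n → nb (nb c n) (nxt c n n) = c
  co_nb : ∀ c n k, pres c n → (co (nb c n) k = co c k ↔ k ≠ slot c n)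
  nb_comm : ∀ c n m, pres c n → pres c m → adj c n m →
    nb (nb c n) (nxt c n m) = nb (nb c m) (nxt c m n)
  tog_tog : ∀ s b, tog s (tog s b) = b
  tog_comm : ∀ s t b, tog s (tog t b) = tog t (tog s b)
  comm_symm : ∀ s t, comm s t → comm t s
  comm_irrefl : ∀ s, ¬ comm s s
  two : ∀ s, ∃ t t', t ≠ t' ∧ t ≠ s ∧ t' ≠ s ∧ ¬ comm s t ∧ ¬ comm s t'
  reach : ∀ c c', Relation.ReflTransGen (fun c c' => ∃ n, pres c n ∧ nb c n = c') c c'

namespace Sys

variable {X Ch B N S K V : Type} [TopologicalSpace X] (Z : Sys X Ch B N S K V)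

open Classical in
noncomputable def rf (s : S) (a : S → ℤ) (t : S) : ℤ :=
  if t = s then -a s - 1 else if Z.comm s t then a t else a t + 2 * a s + 1

lemma rf_self (s a) : Z.rf s a s = -a s - 1 := by simp [rf]

lemma rf_comm {s t} (a) (h : Z.comm s t) : Z.rf s a t = a t := by
  have : t ≠ s := by rintro rfl; exact Z.comm_irrefl _ h
  simp [rf, this, h]

lemma rf_not {s t} (a) (h' : t ≠ s) (h : ¬ Z.comm s t) : Z.rf s a t = a t + 2 * a s + 1 := by
  simp [rf, h', h]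

lemma rf_rf (s a) : Z.rf s (Z.rf s a) = a := by
  funext t
  by_cases h : t = s
  · subst h; simp [rf_self]
  · by_cases h' : Z.comm s t
    · rw [Z.rf_comm _ h', Z.rf_comm _ h']
    · rw [Z.rf_not _ h h', Z.rf_not _ h h', rf_self]; ring

lemma rf_swap {s t} (a) (h : Z.comm s t) : Z.rf s (Z.rf t a) = Z.rf t (Z.rf s a) := by
  have h' := Z.comm_symm _ _ h
  funext r
  by_cases h1 : r = s
  · subst h1; rw [rf_self, Z.rf_comm _ h', Z.rf_comm _ h', rf_self]
  by_cases h2 : r = t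
  · subst h2; rw [rf_self, Z.rf_comm _ h, Z.rf_comm _ h, rf_self]
  by_cases h3 : Z.comm s r <;> by_cases h4 : Z.comm t r <;>
    simp only [rf, h1, h2, h3, h4, if_true, if_false] <;>
    simp only [← rf.eq_1, Z.rf_comm _ h, Z.rf_comm _ h']
  ring

lemma sum_rf [Fintype S] {s} {a : S → ℤ} (h : 0 ≤ a s) : ∑ t, a t < ∑ t, Z.rf s a t := by
  classical
  obtain ⟨t, t', h1, h2, h3, h4, h5⟩ := Z.two s
  have key : ∑ r ∈ ({s, t, t'} : Finset S), (Z.rf s a r - a r) ≤ ∑ r, (Z.rf s a r - a r) := by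
    refine Finset.sum_le_sum_of_subset_of_nonneg (Finset.subset_univ _) fun r _ hr => ?_
    have : r ≠ s := by rintro rfl; simp at hr
    by_cases h' : Z.comm s r
    · rw [Z.rf_comm _ h']; simp
    · rw [Z.rf_not _ this h']; omega
  rw [Finset.sum_insert (by simp [h2.symm, h3.symm]), Finset.sum_pair h1, rf_self,
    Z.rf_not _ h2 h4, Z.rf_not _ h3 h5, Finset.sum_sub_distrib] at key
  omega

def Inv (a : S → ℤ) : Prop := ∀ s t, s ≠ t → ¬ Z.comm s t → 0 ≤ a s + a t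

lemma le_rf {s t} {a : S → ℤ} (h : 0 ≤ a s) (ht : t ≠ s) : a t ≤ Z.rf s a t := by
  by_cases h' : Z.comm s t
  · rw [Z.rf_comm _ h']
  · rw [Z.rf_not _ ht h']; omega

lemma Inv.rf {a} (hI : Z.Inv a) {s} (h : 0 ≤ a s) : Z.Inv (Z.rf s a) := by
  intro t r h1 h2
  have := hI t r h1 h2
  by_cases ht : t = s
  · subst ht; rw [rf_self, Z.rf_not _ h1.symm h2]; omega
  by_cases hr : r = s
  · subst hr; rw [rf_self, Z.rf_not _ h1 fun h => h2 (Z.comm_symm _ _ h)]; omega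
  have := Z.le_rf h ht
  have := Z.le_rf h hr
  omega

abbrev lb (p : Ch × B × (S → ℤ)) (n : N) : S := Z.lab p.1 p.2.1 n

noncomputable def mv (p : Ch × B × (S → ℤ)) (n : N) : Ch × B × (S → ℤ) :=
  (Z.nb p.1 n, Z.tog (Z.lb p n) p.2.1, Z.rf (Z.lb p n) p.2.2)

lemma lb_mv {p : Ch × B × (S → ℤ)} {n m} (hn : Z.pres p.1 n) (hm : Z.pres p.1 m)
    (h : Z.adj p.1 n m ∨ n = m) : Z.lb (Z.mv p n) (Z.nxt p.1 n m) = Z.lb p m :=
  (Z.nxt_spec _ _ _ _ hn hm h).2.2

lemma mv_mv {p : Ch × B × (S → ℤ)} {n} (hn : Z.pres p.1 n) :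
    Z.mv (Z.mv p n) (Z.nxt p.1 n n) = p := by
  have := Z.lb_mv hn hn (Or.inr rfl)
  rw [mv, this]
  simp [mv, Z.nb_nb _ _ hn, Z.tog_tog, rf_rf]

lemma adj_symm {c n m} (b : B) (hn : Z.pres c n) (hm : Z.pres c m) (h : Z.adj c n m) :
    Z.adj c m n :=
  (Z.adj_iff c b m n hm hn).2 (Z.comm_symm _ _ ((Z.adj_iff c b n m hn hm).1 h))

lemma mv_swap {p : Ch × B × (S → ℤ)} {n m} (hn : Z.pres p.1 n) (hm : Z.pres p.1 m)
    (h : Z.adj p.1 n m) :
    Z.mv (Z.mv p n) (Z.nxt p.1 n m) = Z.mv (Z.mv p m) (Z.nxt p.1 m n) := by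
  have h1 := Z.lb_mv hn hm (Or.inl h)
  have h2 := Z.lb_mv hm hn (Or.inl (Z.adj_symm p.2.1 hn hm h))
  rw [mv, h1, mv.eq_1 Z (Z.mv p m), h2]
  simp only [mv, Z.nb_comm _ _ _ hn hm h, Z.tog_comm (Z.lb p m),
    Z.rf_swap _ ((Z.adj_iff _ p.2.1 _ _ hn hm).1 h)]

inductive Good (p0 : Ch × B × (S → ℤ)) : Ch × B × (S → ℤ) → Prop
  | base : Good p0 p0
  | push {p n} : Good p0 p → Z.pres p.1 n → 0 ≤ p.2.2 (Z.lb p n) → Good p0 (Z.mv p n)

variable {Z} {c0 : Ch} {b0 : B}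

lemma Good.inv {p} (h : Z.Good (c0, b0, 0) p) : Z.Inv p.2.2 := by
  induction h with
  | base => intro s t _ _; simp
  | push _ _ h ih => exact ih.rf _ h

lemma Good.pop {p} (h : Z.Good (c0, b0, 0) p) :
    ∀ t, p.2.2 t < 0 → ∃ n, Z.pres p.1 n ∧ Z.lb p n = t ∧ Z.Good (c0, b0, 0) (Z.mv p n) := by
  induction h with
  | base => intro t ht; simp at ht
  | @push p n hp hn h ih =>
    intro t ht
    by_cases hts : t = Z.lb p n
    · refine ⟨Z.nxt p.1 n n, (Z.nxt_spec _ p.2.1 _ _ hn hn (Or.inr rfl)).1, ?_, ?_⟩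
      · rw [hts, Z.lb_mv hn hn (Or.inr rfl)]
      · rw [Z.mv_mv hn]; exact hp
    have ht : Z.rf (Z.lb p n) p.2.2 t < 0 := ht
    have hc : Z.comm (Z.lb p n) t := by
      by_contra hc
      have := hp.inv _ _ (Ne.symm hts) hc
      rw [Z.rf_not _ hts hc] at ht
      omega
    rw [Z.rf_comm _ hc] at ht
    obtain ⟨m, hm, rfl, hg⟩ := ih t ht
    have ha : Z.adj p.1 n m := (Z.adj_iff _ _ _ _ hn hm).2 hc
    have ha' := Z.adj_symm p.2.1 hn hm ha
    refine ⟨Z.nxt p.1 n m, (Z.nxt_spec _ p.2.1 _ _ hn hm (Or.inl ha)).1,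
      Z.lb_mv hn hm (Or.inl ha), ?_⟩
    rw [Z.mv_swap hn hm ha]
    refine hg.push (Z.nxt_spec _ p.2.1 _ _ hm hn (Or.inl ha')).1 ?_
    rw [Z.lb_mv hm hn (Or.inl ha')]
    show 0 ≤ Z.rf _ _ _
    rwa [Z.rf_comm _ (Z.comm_symm _ _ hc)]

lemma Good.mv {p n} (h : Z.Good (c0, b0, 0) p) (hn : Z.pres p.1 n) :
    Z.Good (c0, b0, 0) (Z.mv p n) := by
  rcases le_or_gt 0 (p.2.2 (Z.lb p n)) with h1 | h1
  · exact h.push hn h1
  · obtain ⟨m, hm, e, hg⟩ := h.pop _ h1
    rwa [← Z.lab_inj _ _ _ _ hm hn e]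

lemma Good.cases' [Fintype S] {p} (h : Z.Good (c0, b0, 0) p) :
    p = (c0, b0, 0) ∨ (0 < ∑ t, p.2.2 t ∧ ∃ t, p.2.2 t < 0) := by
  induction h with
  | base => exact Or.inl rfl
  | @push p n hp hn h ih =>
    refine Or.inr ⟨lt_of_le_of_lt ?_ (Z.sum_rf h), Z.lb p n, ?_⟩
    · rcases ih with rfl | ih
      · simp
      · exact ih.1.le
    · show Z.rf _ _ _ < 0
      rw [rf_self]; omega

lemma Good.fin [Fintype S] [Finite N] (M : ℤ) :
    {p | Z.Good (c0, b0, 0) p ∧ ∑ t, p.2.2 t ≤ M}.Finite := by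
  have : ∀ M : ℕ, {p | Z.Good (c0, b0, 0) p ∧ ∑ t, p.2.2 t < M}.Finite := by
    intro M
    induction M with
    | zero =>
      refine Set.finite_empty.subset ?_
      rintro p ⟨h1, h2⟩
      rcases h1.cases' with rfl | h
      · simp at h2
      · simp at h2; omega
    | succ M ih =>
      refine ((ih.prod (finite_univ (α := N))).image (fun q => Z.mv q.1 q.2)).insert
        (c0, b0, 0) |>.subset ?_
      rintro p ⟨h1, h2⟩
      cases h1 with
      | base => exact Or.inl rfl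
      | @push p n hp hn h =>
        refine Or.inr ⟨(p, n), ⟨⟨hp, ?_⟩, trivial⟩, rfl⟩
        have h3 := Z.sum_rf h
        have h2 : ∑ t, Z.rf (Z.lb p n) p.2.2 t < (M + 1 : ℕ) := h2
        push_cast at h2
        show ∑ t, p.2.2 t < M
        omega
  exact (this (M + 1).toNat).subset fun p hp => ⟨hp.1, by have := hp.2; omega⟩

variable (Z)

def Act (x : X) (c : Ch) (k : K) : Prop := ∃ n, x ∈ Z.F c n ∧ Z.slot c n = k

open Classical in
noncomputable def mu (x : X) (k : K) (p : Ch × B × (S → ℤ)) : Ch × B × (S → ℤ) :=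
  if h : Z.Act x p.1 k then Z.mv p h.choose else p

variable {Z} {x : X}

lemma adj_or {c n m} (hn : x ∈ Z.F c n) (hm : x ∈ Z.F c m) : Z.adj c n m ∨ n = m := by
  by_cases h : n = m
  · exact Or.inr h
  · exact Or.inl (Z.F_adj hn hm h)

lemma mu_eq {p : Ch × B × (S → ℤ)} {n k} (hn : x ∈ Z.F p.1 n) (hk : Z.slot p.1 n = k) :
    Z.mu x k p = Z.mv p n := by
  have h : Z.Act x p.1 k := ⟨n, hn, hk⟩
  rw [mu, dif_pos h]
  rcases adj_or h.choose_spec.1 hn with h1 | h1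
  · exact absurd (h.choose_spec.2.trans hk.symm) (Z.adj_slot _ _ _ h1)
  · rw [h1]

lemma mu_not {p : Ch × B × (S → ℤ)} {k} (h : ¬ Z.Act x p.1 k) : Z.mu x k p = p := by
  rw [mu, dif_neg h]

lemma back {p : Ch × B × (S → ℤ)} {n m} (hn : x ∈ Z.F p.1 n) (hm : x ∈ Z.F (Z.mv p n).1 m) :
    ∃ m', x ∈ Z.F p.1 m' ∧ Z.slot p.1 m' = Z.slot (Z.mv p n).1 m ∧
      Z.lb p m' = Z.lb (Z.mv p n) m := by
  have h1 : x ∈ Z.F (Z.mv p n).1 (Z.nxt p.1 n n) := Z.F_nxt hn hn
  have h2 := Z.F_nxt h1 hm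
  have h3 := (Z.nxt_spec _ (Z.mv p n).2.1 _ _ (Z.F_pres h1) (Z.F_pres hm) (adj_or h1 hm)).2.1
  have h4 := Z.lb_mv (Z.F_pres h1) (Z.F_pres hm) (adj_or h1 hm)
  have e := Z.mv_mv (Z.F_pres hn)
  have e1 : Z.nb (Z.mv p n).1 (Z.nxt p.1 n n) = p.1 := congrArg Prod.fst e
  rw [e] at h4
  rw [e1] at h2 h3
  exact ⟨_, h2, h3, h4⟩

lemma act_mu {p : Ch × B × (S → ℤ)} {k l} : Z.Act x (Z.mu x l p).1 k ↔ Z.Act x p.1 k := by
  by_cases h : Z.Act x p.1 l
  · obtain ⟨n, hn, hl⟩ := h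
    rw [mu_eq hn hl]
    constructor
    · rintro ⟨m, hm, rfl⟩
      obtain ⟨m', h1, h2, -⟩ := back hn hm
      exact ⟨m', h1, h2⟩
    · rintro ⟨m, hm, rfl⟩
      exact ⟨_, Z.F_nxt hn hm,
        (Z.nxt_spec _ p.2.1 _ _ (Z.F_pres hn) (Z.F_pres hm) (adj_or hn hm)).2.1⟩
  · rw [mu_not h]

lemma mu_mv {p : Ch × B × (S → ℤ)} {n m} (hn : x ∈ Z.F p.1 n) (hm : x ∈ Z.F p.1 m) :
    Z.mu x (Z.slot p.1 m) (Z.mv p n) = Z.mv (Z.mv p n) (Z.nxt p.1 n m) :=
  mu_eq (Z.F_nxt hn hm)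
    (Z.nxt_spec _ p.2.1 _ _ (Z.F_pres hn) (Z.F_pres hm) (adj_or hn hm)).2.1

lemma mu_mu (k) (p : Ch × B × (S → ℤ)) : Z.mu x k (Z.mu x k p) = p := by
  by_cases h : Z.Act x p.1 k
  · obtain ⟨n, hn, rfl⟩ := h
    rw [mu_eq hn rfl, mu_mv hn hn, Z.mv_mv (Z.F_pres hn)]
  · rw [mu_not h, mu_not h]

instance : LeftCommutative (Z.mu x) where
  left_comm k l p := by
    by_cases hk : Z.Act x p.1 k <;> by_cases hl : Z.Act x p.1 l
    · obtain ⟨n, hn, rfl⟩ := hk
      obtain ⟨m, hm, rfl⟩ := hl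
      rcases adj_or hn hm with h | rfl
      · rw [mu_eq hn rfl, mu_eq hm rfl, mu_mv hn hm, mu_mv hm hn,
          Z.mv_swap (Z.F_pres hn) (Z.F_pres hm) h]
      · rfl
    · rw [mu_not hl, mu_not (act_mu.not.2 hl)]
    · rw [mu_not hk, mu_not (act_mu.not.2 hk)]
    · rw [mu_not hl, mu_not hk, mu_not hl]

lemma act_foldr {p : Ch × B × (S → ℤ)} {k} (l : List K) :
    Z.Act x (l.foldr (Z.mu x) p).1 k ↔ Z.Act x p.1 k := by
  induction l with
  | nil => rfl
  | cons a l ih => rw [List.foldr_cons, act_mu, ih]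

lemma normal (p : Ch × B × (S → ℤ)) (l : List K) : ∃ l' : List K, l'.Nodup ∧
    (∀ k ∈ l', Z.Act x p.1 k) ∧ l.foldr (Z.mu x) p = l'.foldr (Z.mu x) p := by
  classical
  induction l with
  | nil => exact ⟨[], List.nodup_nil, by simp, rfl⟩
  | cons a l ih =>
    obtain ⟨l', h1, h2, h3⟩ := ih
    rw [List.foldr_cons, h3]
    by_cases ha : a ∈ l'
    · refine ⟨l'.erase a, h1.erase a, fun k hk => h2 k (List.mem_of_mem_erase hk), ?_⟩
      rw [(List.perm_cons_erase ha).foldr_eq, List.foldr_cons, mu_mu]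
    by_cases hb : Z.Act x p.1 a
    · exact ⟨a :: l', List.nodup_cons.2 ⟨ha, h1⟩, by simpa [hb] using h2, rfl⟩
    · exact ⟨l', h1, h2, mu_not ((act_foldr l').not.2 hb)⟩

lemma co_foldr {p : Ch × B × (S → ℤ)} {l : List K} (h1 : l.Nodup) (h2 : ∀ k ∈ l, Z.Act x p.1 k)
    (k : K) : Z.co (l.foldr (Z.mu x) p).1 k = Z.co p.1 k ↔ k ∉ l := by
  induction l with
  | nil => simp
  | cons a l ih =>
    obtain ⟨ha, h1⟩ := List.nodup_cons.1 h1
    have ih := ih h1 fun k hk => h2 k (List.mem_cons_of_mem _ hk)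
    obtain ⟨n, hn, e⟩ := (act_foldr l).2 (h2 a List.mem_cons_self)
    have h3 := Z.co_nb _ n k (Z.F_pres hn)
    rw [List.foldr_cons, mu_eq hn e]
    rw [e] at h3
    by_cases hk : k = a
    · subst hk
      rw [← ih.2 ha]
      simpa [mv] using h3
    · rw [show Z.co (Z.mv _ n).1 k = _ from h3.2 hk, ih]
      simp [hk]

variable (Z) in
def R (x : X) (p q : Ch × B × (S → ℤ)) : Prop := ∃ l : List K, q = l.foldr (Z.mu x) p

lemma R.unique {p q q'} (h : Z.R x p q) (h' : Z.R x p q') (e : q.1 = q'.1) : q = q' := by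
  obtain ⟨l, rfl⟩ := h
  obtain ⟨l', rfl⟩ := h'
  obtain ⟨m, h1, h2, h3⟩ := normal (Z := Z) (x := x) p l
  obtain ⟨m', h1', h2', h3'⟩ := normal (Z := Z) (x := x) p l'
  rw [h3, h3'] at e ⊢
  refine ((List.perm_ext_iff_of_nodup h1 h1').2 fun k => ?_).foldr_eq _
  rw [← not_iff_not, ← co_foldr h1 h2, ← co_foldr h1' h2', e]

lemma R.trans {p q r} (h : Z.R x p q) (h' : Z.R x q r) : Z.R x p r := by
  obtain ⟨l, rfl⟩ := h
  obtain ⟨l', rfl⟩ := h'
  exact ⟨l' ++ l, by rw [List.foldr_append]⟩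

lemma R.single {p : Ch × B × (S → ℤ)} {n} (hn : x ∈ Z.F p.1 n) : Z.R x p (Z.mv p n) :=
  ⟨[_], (mu_eq hn rfl).symm⟩

lemma R.induct {P : Ch × B × (S → ℤ) → Prop} {p q} (h : Z.R x p q) (hp : P p)
    (st : ∀ q n, x ∈ Z.F q.1 n → P q → P (Z.mv q n)) : P q := by
  obtain ⟨l, rfl⟩ := h
  induction l with
  | nil => exact hp
  | cons a l ih =>
    rw [List.foldr_cons]
    by_cases h : Z.Act x (l.foldr (Z.mu x) p).1 a
    · obtain ⟨n, hn, e⟩ := h
      rw [mu_eq hn e]; exact st _ _ hn ih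
    · rwa [mu_not h]

lemma R.exists [Finite K] {c c'} (hc : x ∈ Z.C c) (hc' : x ∈ Z.C c') (γ) :
    ∃ γ', Z.R x (c, γ) (c', γ') := by
  classical
  induction hk : {k | Z.co c k ≠ Z.co c' k}.ncard using Nat.strong_induction_on
    generalizing c γ with
  | _ k ih =>
    by_cases e : c = c'
    · exact ⟨γ, [], by rw [e]; rfl⟩
    obtain ⟨n, hn, h1, h2⟩ := Z.conn hc hc' e
    obtain ⟨γ', h⟩ := ih _ (hk ▸ Set.ncard_lt_ncard (s := {k | Z.co (Z.nb c n) k ≠ Z.co c' k})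
      ⟨fun k hk => by
        by_cases h : k = Z.slot c n
        · subst h; exact h1
        · have hk : Z.co (Z.nb c n) k ≠ Z.co c' k := hk
          rwa [(Z.co_nb c n k (Z.F_pres hn)).2 h] at hk,
        fun h => h h1 h2⟩ (Set.toFinite _)) (Z.F_C (Z.F_nxt hn hn)) (Z.mv (c, γ) n).2 rfl
    exact ⟨γ', (R.single (p := (c, γ)) hn).trans h⟩

lemma R.sum_lt [Fintype S] {p q} (h : Z.R x p q) (e : q.1 ≠ p.1)
    (asc : ∀ n, x ∈ Z.F p.1 n → 0 ≤ p.2.2 (Z.lb p n)) : ∑ t, p.2.2 t < ∑ t, q.2.2 t := by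
  obtain ⟨l, rfl⟩ := h
  obtain ⟨m, h1, h2, h3⟩ := normal (Z := Z) (x := x) p l
  rw [h3] at e ⊢
  have key : ∀ m : List K, m.Nodup → (∀ k ∈ m, Z.Act x p.1 k) →
      (∑ t, p.2.2 t) + m.length ≤ ∑ t, (m.foldr (Z.mu x) p).2.2 t ∧
      ∀ n, x ∈ Z.F (m.foldr (Z.mu x) p).1 n → Z.slot (m.foldr (Z.mu x) p).1 n ∉ m →
        0 ≤ (m.foldr (Z.mu x) p).2.2 (Z.lb (m.foldr (Z.mu x) p) n) := by
    intro m h1 h2
    induction m with
    | nil => exact ⟨by simp, fun n hn _ => asc n hn⟩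
    | cons a m ih =>
      obtain ⟨ha, h1⟩ := List.nodup_cons.1 h1
      obtain ⟨i1, i2⟩ := ih h1 fun k hk => h2 k (List.mem_cons_of_mem _ hk)
      obtain ⟨n, hn, e⟩ := (act_foldr m).2 (h2 a List.mem_cons_self)
      rw [List.foldr_cons, mu_eq hn e]
      refine ⟨?_, fun n' hn' hs => ?_⟩
      · have := Z.sum_rf (i2 n hn (e ▸ ha))
        simp only [List.length_cons, mv]
        push_cast
        omega
      · obtain ⟨m', j1, j2, j3⟩ := back hn hn'
        rw [← j2, List.mem_cons, not_or] at hs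
        rw [← j3]
        rcases adj_or hn j1 with h | rfl
        · show 0 ≤ Z.rf _ _ _
          rw [Z.rf_comm _ ((Z.adj_iff _ _ _ _ (Z.F_pres hn) (Z.F_pres j1)).1 h)]
          exact i2 m' j1 hs.2
        · exact absurd e hs.1
  have := (key m h1 h2).1
  cases m with
  | nil => exact absurd rfl e
  | cons a m => simp only [List.length_cons] at this; push_cast at this; omega

variable (Z) [Finite Ch] [Finite N] [Finite K]

open Classical in
noncomputable def tr (x : X) (c c' : Ch) (γ : B × (S → ℤ)) : B × (S → ℤ) :=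
  if h : ∃ γ', Z.R x (c, γ) (c', γ') then h.choose else γ

omit [Finite Ch] [Finite N] in
lemma tr_spec {c c'} (hc : x ∈ Z.C c) (hc' : x ∈ Z.C c') (γ) :
    Z.R x (c, γ) (c', Z.tr x c c' γ) := by
  have h := R.exists hc hc' γ
  rw [tr, dif_pos h]; exact h.choose_spec

noncomputable def dev : Dev X Ch (B × (S → ℤ)) where
  C := Z.C
  T := Z.tr
  closed := Z.closedC
  cov := Z.cov
  T_self x c γ h := congrArg Prod.snd ((Z.tr_spec h h γ).unique ⟨[], rfl⟩ rfl)
  T_comp x c c' c'' γ h h' h'' := congrArg Prod.snd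
    (((Z.tr_spec h h' γ).trans (Z.tr_spec h' h'' _)).unique (Z.tr_spec h h'' γ) rfl)
  T_loc x0 := by
    have cl : ∀ A : Set X, IsClosed A → ∀ᶠ x in 𝓝 x0, x ∈ A → x0 ∈ A := fun A hA => by
      by_cases h : x0 ∈ A
      · exact Eventually.of_forall fun _ _ => h
      · filter_upwards [hA.isOpen_compl.mem_nhds h] with x hx hx' using absurd hx' hx
    filter_upwards [eventually_all.2 fun c => cl _ (Z.closedC c),
      eventually_all.2 fun c => eventually_all.2 fun n => cl _ (Z.closedF c n)]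
      with x h1 h2 c c' hc hc'
    funext γ
    have : Z.R x0 (c, γ) (c', Z.tr x c c' γ) :=
      (Z.tr_spec hc hc' γ).induct (P := Z.R x0 (c, γ)) ⟨[], rfl⟩
        fun q n hn hq => hq.trans (R.single (h2 _ _ hn))
    exact congrArg Prod.snd (this.unique (Z.tr_spec (h1 _ hc) (h1 _ hc') γ) rfl)

include Z in
open scoped Topology.Homotopy in
theorem main [Fintype S] (b0 : B) :
    (∀ x : X, ∀ n, 2 ≤ n → ∀ f : Ω^ (Fin n) X x, GenLoop.Homotopic f GenLoop.const) ∧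
    ∀ x y : X, Joined x y := by
  classical
  have low : ∀ x c γ n, x ∈ Z.F c n → γ.2 (Z.lab c γ.1 n) < 0 →
      ∃ c', x ∈ Z.C c' ∧ ∑ t, (Z.tr x c c' γ).2 t < ∑ t, γ.2 t := by
    intro x c γ n hn h
    have h1 := Z.F_C (Z.F_nxt hn hn)
    refine ⟨_, h1, ?_⟩
    have e := congrArg Prod.snd ((Z.tr_spec (Z.F_C hn) h1 γ).unique
      (R.single (p := (c, γ)) hn) rfl)
    have := Z.sum_rf (s := Z.lab c γ.1 n) (a := Z.rf (Z.lab c γ.1 n) γ.2) (by rw [rf_self]; omega)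
    rw [rf_rf] at this
    rw [show Z.tr x c (Z.nb c n) γ = _ from e]
    exact this
  have desc : ∀ x c c' γ, x ∈ Z.C c → x ∈ Z.C c' → c' ≠ c →
      ∑ t, (Z.tr x c c' γ).2 t ≤ ∑ t, γ.2 t → ∃ n, x ∈ Z.F c n ∧ γ.2 (Z.lab c γ.1 n) < 0 := by
    intro x c c' γ hc hc' e h
    by_contra h'
    push Not at h'
    exact absurd ((Z.tr_spec hc hc' γ).sum_lt e h') (not_lt.2 h)
  have M := fun c0 => Z.dev.main (fun c γ => Z.Good (c0, b0, 0) (c, γ)) (fun _ γ => ∑ t, γ.2 t)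
    c0 (b0, 0) Good.base
    (fun x c c' γ hc hc' hg => (Z.tr_spec hc hc' γ).induct hg
      fun q n hn hq => hq.mv (Z.F_pres hn))
    (fun M => Good.fin M)
    (fun c γ hg hne => by simpa using (hg.cases'.resolve_left hne).1)
    (fun x c c' γ _ hc hc' e h => by
      obtain ⟨n, hn, h⟩ := desc x c c' γ hc hc' e h
      exact low x c γ n hn h)
    (fun c => by simpa [dev] using Z.ae c ∅ (by simp) (by simp))
    (fun c γ hg hne => by
      have : Fintype N := Fintype.ofFinite N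
      obtain ⟨t, ht⟩ := (hg.cases'.resolve_left hne).2
      obtain ⟨n, hn, rfl, -⟩ := hg.pop t ht
      have := AE.biUnion (Z.F c) (Z.closedF c)
        (Finset.univ.filter fun n => Z.pres c n ∧ γ.2 (Z.lab c γ.1 n) < 0)
        ⟨n, by simpa using ⟨hn, ht⟩⟩ (Z.C c) (Z.closedC c) fun σ hσ _ => by
          have h1 : ∀ n ∈ σ, Z.pres c n ∧ γ.2 (Z.lab c γ.1 n) < 0 :=
            fun n hn => (Finset.mem_filter.1 (hσ hn)).2
          refine Z.ae c σ (fun n hn => (h1 n hn).1) fun n hn m hm e => ?_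
          refine (Z.adj_iff c γ.1 n m (h1 n hn).1 (h1 m hm).1).2 ?_
          by_contra h
          have := hg.inv _ _ (fun h => e (Z.lab_inj _ _ _ _ (h1 n hn).1 (h1 m hm).1 h)) h
          have := (h1 n hn).2
          have := (h1 m hm).2
          simp only at *
          omega
      convert this using 1
      ext x
      refine and_congr_right fun hx => ?_
      simp only [mem_iUnion, Finset.mem_filter, Finset.mem_univ, true_and, exists_prop]
      constructor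
      · rintro ⟨c', h1, h2⟩
        obtain ⟨n, hn, h⟩ := desc x c c' γ hx h1 (by
          rintro rfl
          rw [Z.dev.T_self _ _ _ hx] at h2
          exact lt_irrefl _ h2) h2.le
        exact ⟨n, ⟨Z.F_pres hn, h⟩, hn⟩
      · rintro ⟨n, ⟨-, h⟩, hn⟩
        exact low x c γ n hn h)
  refine ⟨fun x => ?_, fun x y => ?_⟩
  · obtain ⟨c, hc⟩ := Z.cov x
    exact (M c).1 x hc
  · obtain ⟨c, hc⟩ := Z.cov x
    obtain ⟨c', hc'⟩ := Z.cov y
    have : ∃ γ, Z.Good (c, b0, 0) (c', γ) := by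
      clear hc'
      induction Z.reach c c' with
      | refl => exact ⟨_, Good.base⟩
      | tail _ h ih =>
        obtain ⟨γ, hg⟩ := ih
        obtain ⟨n, hn, rfl⟩ := h
        exact ⟨_, hg.mv hn⟩
    obtain ⟨γ, hg⟩ := this
    exact (M c).2 c' γ hg x hc y hc'

end Sys

end Pool.Agent.MP_a61dd1_gt

end

-- part MP_a61dd1_gt.Reg
section

/-! The ten tori are regular level sets.

Hints.  Take `F w = ![sq2 (w 0) + sq2 (w 1) + sq2 (w 2) - 4096, g w, f w]`.
General lemma (triangular): for differentiable `s g f : W → ℝ` the derivative of `![s, g, f]` at `w` is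
onto as soon as there are vectors `e1 e2 e3` with `ds e1 ≠ 0, dg e1 = 0, df e1 = 0`,
`dg e2 ≠ 0, df e2 = 0`, `df e3 ≠ 0` (or any other triangular order).
To get `df e3 ≠ 0` use: if `γ : ℝ → W` is differentiable at `0`, `γ 0 = w` and
`HasDerivAt (f ∘ γ) d 0` with `d ≠ 0` then `fderiv ℝ f w (γ' 0) ≠ 0`.
* `T0`: `g = sq2 (w 0) - sq2 (w 1)`, `f = sq2 (w 1) - sq2 (w 2)`; radial vectors `Pi.single j (w j)`;
  all `sq2 (w j) = 4096/3`.
* `T1 i`, `T2 i`: `e1 = Pi.single i (w i)` (`sq2 (w i) > 0` by `T1_small`, `Sph_sum`; `g`, `f` do not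
  depend on `w i`), `e2` the coordinate vector of the vanishing coordinate.  For `e3`: if the squared
  coordinate (`v` resp. `y`) is nonzero, move in that coordinate.  Otherwise
  `rect_out + bump rect_in = 1` at the point `(s,t)` (`s = x` resp. `s = x - shr u`, `t = u`); move along
  `(s,t) ↦ c + (1+τ) ((s,t) - c)` with `c = (-3,0)` resp. `c = (-14,0)` in the core of the inner rectangle
  (for `T2` the curve is `x = s(τ) + shr (u(τ))`).  Lemma: for `c` in the core of `rect a b c'`, the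
  derivative at `τ = 0` of `rect a b c'` along this ray is `≥ 0`, is `> 0` if `rect > 0` at the point and
  `= 0` if `rect = 0` there (termwise, `deriv_rp_pos`, `deriv_rp_of_nonpos`).  If `rect_out > 0` then
  `rect_in ≥ 2` (`two_le_rect`), so `deriv rp (2 - rect_in) = 0` and the derivative is `> 0`;
  if `rect_out = 0` then `rect_in = 1` (`rp_eq_one`) and the derivative is `< 0`.
* `TU j`: `sq2 (w j) ≤ 25`, so one of `w (j+1)`, `w (j+2)` has `sq2 > 2000`; near `w` its bump vanishes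
  (`bA_of_big`, `bB_of_big`), so `df` kills its radial vector `e1`; `e2 = Pi.single j (1,0)`;
  `e3 = Pi.single j (0,1)` if `y ≠ 0`, else the radial vector of the small `w (j±1)` (centre `0`).
-/

namespace Pool.Agent.MP_a61dd1_gt

open Set
open scoped ContDiff

def RegLevel (T : Set W) : Prop :=
  ∃ F : W → Fin 3 → ℝ, ContDiff ℝ ∞ F ∧ (∀ w, w ∈ T ↔ F w = 0) ∧
    (∀ w, F w 0 = sq2 (w 0) + sq2 (w 1) + sq2 (w 2) - 4096) ∧
    ∀ w ∈ T, Function.Surjective (fderiv ℝ F w)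

lemma reg_surj_tri (L : W →L[ℝ] (Fin 3 → ℝ)) {e1 e2 e3 : W} (h11 : L e1 0 ≠ 0) (h12 : L e1 1 = 0)
    (h13 : L e1 2 = 0) (h22 : L e2 1 ≠ 0) (h23 : L e2 2 = 0) (h33 : L e3 2 ≠ 0) :
    Function.Surjective L := by
  intro y
  set c3 := y 2 / L e3 2 with hc3
  set c2 := (y 1 - c3 * L e3 1) / L e2 1 with hc2
  set c1 := (y 0 - c2 * L e2 0 - c3 * L e3 0) / L e1 0 with hc1
  have k3 : c3 * L e3 2 = y 2 := div_mul_cancel₀ _ h33
  have k2 : c2 * L e2 1 = y 1 - c3 * L e3 1 := div_mul_cancel₀ _ h22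
  have k1 : c1 * L e1 0 = y 0 - c2 * L e2 0 - c3 * L e3 0 := div_mul_cancel₀ _ h11
  refine ⟨c1 • e1 + c2 • e2 + c3 • e3, ?_⟩
  have key : ∀ a, L (c1 • e1 + c2 • e2 + c3 • e3) a = c1 * L e1 a + c2 * L e2 a + c3 * L e3 a := by
    intro a
    simp only [map_add, map_smul, Pi.add_apply, Pi.smul_apply, smul_eq_mul]
  funext a
  rw [key]
  fin_cases a
  · show c1 * L e1 0 + c2 * L e2 0 + c3 * L e3 0 = y 0
    linarith
  · show c1 * L e1 1 + c2 * L e2 1 + c3 * L e3 1 = y 1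
    rw [h12]; linarith
  · show c1 * L e1 2 + c2 * L e2 2 + c3 * L e3 2 = y 2
    rw [h13, h23]; linarith

lemma reg_fderiv_curve {F : W → Fin 3 → ℝ} {w : W} (hF : DifferentiableAt ℝ F w) {γ : ℝ → W}
    (hγ : DifferentiableAt ℝ γ 0) (h0 : γ 0 = w) (a : Fin 3) {d : ℝ}
    (hd : HasDerivAt (fun τ => F (γ τ) a) d 0) : fderiv ℝ F w (deriv γ 0) a = d := by
  subst h0
  have h1 := hF.hasFDerivAt.comp_hasDerivAt 0 hγ.hasDerivAt
  exact (hasDerivAt_pi.1 h1 a).unique hd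

/-- The point with coordinates `a`, `b`, `c` in the places `i`, `i+1`, `i+2`. -/
def mk3 (i : Fin 3) (a b c : ℝ × ℝ) : W := fun j => if j = i then a else if j = i + 1 then b else c

lemma mk3_zero (i : Fin 3) (a b c : ℝ × ℝ) : mk3 i a b c i = a := by simp [mk3]

lemma mk3_one (i : Fin 3) (a b c : ℝ × ℝ) : mk3 i a b c (i + 1) = b := by simp [mk3]

lemma mk3_two (i : Fin 3) (a b c : ℝ × ℝ) : mk3 i a b c (i + 2) = c := by
  have h1 : ∀ i : Fin 3, i + 2 ≠ i ∧ i + 2 ≠ i + 1 := by decide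
  simp only [mk3]
  rw [if_neg (h1 i).1, if_neg (h1 i).2]

lemma mk3_self (i : Fin 3) (w : W) : mk3 i (w i) (w (i + 1)) (w (i + 2)) = w := by
  have h1 : ∀ i j : Fin 3, j = i ∨ j = i + 1 ∨ j = i + 2 := by decide
  funext j
  rcases h1 i j with rfl | rfl | rfl
  · exact mk3_zero ..
  · exact mk3_one ..
  · exact mk3_two ..

/-- There is a differentiable path through `(a, b, c)` with the property `P`. -/
def RegPath (a b c : ℝ × ℝ) (P : (ℝ → ℝ × ℝ) → (ℝ → ℝ × ℝ) → (ℝ → ℝ × ℝ) → Prop) : Prop :=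
  ∃ p q r, (DifferentiableAt ℝ p 0 ∧ DifferentiableAt ℝ q 0 ∧ DifferentiableAt ℝ r 0) ∧
    (p 0 = a ∧ q 0 = b ∧ r 0 = c) ∧ P p q r

lemma RegPath.curve {i : Fin 3} {w : W} {P : (ℝ → ℝ × ℝ) → (ℝ → ℝ × ℝ) → (ℝ → ℝ × ℝ) → Prop}
    (h : RegPath (w i) (w (i + 1)) (w (i + 2)) P) :
    ∃ γ : ℝ → W, DifferentiableAt ℝ γ 0 ∧ γ 0 = w ∧
      P (fun τ => γ τ i) (fun τ => γ τ (i + 1)) (fun τ => γ τ (i + 2)) := by
  obtain ⟨p, q, r, ⟨hp, hq, hr⟩, ⟨p0, q0, r0⟩, hP⟩ := h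
  refine ⟨fun τ => mk3 i (p τ) (q τ) (r τ), differentiableAt_pi.2 fun j => ?_, ?_, ?_⟩
  · simp only [mk3]
    split_ifs
    exacts [hp, hq, hr]
  · simp only [p0, q0, r0, mk3_self]
  · simpa only [mk3_zero, mk3_one, mk3_two] using hP

lemma reg_of (i : Fin 3) (T : Set W) (G F : ℝ × ℝ → ℝ × ℝ → ℝ × ℝ → ℝ)
    (hG : ContDiff ℝ ∞ fun w : W => G (w i) (w (i + 1)) (w (i + 2)))
    (hF : ContDiff ℝ ∞ fun w : W => F (w i) (w (i + 1)) (w (i + 2)))
    (hT : ∀ w, w ∈ T ↔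
      G (w i) (w (i + 1)) (w (i + 2)) = 0 ∧ F (w i) (w (i + 1)) (w (i + 2)) = 0)
    (h : ∀ a b c, sq2 a + sq2 b + sq2 c = 4096 → G a b c = 0 → F a b c = 0 →
      RegPath a b c (fun p q r => ∃ d ≠ 0,
        HasDerivAt (fun τ => sq2 (p τ) + sq2 (q τ) + sq2 (r τ)) d 0 ∧
        HasDerivAt (fun τ => G (p τ) (q τ) (r τ)) 0 0 ∧
        HasDerivAt (fun τ => F (p τ) (q τ) (r τ)) 0 0) ∧
      RegPath a b c (fun p q r => ∃ d ≠ 0, HasDerivAt (fun τ => G (p τ) (q τ) (r τ)) d 0 ∧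
        HasDerivAt (fun τ => F (p τ) (q τ) (r τ)) 0 0) ∧
      RegPath a b c (fun p q r => ∃ d ≠ 0, HasDerivAt (fun τ => F (p τ) (q τ) (r τ)) d 0)) :
    RegLevel (Sph ∩ T) := by
  have hS : ∀ w : W, w ∈ Sph ↔ sq2 (w i) + sq2 (w (i + 1)) + sq2 (w (i + 2)) - 4096 = 0 := by
    intro w
    refine ⟨fun hw => by linarith [Sph_sum hw i], fun hw => ?_⟩
    show sq2 (w 0) + sq2 (w 1) + sq2 (w 2) = 4096
    fin_cases i <;> simp at hw <;> linarith
  set Φ : W → Fin 3 → ℝ := fun w => ![sq2 (w i) + sq2 (w (i + 1)) + sq2 (w (i + 2)) - 4096,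
    G (w i) (w (i + 1)) (w (i + 2)), F (w i) (w (i + 1)) (w (i + 2))] with hΦ
  have hc : ContDiff ℝ ∞ Φ := by
    refine contDiff_pi.2 fun a => ?_
    fin_cases a
    · show ContDiff ℝ ∞ fun w : W => sq2 (w i) + sq2 (w (i + 1)) + sq2 (w (i + 2)) - 4096
      unfold sq2
      fun_prop
    · exact hG
    · exact hF
  refine ⟨Φ, hc, fun w => ?_, fun w => ?_, fun w hw => ?_⟩
  · rw [mem_inter_iff, hS, hT, funext_iff, Fin.forall_fin_succ, Fin.forall_fin_succ,
      Fin.forall_fin_one]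
    rfl
  · show sq2 (w i) + sq2 (w (i + 1)) + sq2 (w (i + 2)) - 4096 = _
    fin_cases i <;> simp <;> ring
  · have hd := hc.differentiable (by simp) w
    obtain ⟨h1, h2, h3⟩ := h _ _ _ (Sph_sum hw.1 i) ((hT w).1 hw.2).1 ((hT w).1 hw.2).2
    obtain ⟨γ1, a1, b1, d1, n1, k11, k12, k13⟩ := h1.curve
    obtain ⟨γ2, a2, b2, d2, n2, k22, k23⟩ := h2.curve
    obtain ⟨γ3, a3, b3, d3, n3, k33⟩ := h3.curve
    refine reg_surj_tri _ (e1 := deriv γ1 0) (e2 := deriv γ2 0) (e3 := deriv γ3 0) ?_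
      (reg_fderiv_curve hd a1 b1 1 k12) (reg_fderiv_curve hd a1 b1 2 k13) ?_
      (reg_fderiv_curve hd a2 b2 2 k23) ?_
    · rw [reg_fderiv_curve hd a1 b1 0 (k11.sub_const 4096)]; exact n1
    · rw [reg_fderiv_curve hd a2 b2 1 k22]; exact n2
    · rw [reg_fderiv_curve hd a3 b3 2 k33]; exact n3

lemma reg_line (s v : ℝ) : HasDerivAt (fun τ : ℝ => s + τ * v) v 0 := by
  simpa using ((hasDerivAt_id (0 : ℝ)).mul_const v).const_add s

lemma reg_rp (u v : ℝ) (h : 0 < u → 0 < v) :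
    ∃ D, HasDerivAt (fun τ : ℝ => rp (u + τ * v)) D 0 ∧ 0 ≤ D ∧ (0 < rp u → 0 < D) ∧
      (rp u = 0 → D = 0) := by
  have h1 : HasDerivAt rp (deriv rp u) (u + 0 * v) := by
    rw [zero_mul, add_zero]
    exact ((contDiff_rp (n := 1)).differentiable (by simp) u).hasDerivAt
  refine ⟨deriv rp u * v, HasDerivAt.comp (h₂ := rp) 0 h1 (reg_line u v), ?_⟩
  rcases le_or_gt u 0 with hu | hu
  · simp [deriv_rp_of_nonpos hu, rp_of_nonpos hu]
  · have h2 := mul_pos (deriv_rp_pos hu) (h hu)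
    exact ⟨h2.le, fun _ => h2, fun h3 => absurd h3 (rp_pos hu).ne'⟩

lemma reg_rect {a b c m : ℝ} (ha : a ≤ m) (hb : m ≤ b) (hc : 0 ≤ c) (s t : ℝ) :
    ∃ D, HasDerivAt (fun τ : ℝ => rect a b c (s + τ * (s - m)) (t + τ * t)) D 0 ∧
      (0 < rect a b c s t → 0 < D) ∧ (rect a b c s t = 0 → D = 0) := by
  obtain ⟨D1, a1, b1, c1, d1⟩ := reg_rp (a - s) (m - s) fun _ => by linarith
  obtain ⟨D2, a2, b2, c2, d2⟩ := reg_rp (s - b) (s - m) fun _ => by linarith
  obtain ⟨D3, a3, b3, c3, d3⟩ := reg_rp (t - c) t fun _ => by linarith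
  obtain ⟨D4, a4, b4, c4, d4⟩ := reg_rp (-t - c) (-t) fun _ => by linarith
  have n1 := rp_nonneg (a - s)
  have n2 := rp_nonneg (s - b)
  have n3 := rp_nonneg (t - c)
  have n4 := rp_nonneg (-t - c)
  refine ⟨D1 + D2 + D3 + D4, ?_, fun h => ?_, fun h => ?_⟩
  · have e : (fun τ : ℝ => rect a b c (s + τ * (s - m)) (t + τ * t)) = fun τ =>
        rp (a - s + τ * (m - s)) + rp (s - b + τ * (s - m)) + rp (t - c + τ * t)
          + rp (-t - c + τ * -t) := by
      funext τ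
      unfold rect
      rw [show a - (s + τ * (s - m)) = a - s + τ * (m - s) by ring,
        show s + τ * (s - m) - b = s - b + τ * (s - m) by ring,
        show t + τ * t - c = t - c + τ * t by ring,
        show -(t + τ * t) - c = -t - c + τ * -t by ring]
    rw [e]
    exact ((a1.add a2).add a3).add a4
  · unfold rect at h
    by_contra hD
    have z1 : ¬ 0 < rp (a - s) := fun k => hD (by linarith [c1 k])
    have z2 : ¬ 0 < rp (s - b) := fun k => hD (by linarith [c2 k])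
    have z3 : ¬ 0 < rp (t - c) := fun k => hD (by linarith [c3 k])
    have z4 : ¬ 0 < rp (-t - c) := fun k => hD (by linarith [c4 k])
    linarith
  · unfold rect at h
    rw [d1 (by linarith), d2 (by linarith), d3 (by linarith), d4 (by linarith)]
    ring

lemma reg_bump {a b c m : ℝ} (ha : a ≤ m) (hb : m ≤ b) (hc : 0 ≤ c) (s t : ℝ) :
    ∃ D, HasDerivAt (fun τ : ℝ => bump (rect a b c (s + τ * (s - m)) (t + τ * t))) D 0 ∧
      (bump (rect a b c s t) = 0 → D = 0) ∧ (bump (rect a b c s t) = 1 → D < 0) := by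
  obtain ⟨D, h1, h2, -⟩ := reg_rect ha hb hc s t
  have h3 : HasDerivAt rp (deriv rp (2 - rect a b c s t))
      (2 - rect a b c (s + 0 * (s - m)) (t + 0 * t)) := by
    rw [zero_mul, zero_mul, add_zero, add_zero]
    exact ((contDiff_rp (n := 1)).differentiable (by simp) _).hasDerivAt
  refine ⟨deriv rp (2 - rect a b c s t) * -D, h3.comp 0 (h1.const_sub 2), fun h => ?_, fun h => ?_⟩
  · rw [deriv_rp_of_nonpos (not_lt.1 fun k => (rp_pos k).ne' h), zero_mul]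
  · have h4 : 2 - rect a b c s t = 1 := rp_eq_one.1 h
    have h5 := h2 (by linarith)
    rw [h4]
    exact mul_neg_of_pos_of_neg (deriv_rp_pos one_pos) (by linarith)

lemma reg_ring {a b c a' b' c' m : ℝ} (ha : a' ≤ m) (hb : m ≤ b') (hc : 0 ≤ c')
    (haa : a ≤ a' - 2) (hbb : b' + 2 ≤ b) (hcc : c' + 2 ≤ c) {s t : ℝ}
    (h : rect a b c s t + bump (rect a' b' c' s t) = 1) :
    ∃ D ≠ 0, HasDerivAt (fun τ : ℝ => rect a b c (s + τ * (s - m)) (t + τ * t)
      + bump (rect a' b' c' (s + τ * (s - m)) (t + τ * t))) D 0 := by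
  obtain ⟨D, h1, h2, h3⟩ := reg_rect (a := a) (b := b) (c := c) (m := m) (by linarith)
    (by linarith) (by linarith) s t
  obtain ⟨E, k1, k2, k3⟩ := reg_bump ha hb hc s t
  refine ⟨D + E, ?_, h1.add k1⟩
  rcases (rect_nonneg a b c s t).eq_or_lt with h0 | h0
  · have := k3 (by linarith)
    rw [h3 h0.symm]
    linarith
  · have h4 : bump (rect a' b' c' s t) = 0 := by
      refine bump_of_two_le (two_le_rect ?_)
      by_contra hn
      push Not at hn
      exact h0.ne' (rect_eq_zero (by linarith [hn.1]) (by linarith [hn.2.1])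
        (by linarith [hn.2.2.1]) (by linarith [hn.2.2.2]))
    have := h2 h0
    rw [k2 h4]
    linarith

/-- Radial path. -/
def rad (z : ℝ × ℝ) (τ : ℝ) : ℝ × ℝ := (z.1 + τ * (z.1 - 0), z.2 + τ * z.2)

lemma rad_zero (z : ℝ × ℝ) : rad z 0 = z := by simp [rad]

lemma rad_diff (z : ℝ × ℝ) : DifferentiableAt ℝ (rad z) 0 := by unfold rad; fun_prop

lemma reg_sq (s v k : ℝ) : HasDerivAt (fun τ : ℝ => ((s + τ * v) * k) ^ 2) (2 * (s * v * k ^ 2)) 0 := by
  refine (((reg_line s v).mul_const k).pow 2).congr_deriv ?_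
  simp
  ring

lemma rad_sq2 (z : ℝ × ℝ) : HasDerivAt (fun τ => sq2 (rad z τ)) (2 * sq2 z) 0 := by
  have h := (reg_sq z.1 (z.1 - 0) 1).add (reg_sq z.2 z.2 1)
  simp only [mul_one] at h
  refine h.congr_deriv ?_
  unfold sq2
  ring

lemma rad_bA (z : ℝ × ℝ) : ∃ D, HasDerivAt (fun τ => bA (rad z τ)) D 0 ∧
    (bA z = 0 → D = 0) ∧ (bA z = 1 → D < 0) :=
  reg_bump (by norm_num) (by norm_num) (by norm_num) z.1 z.2

lemma rad_bB (z : ℝ × ℝ) : ∃ D, HasDerivAt (fun τ => bB (rad z τ)) D 0 ∧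
    (bB z = 0 → D = 0) ∧ (bB z = 1 → D < 0) :=
  reg_bump (by norm_num) (by norm_num) (by norm_num) z.1 z.2

@[fun_prop]
lemma reg_contDiff_st {n : ℕ∞} : ContDiff ℝ n Real.smoothTransition :=
  Real.smoothTransition.contDiff

theorem reg_T0 : RegLevel (Sph ∩ T0) := by
  refine reg_of 0 T0 (fun a b _ => sq2 a - sq2 b) (fun _ b c => sq2 b - sq2 c)
    (by unfold sq2; fun_prop) (by unfold sq2; fun_prop)
    (fun w => by simp only [sub_eq_zero]; rfl) fun a b c hs hg hf => ⟨?_, ?_, ?_⟩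
  · refine ⟨rad a, rad b, rad c, ⟨rad_diff _, rad_diff _, rad_diff _⟩,
      ⟨rad_zero _, rad_zero _, rad_zero _⟩, _, ?_, ((rad_sq2 a).add (rad_sq2 b)).add (rad_sq2 c),
      ((rad_sq2 a).sub (rad_sq2 b)).congr_deriv ?_, ((rad_sq2 b).sub (rad_sq2 c)).congr_deriv ?_⟩
    · intro h; linarith
    · linarith
    · linarith
  · refine ⟨rad a, fun _ => b, fun _ => c, ⟨rad_diff _, by fun_prop, by fun_prop⟩,
      ⟨rad_zero _, rfl, rfl⟩, _, ?_, (rad_sq2 a).sub_const _, hasDerivAt_const _ _⟩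
    intro h; linarith
  · refine ⟨fun _ => a, fun _ => b, rad c, ⟨by fun_prop, by fun_prop, rad_diff _⟩,
      ⟨rfl, rfl, rad_zero _⟩, _, ?_, (rad_sq2 c).const_sub _⟩
    intro h; linarith

theorem reg_TU (j : Fin 3) : RegLevel (Sph ∩ TU j) := by
  refine reg_of j (TU j) (fun a _ _ => a.1) (fun a b c => a.2 ^ 2 + 25 * bA b + 25 * bB c - 25)
    (by fun_prop) (by unfold bA bB bump rect; fun_prop) (fun w => Iff.rfl)
    fun a b c hs hg hf => ?_
  have nA : 0 ≤ bA b := bump_nonneg _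
  have nB : 0 ≤ bB c := bump_nonneg _
  have ha : sq2 a ≤ 25 := by unfold sq2; rw [hg]; linarith
  obtain ⟨DA, a1, a2, a3⟩ := rad_bA b
  obtain ⟨DB, b1, b2, b3⟩ := rad_bB c
  have kA := (((a1.const_mul 25).const_add (a.2 ^ 2)).add_const (25 * bB c)).sub_const 25
  have kB := ((b1.const_mul 25).const_add (a.2 ^ 2 + 25 * bA b)).sub_const 25
  refine ⟨?_, ?_, ?_⟩
  · rcases le_total 100 (sq2 b) with h | h
    · refine ⟨fun _ => a, rad b, fun _ => c, ⟨by fun_prop, rad_diff _, by fun_prop⟩,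
        ⟨rfl, rad_zero _, rfl⟩, _, ?_, ((rad_sq2 b).const_add _).add_const _,
        hasDerivAt_const _ _, kA.congr_deriv ?_⟩
      · intro k; linarith
      · rw [a2 (bA_of_big h), mul_zero]
    · refine ⟨fun _ => a, fun _ => b, rad c, ⟨by fun_prop, by fun_prop, rad_diff _⟩,
        ⟨rfl, rfl, rad_zero _⟩, _, ?_, (rad_sq2 c).const_add _,
        hasDerivAt_const _ _, kB.congr_deriv ?_⟩
      · intro k; linarith
      · rw [b2 (bB_of_big (by linarith)), mul_zero]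
  · exact ⟨fun τ => (a.1 + τ * 1, a.2), fun _ => b, fun _ => c,
      ⟨by fun_prop, by fun_prop, by fun_prop⟩, ⟨by simp, rfl, rfl⟩, 1, one_ne_zero,
      reg_line _ _, hasDerivAt_const _ (a.2 ^ 2 + 25 * bA b + 25 * bB c - 25)⟩
  · by_cases hy : a.2 = 0
    · rw [hy] at hf
      rcases le_total 100 (sq2 b) with h | h
      · refine ⟨fun _ => a, fun _ => b, rad c, ⟨by fun_prop, by fun_prop, rad_diff _⟩,
          ⟨rfl, rfl, rad_zero _⟩, _, ?_, kB⟩
        have := b3 (by linarith [bA_of_big h])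
        intro k; linarith
      · refine ⟨fun _ => a, rad b, fun _ => c, ⟨by fun_prop, rad_diff _, by fun_prop⟩,
          ⟨rfl, rad_zero _, rfl⟩, _, ?_, kA⟩
        have := a3 (by linarith [bB_of_big (z := c) (by linarith)])
        intro k; linarith
    · have h := reg_sq a.2 a.2 1
      simp only [mul_one] at h
      exact ⟨fun τ => (a.1, a.2 + τ * a.2), fun _ => b, fun _ => c,
        ⟨by fun_prop, by fun_prop, by fun_prop⟩, ⟨by simp, rfl, rfl⟩,
        2 * (a.2 * a.2 * 1 ^ 2), by positivity,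
        ((h.add_const _).add_const _).sub_const _⟩

theorem reg_T1 (i : Fin 3) : RegLevel (Sph ∩ T1 i) := by
  refine reg_of i (T1 i) (fun _ b _ => b.2) (fun _ b c => f1 b.1 c.1 c.2)
    (by fun_prop) (by unfold f1 kap bump rect; fun_prop) (fun w => Iff.rfl)
    fun a b c hs hg hf => ⟨?_, ?_, ?_⟩
  · obtain ⟨⟨h1, h2⟩, ⟨h3, h4⟩, h5⟩ := f1_bounds hf
    have hb : sq2 b ≤ 1100 := by unfold sq2; rw [hg]; nlinarith
    have hc : sq2 c ≤ 200 := by unfold sq2; nlinarith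
    refine ⟨rad a, fun _ => b, fun _ => c, ⟨rad_diff _, by fun_prop, by fun_prop⟩,
      ⟨rad_zero _, rfl, rfl⟩, _, ?_, ((rad_sq2 a).add_const _).add_const _,
      hasDerivAt_const _ _, hasDerivAt_const _ _⟩
    intro k; linarith
  · exact ⟨fun _ => a, fun τ => (b.1, b.2 + τ * 1), fun _ => c,
      ⟨by fun_prop, by fun_prop, by fun_prop⟩, ⟨rfl, by simp, rfl⟩, 1, one_ne_zero,
      reg_line _ _, hasDerivAt_const _ (f1 b.1 c.1 c.2)⟩
  · by_cases hv : c.2 = 0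
    · obtain ⟨D, hD, h⟩ := reg_ring (a := -21) (b := 2) (c := 9) (a' := -4) (b' := -2) (c' := 0)
        (m := -3) (by norm_num) (by norm_num) (by norm_num) (by norm_num) (by norm_num)
        (by norm_num) (s := b.1) (t := c.1) (by unfold f1 at hf; rw [hv] at hf; linarith)
      refine ⟨fun _ => a, fun τ => (b.1 + τ * (b.1 - -3), b.2), fun τ => (c.1 + τ * c.1, c.2),
        ⟨by fun_prop, by fun_prop, by fun_prop⟩, ⟨rfl, by simp, by simp⟩, 64 * D, by positivity, ?_⟩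
      have e := (h.const_mul 64).sub_const 64
      refine e.congr_of_eventuallyEq (Filter.Eventually.of_forall fun τ => ?_)
      simp only [f1, hv]
      ring
    · have hk : kap b.1 ≠ 0 := by linarith [kap_ge b.1]
      exact ⟨fun _ => a, fun _ => b, fun τ => (c.1, c.2 + τ * c.2),
        ⟨by fun_prop, by fun_prop, by fun_prop⟩, ⟨rfl, rfl, by simp⟩,
        2 * (c.2 * c.2 * kap b.1 ^ 2), by positivity,
        (((reg_sq c.2 c.2 (kap b.1)).add_const (64 * rect (-21) 2 9 b.1 c.1)).add_const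
          (64 * bump (rect (-4) (-2) 0 b.1 c.1))).sub_const 64⟩

theorem reg_T2 (i : Fin 3) : RegLevel (Sph ∩ T2 i) := by
  refine reg_of i (T2 i) (fun _ _ c => c.2) (fun _ b c => f2 b.1 b.2 c.1)
    (by fun_prop) (by unfold f2 shr bump rect; fun_prop) (fun w => Iff.rfl)
    fun a b c hs hg hf => ⟨?_, ?_, ?_⟩
  · obtain ⟨⟨h1, h2⟩, ⟨h3, h4⟩, h5⟩ := f2_bounds hf
    have hb : sq2 b ≤ 1100 := by unfold sq2; nlinarith
    have hc : sq2 c ≤ 200 := by unfold sq2; rw [hg]; nlinarith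
    refine ⟨rad a, fun _ => b, fun _ => c, ⟨rad_diff _, by fun_prop, by fun_prop⟩,
      ⟨rad_zero _, rfl, rfl⟩, _, ?_, ((rad_sq2 a).add_const _).add_const _,
      hasDerivAt_const _ _, hasDerivAt_const _ _⟩
    intro k; linarith
  · exact ⟨fun _ => a, fun _ => b, fun τ => (c.1, c.2 + τ * 1),
      ⟨by fun_prop, by fun_prop, by fun_prop⟩, ⟨rfl, rfl, by simp⟩, 1, one_ne_zero,
      reg_line _ _, hasDerivAt_const _ (f2 b.1 b.2 c.1)⟩
  · by_cases hv : b.2 = 0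
    · obtain ⟨D, hD, h⟩ := reg_ring (a := -32) (b := 6) (c := 11) (a' := -19) (b' := -9) (c' := 7)
        (m := -14) (by norm_num) (by norm_num) (by norm_num) (by norm_num) (by norm_num)
        (by norm_num) (s := b.1 - shr c.1) (t := c.1)
        (by unfold f2 at hf; rw [hv] at hf; linarith)
      have hshr : Differentiable ℝ shr :=
        ContDiff.differentiable (n := ((1 : ℕ∞) : WithTop ℕ∞)) (by unfold shr; fun_prop) (by simp)
      refine ⟨fun _ => a,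
        fun τ => (b.1 - shr c.1 + τ * (b.1 - shr c.1 - -14) + shr (c.1 + τ * c.1), b.2),
        fun τ => (c.1 + τ * c.1, c.2),
        ⟨by fun_prop, by fun_prop, by fun_prop⟩, ⟨rfl, by simp, by simp⟩, 9 * D, by positivity, ?_⟩
      have e := (h.const_mul 9).sub_const 9
      refine e.congr_of_eventuallyEq (Filter.Eventually.of_forall fun τ => ?_)
      simp only [f2, hv, add_sub_cancel_right]
      ring
    · have h := reg_sq b.2 b.2 1
      simp only [mul_one] at h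
      exact ⟨fun _ => a, fun τ => (b.1, b.2 + τ * b.2), fun _ => c,
        ⟨by fun_prop, by fun_prop, by fun_prop⟩, ⟨rfl, by simp, rfl⟩,
        2 * (b.2 * b.2 * 1 ^ 2), by positivity,
        ((h.add_const (9 * rect (-32) 6 11 (b.1 - shr c.1) c.1)).add_const
          (9 * bump (rect (-19) (-9) 7 (b.1 - shr c.1) c.1))).sub_const 9⟩

end Pool.Agent.MP_a61dd1_gt

end

-- part MP_a61dd1_gt.Geom
section

/-! The chambers of the link complement in the cube boundary. -/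

namespace Pool.Agent.MP_a61dd1_gt

open Set

def sg (b : Bool) (t : ℝ) : Prop := if b then 0 ≤ t else t ≤ 0

lemma sg_zero (b) : sg b 0 := by cases b <;> simp [sg]

lemma sg_ne {a b : Bool} {t} (h : sg a t) (h' : sg b t) (e : a ≠ b) : t = 0 := by
  cases a <;> cases b <;> simp_all [sg] <;> linarith

lemma isClosed_sg (b) {f : W → ℝ} (hf : Continuous f) : IsClosed {w | sg b (f w)} := by
  cases b
  · exact isClosed_le hf continuous_const
  · exact isClosed_le continuous_const hf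

def CW (c : Ch) : Set W := {w | ‖w c.1‖ = 36 ∧ fold c.1 w ∈ Sd (c.2.1 (c.1 + 1)) ∧
  (∀ j, sg (c.2.2 j) (w j).2) ∧ sg (c.2.1 c.1) (w c.1).1 ∧ sg (c.2.1 (c.1 + 2)) (w (c.1 + 2)).1}

def FN (i : Fin 3) (r : Bool) : Nf → Set W
  | .X => {w | (w i).1 = 0}
  | .Y => {w | (w i).2 = 0}
  | .q n => fold i ⁻¹' Fc r n

def FW (c : Ch) (n : Nf) : Set W := CW c ∩ FN c.1 (c.2.1 (c.1 + 1)) n

def XC : Set W := Cub \ LkC

variable {c : Ch} {w : W} {i : Fin 3} {ξ η : B3}

lemma CW_sub (h : w ∈ CW c) : w ∈ XC :=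
  ⟨cub_iff.2 ⟨_, h.1, (Sd_big h.2.1).1⟩,
    fun h' => (Sd_big h.2.1).2 ((link_iff h.1 (Sd_big h.2.1).1).1 h')⟩

lemma not_Lam (h : w ∈ XC) (hi : ‖w i‖ = 36) : ¬ Lam (fold i w) :=
  fun h' => h.2 ((link_iff hi (big_of_cub h.1 i)).2 h')

lemma Sd_iff (h : w ∈ XC) (hi : ‖w i‖ = 36) (hj : ‖w (i + 1)‖ = 36 ∨ ‖w (i + 2)‖ = 36) (r) :
    fold i w ∈ Sd r ↔ sg r (w (i + 1)).1 := by
  have hb := big_of_cub h.1 i
  have := Sd_x (hj.imp (FA_iff hb).2 (FB_iff hb).2) hb (not_Lam h hi)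
  cases r
  exacts [this.2, this.1]

lemma CW_two (h : w ∈ XC) (hi : ‖w i‖ = 36) (hj : ‖w (i + 1)‖ = 36 ∨ ‖w (i + 2)‖ = 36) :
    w ∈ CW (i, ξ, η) ↔ (∀ j, sg (ξ j) (w j).1) ∧ ∀ j, sg (η j) (w j).2 := by
  simp only [CW, mem_ofPred_eq, hi, Sd_iff h hi hj, true_and]
  refine ⟨fun h => ⟨fun j => ?_, h.2.1⟩, fun h => ⟨h.1 _, h.2, h.1 _, h.1 _⟩⟩
  rcases fin3_cases i j with rfl | rfl | rfl
  exacts [h.2.2.1, h.1, h.2.2.2]

lemma FW_adj {n m} (hn : w ∈ FW c n) (hm : w ∈ FW c m) (h : n ≠ m) :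
    adjF (c.2.1 (c.1 + 1)) n m = true := by
  have hXY : ¬ ((w c.1).1 = 0 ∧ (w c.1).2 = 0) := fun h => by
    have := hn.1.1
    rw [norm_eq, h.1, h.2] at this
    norm_num at this
  rcases n with _ | _ | n <;> rcases m with _ | _ | m
  any_goals rfl
  any_goals exact absurd rfl h
  · exact absurd ⟨hn.2, hm.2⟩ hXY
  · exact absurd ⟨hm.2, hn.2⟩ hXY
  · exact Fc_adj hn.1.2.1 hn.2 hm.2 fun e => h (e ▸ rfl)

attribute [local irreducible] Fc Sd PH Lam

section
variable {r : Bool} {p : Ax → ℝ} (h : p ∈ Sd r)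
include h

lemma iff_a : p ∈ Fc r .a ↔ FA p := (mem_Fc h).1
lemma iff_b : p ∈ Fc r .b ↔ FB p := (mem_Fc h).2.1
lemma iff_x : p ∈ Fc r .x ↔ p ∈ Sd (!r) ∧ 0 < (PH .x).ev p := (mem_Fc h).2.2.1
lemma iff_x1 : p ∈ Fc r .x1 ↔ p ∈ Sd (!r) ∧ (PH .x).ev p < 0 := (mem_Fc h).2.2.2.1
lemma iff_y : p ∈ Fc r .y ↔ p .y = 0 ∧ 0 < (PH .y).ev p := (mem_Fc h).2.2.2.2.1
lemma iff_y1 : p ∈ Fc r .y1 ↔ p .y = 0 ∧ (PH .y).ev p < 0 := (mem_Fc h).2.2.2.2.2.1
lemma iff_u : p ∈ Fc r .u ↔ p .u = 0 ∧ 0 < (PH .u).ev p := (mem_Fc h).2.2.2.2.2.2.1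
lemma iff_u1 : p ∈ Fc r .u1 ↔ r = true ∧ p .x ≤ -10 ∧ p .u = 0 ∧ (PH .u).ev p < 0 :=
  (mem_Fc h).2.2.2.2.2.2.2.1
lemma iff_u2 : p ∈ Fc r .u2 ↔ (r = true → -9 ≤ p .x) ∧ p .u = 0 ∧ (PH .u).ev p < 0 :=
  (mem_Fc h).2.2.2.2.2.2.2.2.1
lemma iff_v : p ∈ Fc r .v ↔ p .v = 0 ∧ 0 < (PH .v).ev p := (mem_Fc h).2.2.2.2.2.2.2.2.2.1
lemma iff_v1 : p ∈ Fc r .v1 ↔ p .v = 0 ∧ (PH .v).ev p < 0 := (mem_Fc h).2.2.2.2.2.2.2.2.2.2

lemma PH_ne {k} (e : p k = 0) : 0 < (PH k).ev p ∨ (PH k).ev p < 0 :=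
  (lt_or_gt_of_ne fun h' => (Sd_big h).2 (by unfold Lam; exact Or.inl ⟨k, e, h'⟩)).symm

lemma mem_y (e : p .y = 0) : p ∈ Fc r .y ∨ p ∈ Fc r .y1 :=
  (PH_ne h e).imp (fun h' => (iff_y h).2 ⟨e, h'⟩) fun h' => (iff_y1 h).2 ⟨e, h'⟩

lemma mem_v (e : p .v = 0) : p ∈ Fc r .v ∨ p ∈ Fc r .v1 :=
  (PH_ne h e).imp (fun h' => (iff_v h).2 ⟨e, h'⟩) fun h' => (iff_v1 h).2 ⟨e, h'⟩

lemma mem_x (e : p ∈ Sd (!r)) : p ∈ Fc r .x ∨ p ∈ Fc r .x1 := by
  have : (PH .x).ev p ≠ 0 := by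
    cases r
    exacts [wall_ne h e, wall_ne e h]
  exact (lt_or_gt_of_ne this).symm.imp (fun h' => (iff_x h).2 ⟨e, h'⟩)
    fun h' => (iff_x1 h).2 ⟨e, h'⟩

lemma mem_u' (e : p .u = 0 ∧ (PH .u).ev p < 0) : p ∈ Fc r .u1 ∨ p ∈ Fc r .u2 := by
  cases r
  · exact Or.inr ((iff_u2 h).2 ⟨by simp, e⟩)
  · exact (Sd_u h e.1).imp (fun h' => (iff_u1 h).2 ⟨rfl, h', e⟩)
      fun h' => (iff_u2 h).2 ⟨fun _ => h', e⟩

lemma mem_u (e : p .u = 0) : p ∈ Fc r .u ∨ p ∈ Fc r .u1 ∨ p ∈ Fc r .u2 :=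
  (PH_ne h e).imp (fun h' => (iff_u h).2 ⟨e, h'⟩) fun h' => mem_u' h ⟨e, h'⟩

end

lemma not_both {r p n m} (h : p ∈ Sd r) (hn : p ∈ Fc r n)
    (e : ∀ r, n ≠ m ∧ adjQ r n m = false) : p ∉ Fc r m :=
  fun hm => by simpa [(e r).2] using Fc_adj h hn hm (e r).1

lemma fin3_ne (i : Fin 3) : i + 1 ≠ i ∧ i + 2 ≠ i ∧ i + 2 ≠ i + 1 := by revert i; decide

lemma CW_eta (h : w ∈ CW (i, ξ, η)) {j} (e : (w j).2 = 0) : w ∈ CW (i, ξ, flp η j) := by
  refine ⟨h.1, h.2.1, fun k => ?_, h.2.2.2⟩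
  by_cases hk : k = j
  · rw [hk, e]; exact sg_zero _
  · simpa [flp, hk] using h.2.2.1 k

lemma CW_xi (h : w ∈ CW (i, ξ, η)) {j} (hj : j ≠ i + 1) (e : (w j).1 = 0) :
    w ∈ CW (i, flp ξ j, η) ∧ flp ξ j (i + 1) = ξ (i + 1) := by
  have e1 : flp ξ j (i + 1) = ξ (i + 1) := by simp [flp, hj.symm]
  have : ∀ k, sg (ξ k) (w k).1 → sg (flp ξ j k) (w k).1 := fun k hk => by
    by_cases hk' : k = j
    · rw [hk', e]; exact sg_zero _
    · simpa [flp, hk'] using hk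
  exact ⟨⟨h.1, by simpa [e1] using h.2.1, h.2.2.1, this _ h.2.2.2.1, this _ h.2.2.2.2⟩, e1⟩

lemma nxt_refl {n m} (h : n ≠ .q .a ∧ n ≠ .q .b ∧ n ≠ .q .x1) : nxtF n m = m := by
  revert n m; decide

lemma FW_eta {n m j} (hm : w ∈ FW (i, ξ, η) m) (hs : slotF i n = some (j, true))
    (e : (w j).2 = 0) (h : n ≠ .q .a ∧ n ≠ .q .b ∧ n ≠ .q .x1) :
    w ∈ FW (nbF (i, ξ, η) n) (nxtF n m) := by
  simp only [nbF, hs, nxt_refl h]
  exact ⟨CW_eta hm.1 e, hm.2⟩

lemma FW_xi {n m j} (hm : w ∈ FW (i, ξ, η) m) (hs : slotF i n = some (j, false)) (hj : j ≠ i + 1)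
    (e : (w j).1 = 0) (h : n ≠ .q .a ∧ n ≠ .q .b ∧ n ≠ .q .x1) :
    w ∈ FW (nbF (i, ξ, η) n) (nxtF n m) := by
  simp only [nbF, hs, nxt_refl h]
  exact ⟨(CW_xi hm.1 hj e).1, by simpa [(CW_xi hm.1 hj e).2] using hm.2⟩

lemma CW_x (h : w ∈ CW (i, ξ, η)) (e : fold i w ∈ Sd (!ξ (i + 1))) :
    w ∈ CW (i, flp ξ (i + 1), η) :=
  ⟨h.1, by simpa [flp] using e, h.2.2.1, by simpa [flp, (fin3_ne i).1.symm] using h.2.2.2.1,
    by simpa [flp, (fin3_ne i).2.2] using h.2.2.2.2⟩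

lemma Fc_same {r p m} (h : p ∈ Sd r) (e : p ∈ Sd (!r)) (hm : p ∈ Fc r m) (h1 : m ≠ .u1)
    (h2 : m ≠ .u2) : p ∈ Fc (!r) m := by
  have h' : p ∈ Sd (!!r) := by rwa [Bool.not_not]
  cases m
  case u1 => exact absurd rfl h1
  case u2 => exact absurd rfl h2
  case a => exact (iff_a e).2 ((iff_a h).1 hm)
  case b => exact (iff_b e).2 ((iff_b h).1 hm)
  case x => exact (iff_x e).2 ⟨h', ((iff_x h).1 hm).2⟩
  case x1 => exact (iff_x1 e).2 ⟨h', ((iff_x1 h).1 hm).2⟩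
  case y => exact (iff_y e).2 ((iff_y h).1 hm)
  case y1 => exact (iff_y1 e).2 ((iff_y1 h).1 hm)
  case u => exact (iff_u e).2 ((iff_u h).1 hm)
  case v => exact (iff_v e).2 ((iff_v h).1 hm)
  case v1 => exact (iff_v1 e).2 ((iff_v1 h).1 hm)

lemma Fc_x {r p m} (h : p ∈ Sd r) (hn : p ∈ Fc r .x) (hm : p ∈ Fc r m) : p ∈ Fc (!r) m := by
  have e := ((iff_x h).1 hn).1
  by_cases h1 : m = .u1
  · subst h1; exact absurd hm (not_both h hn (by decide))
  by_cases h2 : m = .u2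
  · subst h2
    exact (mem_u' e ((iff_u2 h).1 hm).2).resolve_left
      (not_both e (Fc_same h e hn (by decide) (by decide)) (by decide))
  exact Fc_same h e hm h1 h2

lemma Fc_x1 {r p m} (h : p ∈ Sd r) (hn : p ∈ Fc r .x1) (hm : p ∈ Fc r m) :
    p ∈ Fc (!r) (if m = .u1 then .u2 else if m = .u2 then .u1 else m) := by
  have e := ((iff_x1 h).1 hn).1
  split_ifs with h1 h2
  · subst h1
    obtain rfl := ((iff_u1 h).1 hm).1
    exact (mem_u' e ((iff_u1 h).1 hm).2.2).resolve_left fun h => by simpa [presQ] using Fc_pres h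
  · subst h2
    cases r
    · exact (mem_u' e ((iff_u2 h).1 hm).2).resolve_right fun h' => absurd
        (Fc_adj e (Fc_same h e hn (by decide) (by decide)) h' (by decide)) (by decide)
    · exact absurd (Fc_adj h hn hm (by decide)) (by decide)
  · exact Fc_same h e hm h1 h2

lemma FW_a {m} (hn : w ∈ FW (i, ξ, η) (.q .a)) (hm : w ∈ FW (i, ξ, η) m) :
    w ∈ FW (i + 1, ξ, η) (nxtF (.q .a) m) := by
  have hX := CW_sub hn.1
  have h0 : ‖w i‖ = 36 := hn.1.1
  have hs : fold i w ∈ Sd (ξ (i + 1)) := hn.1.2.1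
  have h1 : ‖w (i + 1)‖ = 36 := (FA_iff (Sd_big hs).1).1 ((iff_a hs).1 hn.2)
  have h0' : ‖w (i + 1 + 2)‖ = 36 := by rwa [(fin3 i).2.1]
  have hC : w ∈ CW (i + 1, ξ, η) :=
    (CW_two hX h1 (Or.inr h0')).2 ((CW_two hX h0 (Or.inl h1)).1 hn.1)
  have hs' : fold (i + 1) w ∈ Sd (ξ (i + 1 + 1)) := hC.2.1
  have hb : fold (i + 1) w ∈ Fc (ξ (i + 1 + 1)) .b := (iff_b hs').2 ((FB_iff (Sd_big hs').1).2 h0')
  have ev : (w (i + 2)).1 = 0 → (PH .x).ev (fold (i + 1) w) = (PH .u).ev (fold i w) := fun e => by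
    rw [ev_x, ev_u, (fin3 i).1, (fin3 i).2.1, bA_of_big (by linarith [sq2_of_norm h0]),
      bB_of_big (by linarith [sq2_of_norm h1]), rp_of_nonpos (by linarith)]; simp
  have sd : (w (i + 2)).1 = 0 → fold (i + 1) w ∈ Sd (!ξ (i + 1 + 1)) := fun e => by
    rw [Sd_iff hX h1 (Or.inr h0'), (fin3 i).1, e]; exact sg_zero _
  refine ⟨hC, ?_⟩
  rcases m with _ | _ | m
  · have e : fold (i + 1) w .u = 0 := by
      simp only [fold, (fin3 i).2.1, abs_eq_zero]; exact hm.2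
    exact (mem_u hs' e).resolve_right
      (not_or.2 ⟨not_both hs' hb (by decide), not_both hs' hb (by decide)⟩)
  · have e : fold (i + 1) w .v = 0 := by
      simp only [fold, (fin3 i).2.1, abs_eq_zero]; exact hm.2
    exact (mem_v hs' e).resolve_right (not_both hs' hb (by decide))
  have hm2 : fold i w ∈ Fc (ξ (i + 1)) m := hm.2
  cases m
  case a => exact hb
  case x =>
    exact sg_ne ((Sd_iff hX h0 (Or.inl h1) _).1 hs)
      ((Sd_iff hX h0 (Or.inl h1) _).1 ((iff_x hs).1 hm2).1) (by simp)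
  case y => exact abs_eq_zero.1 ((iff_y hs).1 hm2).1
  case u =>
    have := (iff_u hs).1 hm2
    have e := abs_eq_zero.1 this.1
    exact (iff_x hs').2 ⟨sd e, ev e ▸ this.2⟩
  case u2 =>
    have := ((iff_u2 hs).1 hm2).2
    have e := abs_eq_zero.1 this.1
    exact (iff_x1 hs').2 ⟨sd e, ev e ▸ this.2⟩
  case v =>
    have e : fold (i + 1) w .y = 0 := by
      simp only [fold, (fin3 i).1]; exact ((iff_v hs).1 hm2).1
    exact (mem_y hs' e).resolve_right (not_both hs' hb (by decide))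
  all_goals exact absurd hm2 (not_both hs hn.2 (by decide))

lemma FW_b {m} (hn : w ∈ FW (i, ξ, η) (.q .b)) (hm : w ∈ FW (i, ξ, η) m) :
    w ∈ FW (i + 2, ξ, η) (nxtF (.q .b) m) := by
  have hX := CW_sub hn.1
  have h0 : ‖w i‖ = 36 := hn.1.1
  have hs : fold i w ∈ Sd (ξ (i + 1)) := hn.1.2.1
  have h1 : ‖w (i + 2)‖ = 36 := (FB_iff (Sd_big hs).1).1 ((iff_b hs).1 hn.2)
  have h0' : ‖w (i + 2 + 1)‖ = 36 := by rwa [(fin3 i).2.2.1]
  have hC : w ∈ CW (i + 2, ξ, η) :=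
    (CW_two hX h1 (Or.inl h0')).2 ((CW_two hX h0 (Or.inr h1)).1 hn.1)
  have hs' : fold (i + 2) w ∈ Sd (ξ (i + 2 + 1)) := hC.2.1
  have hb : fold (i + 2) w ∈ Fc (ξ (i + 2 + 1)) .a := (iff_a hs').2 ((FA_iff (Sd_big hs').1).2 h0')
  have ev : (w (i + 1)).1 = 0 → (PH .u).ev (fold (i + 2) w) = (PH .x).ev (fold i w) := fun e => by
    rw [ev_x, ev_u, (fin3 i).2.2.2, (fin3 i).2.2.1, bA_of_big (by linarith [sq2_of_norm h1]),
      bB_of_big (by linarith [sq2_of_norm h0]), rp_of_nonpos (by linarith)]; simp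
  have x0 : fold i w ∈ Sd (!ξ (i + 1)) → (w (i + 1)).1 = 0 := fun e =>
    sg_ne ((Sd_iff hX h0 (Or.inr h1) _).1 hs) ((Sd_iff hX h0 (Or.inr h1) _).1 e) (by simp)
  have u0 : (w (i + 1)).1 = 0 → fold (i + 2) w .u = 0 := fun e => by
    simp only [fold, (fin3 i).2.2.2, e, abs_zero]
  refine ⟨hC, ?_⟩
  rcases m with _ | _ | m
  · refine (mem_x hs' ?_).resolve_right (not_both hs' hb (by decide))
    rw [Sd_iff hX h1 (Or.inl h0'), (fin3 i).2.2.1, show (w i).1 = 0 from hm.2]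
    exact sg_zero _
  · have e : fold (i + 2) w .y = 0 := by
      simp only [fold, (fin3 i).2.2.1, abs_eq_zero]; exact hm.2
    exact (mem_y hs' e).resolve_right (not_both hs' hb (by decide))
  have hm2 : fold i w ∈ Fc (ξ (i + 1)) m := hm.2
  cases m
  case b => exact hb
  case u => exact abs_eq_zero.1 ((iff_u hs).1 hm2).1
  case v => exact abs_eq_zero.1 ((iff_v hs).1 hm2).1
  case x =>
    have := (iff_x hs).1 hm2
    exact (iff_u hs').2 ⟨u0 (x0 this.1), ev (x0 this.1) ▸ this.2⟩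
  case x1 =>
    have := (iff_x1 hs).1 hm2
    exact (mem_u' hs' ⟨u0 (x0 this.1), ev (x0 this.1) ▸ this.2⟩).resolve_left
      (not_both hs' hb (by decide))
  case y =>
    have e : fold (i + 2) w .v = 0 := by
      simp only [fold, (fin3 i).2.2.2]; exact ((iff_y hs).1 hm2).1
    exact (mem_v hs' e).resolve_right (not_both hs' hb (by decide))
  all_goals exact absurd hm2 (not_both hs hn.2 (by decide))

lemma FW_nxt {n m} (hn : w ∈ FW c n) (hm : w ∈ FW c m) : w ∈ FW (nbF c n) (nxtF n m) := by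
  obtain ⟨i, ξ, η⟩ := c
  have hs : fold i w ∈ Sd (ξ (i + 1)) := hn.1.2.1
  rcases n with _ | _ | n
  · exact FW_xi hm rfl (fin3_ne i).1.symm hn.2 (by decide)
  · exact FW_eta hm rfl hn.2 (by decide)
  have hn2 : fold i w ∈ Fc (ξ (i + 1)) n := hn.2
  cases n
  case a => exact FW_a hn hm
  case b => exact FW_b hn hm
  case x =>
    rw [nxt_refl (by decide)]
    refine ⟨CW_x hn.1 ((iff_x hs).1 hn2).1, ?_⟩
    rcases m with _ | _ | m
    · exact hm.2
    · exact hm.2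
    · simpa [nbF, slotF, flp, FN] using Fc_x hs hn2 hm.2
  case x1 =>
    refine ⟨CW_x hn.1 ((iff_x1 hs).1 hn2).1, ?_⟩
    rcases m with _ | _ | m
    · exact hm.2
    · exact hm.2
    · have := Fc_x1 hs hn2 hm.2
      cases m <;> simpa [nbF, slotF, flp, FN, nxtF] using this
  case y => exact FW_eta hm rfl (abs_eq_zero.1 ((iff_y hs).1 hn2).1) (by decide)
  case y1 => exact FW_eta hm rfl (abs_eq_zero.1 ((iff_y1 hs).1 hn2).1) (by decide)
  case v => exact FW_eta hm rfl (abs_eq_zero.1 ((iff_v hs).1 hn2).1) (by decide)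
  case v1 => exact FW_eta hm rfl (abs_eq_zero.1 ((iff_v1 hs).1 hn2).1) (by decide)
  case u => exact FW_xi hm rfl (fin3_ne i).2.2 (abs_eq_zero.1 ((iff_u hs).1 hn2).1) (by decide)
  case u1 =>
    exact FW_xi hm rfl (fin3_ne i).2.2 (abs_eq_zero.1 ((iff_u1 hs).1 hn2).2.2.1) (by decide)
  case u2 =>
    exact FW_xi hm rfl (fin3_ne i).2.2 (abs_eq_zero.1 ((iff_u2 hs).1 hn2).2.1) (by decide)

lemma FW_conn {c' : Ch} (h : w ∈ CW c) (h' : w ∈ CW c') (e : c ≠ c') : ∃ n, w ∈ FW c n ∧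
    coF c (slotF c.1 n) ≠ coF c' (slotF c.1 n) ∧
    coF (nbF c n) (slotF c.1 n) = coF c' (slotF c.1 n) := by
  obtain ⟨i, ξ, η⟩ := c
  obtain ⟨i', ξ', η'⟩ := c'
  have hs : fold i w ∈ Sd (ξ (i + 1)) := h.2.1
  rcases fin3_cases i i' with rfl | rfl | rfl
  rotate_left
  · exact ⟨.q .a, ⟨h, (iff_a hs).2 ((FA_iff (Sd_big hs).1).2 h'.1)⟩, (fin3_ne i).1.symm, rfl⟩
  · exact ⟨.q .b, ⟨h, (iff_b hs).2 ((FB_iff (Sd_big hs).1).2 h'.1)⟩, (fin3_ne i).2.1.symm, rfl⟩
  have k2 : ∀ a b : Bool, a ≠ b → (if a then (1 : Fin 3) else 0) ≠ (if b then 1 else 0) ∧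
    (if !a then (1 : Fin 3) else 0) = (if b then 1 else 0) := by decide
  suffices ∃ n, w ∈ FN i' (ξ (i' + 1)) n ∧ ∃ j, (slotF i' n = some (j, false) ∧ ξ j ≠ ξ' j) ∨
      (slotF i' n = some (j, true) ∧ η j ≠ η' j) by
    obtain ⟨n, hn, j, ⟨h1, h2⟩ | ⟨h1, h2⟩⟩ := this <;>
    exact ⟨n, ⟨h, hn⟩, by simpa [h1, coF, nbF, flp] using k2 _ _ h2⟩
  by_cases e1 : η = η'
  · obtain ⟨j, hj⟩ : ∃ j, ξ j ≠ ξ' j := by
      by_contra h; push Not at h; exact e (by rw [e1, funext h])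
    rcases fin3_cases i' j with rfl | rfl | rfl
    · exact ⟨.X, sg_ne h.2.2.2.1 h'.2.2.2.1 hj, _, Or.inl ⟨rfl, hj⟩⟩
    · have : fold i' w ∈ Sd (!ξ (i' + 1)) := by
        rw [← Bool.eq_not_iff.2 hj.symm]; exact h'.2.1
      rcases mem_x hs this with h | h
      · exact ⟨.q .x, h, _, Or.inl ⟨rfl, hj⟩⟩
      · exact ⟨.q .x1, h, _, Or.inl ⟨rfl, hj⟩⟩
    · rcases mem_u hs (abs_eq_zero.2 (sg_ne h.2.2.2.2 h'.2.2.2.2 hj)) with h | h | h
      · exact ⟨.q .u, h, _, Or.inl ⟨rfl, hj⟩⟩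
      · exact ⟨.q .u1, h, _, Or.inl ⟨rfl, hj⟩⟩
      · exact ⟨.q .u2, h, _, Or.inl ⟨rfl, hj⟩⟩
  · obtain ⟨j, hj⟩ := Function.ne_iff.1 e1
    have z := sg_ne (h.2.2.1 j) (h'.2.2.1 j) hj
    rcases fin3_cases i' j with rfl | rfl | rfl
    · exact ⟨.Y, z, _, Or.inr ⟨rfl, hj⟩⟩
    · rcases mem_y hs (abs_eq_zero.2 z) with h | h
      · exact ⟨.q .y, h, _, Or.inr ⟨rfl, hj⟩⟩
      · exact ⟨.q .y1, h, _, Or.inr ⟨rfl, hj⟩⟩
    · rcases mem_v hs (abs_eq_zero.2 z) with h | h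
      · exact ⟨.q .v, h, _, Or.inr ⟨rfl, hj⟩⟩
      · exact ⟨.q .v1, h, _, Or.inr ⟨rfl, hj⟩⟩

end Pool.Agent.MP_a61dd1_gt

end

-- part MP_a61dd1_gt.Asph
section

/-! The link complement in the cube boundary is aspherical. -/

namespace Pool.Agent.MP_a61dd1_gt

open Set

lemma AE.singleton {Y : Type*} [TopologicalSpace Y] (a : Y) : AE ({a} : Set Y) :=
  fun _ _ _ _ _ _ _ mf => ⟨fun _ => a, continuous_const, fun _ => rfl, fun _ hq => (mf hq).symm⟩

lemma AE.val {Y : Type*} [TopologicalSpace Y] [Nonempty Y] {S U : Set Y} (h : AE S) (hU : S ⊆ U) :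
    AE (Subtype.val ⁻¹' S : Set U) := by
  classical
  obtain ⟨a, ha⟩ := h.nonempty
  refine h.retract Subtype.val (fun y => if h : y ∈ U then ⟨y, h⟩ else ⟨a, hU ha⟩)
    continuous_subtype_val.continuousOn ?_ (fun _ h => h) (fun y hy => by simpa [hU hy] using hy)
    (fun y _ => by simp)
  rw [Topology.IsInducing.subtypeVal.continuousOn_iff]
  exact continuousOn_id.congr fun y hy => by simp [hU hy]

def Arc : Set (ℝ × ℝ) := {z | ‖z‖ = 36 ∧ 0 ≤ z.1 ∧ 0 ≤ z.2}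

lemma ae_Arc : AE Arc := by
  have : AE (Icc (fun _ : Unit => (-36 : ℝ)) fun _ => 36) :=
    AE.star isOpen_univ (inter_univ _).symm ⟨0, fun _ => by simp, fun _ => by simp⟩
      fun K hK _ => ⟨0, ⟨fun _ => by simp, fun _ => by simp⟩, fun p hp =>
        (convex_Icc _ _).segment_subset (hK hp) ⟨fun _ => by simp, fun _ => by simp⟩⟩
  refine this.retract (fun z _ => z.1 - z.2) (fun t => (min 36 (36 + t ()), min 36 (36 - t ())))
    (by fun_prop) (by fun_prop) ?_ ?_ ?_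
  · rintro z ⟨h1, h2, h3⟩
    rw [norm_eq, abs_of_nonneg h2, abs_of_nonneg h3, max_eq_iff] at h1
    exact ⟨fun _ => by grind, fun _ => by grind⟩
  · rintro t ⟨h1, h2⟩
    have h1 : -36 ≤ t () := h1 ()
    have h2 : t () ≤ 36 := h2 ()
    have a1 : 0 ≤ min 36 (36 + t ()) := le_min (by norm_num) (by linarith)
    have a2 : 0 ≤ min 36 (36 - t ()) := le_min (by norm_num) (by linarith)
    refine ⟨?_, a1, a2⟩
    rw [norm_eq, abs_of_nonneg a1, abs_of_nonneg a2]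
    grind
  · rintro z ⟨h1, h2, h3⟩
    rw [norm_eq, abs_of_nonneg h2, abs_of_nonneg h3, max_eq_iff] at h1
    ext <;> simp only <;> grind

lemma ae_Arc' (a b : Prop) (h : ¬ (a ∧ b)) : AE (Arc ∩ {z | (a → z.1 = 0) ∧ (b → z.2 = 0)}) := by
  by_cases ha : a
  · have hb : ¬ b := fun hb => h ⟨ha, hb⟩
    convert AE.singleton ((0, 36) : ℝ × ℝ)
    ext ⟨s, t⟩
    simp only [Arc, norm_eq, ha, hb, mem_inter_iff, mem_ofPred_eq, mem_singleton_iff, Prod.mk.injEq]
    grind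
  by_cases hb : b
  · convert AE.singleton ((36, 0) : ℝ × ℝ)
    ext ⟨s, t⟩
    simp only [Arc, norm_eq, ha, hb, mem_inter_iff, mem_ofPred_eq, mem_singleton_iff, Prod.mk.injEq]
    grind
  simpa [ha, hb] using ae_Arc

def sn (b : Bool) (t : ℝ) : ℝ := if b then t else -t

lemma sn_abs {b t} (h : sg b t) : sn b |t| = t := by
  cases b
  · simp only [sn, sg, Bool.false_eq_true, if_false] at *; rw [abs_of_nonpos h, neg_neg]
  · simp only [sn, sg, if_true] at *; rw [abs_of_nonneg h]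

lemma abs_sn (b) {t} (h : 0 ≤ t) : |sn b t| = t := by cases b <;> simp [sn, abs_of_nonneg h]

lemma sg_sn (b) {t} (h : 0 ≤ t) : sg b (sn b t) := by cases b <;> simp [sn, sg, h]

lemma continuous_sn (b) : Continuous (sn b) := by
  cases b
  exacts [continuous_neg, continuous_id]

theorem ae_FW (c : Ch) (σ : Finset Nf) (h1 : ∀ n ∈ σ, presF (c.2.1 (c.1 + 1)) n = true)
    (h2 : ∀ n ∈ σ, ∀ m ∈ σ, n ≠ m → adjF (c.2.1 (c.1 + 1)) n m = true) :
    AE (CW c ∩ ⋂ n ∈ σ, FW c n) := by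
  obtain ⟨i, ξ, η⟩ := c
  have hA := ae_Arc' (.X ∈ σ) (.Y ∈ σ) fun h => by simpa [adjF] using h2 _ h.1 _ h.2 (by decide)
  have hQ := ae_face (ξ (i + 1)) (fun n => Nf.q n ∈ σ) (fun n hn => h1 (.q n) hn)
    fun n m hn hm e => h2 (.q n) hn (.q m) hm (by simpa using e)
  have cs := continuous_sn
  refine (hA.prod hQ).retract (fun w => ((|(w i).1|, |(w i).2|), fold i w))
    (fun z => mk3 i (sn (ξ i) z.1.1, sn (η i) z.1.2) (z.2 .x, sn (η (i + 1)) (z.2 .y))
      (sn (ξ (i + 2)) (z.2 .u), sn (η (i + 2)) (z.2 .v))) ?_ ?_ ?_ ?_ ?_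
  · have := continuous_fold i
    fun_prop
  · refine (continuous_pi fun j => ?_).continuousOn
    unfold mk3
    split_ifs <;> fun_prop
  · rintro w ⟨hw, h⟩
    simp only [mem_iInter] at h
    refine ⟨⟨⟨?_, abs_nonneg _, abs_nonneg _⟩, fun e => abs_eq_zero.2 (h _ e).2,
      fun e => abs_eq_zero.2 (h _ e).2⟩, hw.2.1, fun n hn => (h _ hn).2⟩
    rw [norm_eq, abs_abs, abs_abs]; exact hw.1
  · rintro ⟨z, p⟩ ⟨⟨⟨a1, a2, a3⟩, a4, a5⟩, b1, b2⟩
    have hb := (Sd_big b1).1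
    have c1 : 0 ≤ p .y := by simpa [big, Bx.g] using (hb .y).1
    have c2 : 0 ≤ p .u := by simpa [big, Bx.g] using (hb .u).1
    have c3 : 0 ≤ p .v := by simpa [big, Bx.g] using (hb .v).1
    set w := mk3 i (sn (ξ i) z.1, sn (η i) z.2) (p .x, sn (η (i + 1)) (p .y))
      (sn (ξ (i + 2)) (p .u), sn (η (i + 2)) (p .v)) with hw
    have e0 : w i = _ := mk3_zero ..
    have e1 : w (i + 1) = _ := mk3_one ..
    have e2 : w (i + 2) = _ := mk3_two ..
    have ef : fold i w = p := funext fun k => by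
      cases k <;> simp only [fold, e1, e2, abs_sn, c1, c2, c3]
    have hC : w ∈ CW (i, ξ, η) := by
      refine ⟨?_, ef ▸ b1, fun j => ?_, ?_, ?_⟩
      · show ‖w i‖ = 36
        rw [e0, norm_eq, abs_sn _ a2, abs_sn _ a3, ← a1, norm_eq, abs_of_nonneg a2, abs_of_nonneg a3]
      · rcases fin3_cases i j with rfl | rfl | rfl
        · rw [e0]; exact sg_sn _ a3
        · rw [e1]; exact sg_sn _ c1
        · rw [e2]; exact sg_sn _ c3
      · show sg _ (w i).1
        rw [e0]; exact sg_sn _ a2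
      · show sg _ (w (i + 2)).1
        rw [e2]; exact sg_sn _ c2
    refine ⟨hC, mem_iInter₂.2 fun n hn => ⟨hC, ?_⟩⟩
    rcases n with _ | _ | n
    · show (w i).1 = 0
      rw [e0, show z.1 = 0 from a4 hn]; simp [sn]
    · show (w i).2 = 0
      rw [e0, show z.2 = 0 from a5 hn]; simp [sn]
    · show fold i w ∈ Fc (ξ (i + 1)) n
      rw [ef]; exact b2 n hn
  · rintro w ⟨hw, -⟩
    simp only [fold, sn_abs (hw.2.2.1 _), sn_abs hw.2.2.2.1, sn_abs hw.2.2.2.2]
    exact mk3_self i w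

lemma closed_aux (c : Ch) {S A : Set (Ax → ℝ)} (hA : IsClosed A) (e : S = A ∩ {p | ¬ Lam p}) :
    IsClosed (Subtype.val ⁻¹' {w : W | ‖w c.1‖ = 36 ∧ fold c.1 w ∈ S ∧
      (∀ j, sg (c.2.2 j) (w j).2) ∧ sg (c.2.1 c.1) (w c.1).1 ∧
      sg (c.2.1 (c.1 + 2)) (w (c.1 + 2)).1} : Set XC) := by
  have : IsClosed {w : W | ‖w c.1‖ = 36 ∧ fold c.1 w ∈ A ∧
      (∀ j, sg (c.2.2 j) (w j).2) ∧ sg (c.2.1 c.1) (w c.1).1 ∧
      sg (c.2.1 (c.1 + 2)) (w (c.1 + 2)).1} := by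
    refine (isClosed_eq (by fun_prop) continuous_const).inter
      ((hA.preimage (continuous_fold _)).inter (IsClosed.inter ?_
        ((isClosed_sg _ (by fun_prop)).inter (isClosed_sg _ (by fun_prop)))))
    show IsClosed {w : W | ∀ j, sg (c.2.2 j) (w j).2}
    rw [ofPred_forall]
    exact isClosed_iInter fun j => isClosed_sg _ (by fun_prop)
  convert this.preimage continuous_subtype_val using 1
  ext w
  refine and_congr_right fun h => and_congr_left fun _ => ?_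
  rw [e]
  exact and_iff_left (not_Lam w.2 h)

lemma closed_CW (c : Ch) : IsClosed (Subtype.val ⁻¹' CW c : Set XC) := by
  obtain ⟨A, hA, e⟩ := closed_Sd (c.2.1 (c.1 + 1))
  exact closed_aux c hA e

lemma closed_FW (c : Ch) (n) : IsClosed (Subtype.val ⁻¹' FW c n : Set XC) := by
  rcases n with _ | _ | n
  · exact (closed_CW c).inter (isClosed_eq
      ((continuous_apply c.1).comp continuous_subtype_val).fst continuous_const)
  · exact (closed_CW c).inter (isClosed_eq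
      ((continuous_apply c.1).comp continuous_subtype_val).snd continuous_const)
  · obtain ⟨A, hA, e⟩ := closed_Fc (c.2.1 (c.1 + 1)) n
    convert closed_aux c hA e using 2
    ext w
    exact ⟨fun h => ⟨h.1.1, ⟨h.1.2.1, h.2⟩, h.1.2.2⟩, fun h => ⟨⟨h.1, h.2.1.1, h.2.2⟩, h.2.1.2⟩⟩

lemma CW_cov {w} (h : w ∈ XC) : ∃ c, w ∈ CW c := by
  classical
  obtain ⟨i, hi, hb⟩ := cub_iff.1 h.1
  obtain ⟨r, hr⟩ := Sd_cov hb (not_Lam h hi)
  have : ∀ t : ℝ, sg (decide (0 ≤ t)) t := fun t => by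
    by_cases h : 0 ≤ t
    · simp [sg, h]
    · simp [sg, h, (not_le.1 h).le]
  refine ⟨(i, fun j => if j = i + 1 then r else decide (0 ≤ (w j).1), fun j => decide (0 ≤ (w j).2)),
    hi, by simpa using hr, fun j => this _, ?_, ?_⟩
  · simpa [(fin3_ne i).1.symm] using this _
  · simpa [(fin3_ne i).2.2] using this _

def sys : Sys XC Ch B3 Nf Lb Sl (Fin 3) where
  C c := Subtype.val ⁻¹' CW c
  F c n := Subtype.val ⁻¹' FW c n
  pres c n := presF (c.2.1 (c.1 + 1)) n = true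
  adj c n m := adjF (c.2.1 (c.1 + 1)) n m = true
  slot c := slotF c.1
  co := coF
  nb := nbF
  nxt _ := nxtF
  lab c β := labF c.1 c.2.1 β
  tog := togF
  comm s t := commF s t = true
  closedC := closed_CW
  closedF := closed_FW
  cov x := CW_cov x.2
  F_C h := h.1
  F_pres {_ _ n} h := by
    rcases n with _ | _ | n
    exacts [rfl, rfl, Fc_pres h.2]
  F_adj := FW_adj
  F_nxt := FW_nxt
  conn := FW_conn
  ae c σ h1 h2 := by
    simpa using (ae_FW c σ h1 h2).val (U := XC) fun w hw => CW_sub hw.1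
  co_inj := co_injF
  adj_slot c n m := adj_slotF c.1 _ n m
  adj_iff c b n m hn hm := (lab_spec c b n m hn hm).1
  lab_inj c b n m hn hm := (lab_spec c b n m hn hm).2.1
  nxt_spec c b n m hn hm := (lab_spec c b n m hn hm).2.2
  nb_nb c n _ := nb_nbF c n
  co_nb c n k _ := co_nbF c n k
  nb_comm := nb_commF
  tog_tog := tog_togF
  tog_comm := tog_commF
  comm_symm s t h := by rwa [commF, Bool.or_comm]
  comm_irrefl s := by simp [comm_irreflF s]
  two s := by simpa using twoF s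
  reach := reachF

open scoped Topology.Homotopy in
theorem asph_XC :
    (∀ x : XC, ∀ n, 2 ≤ n → ∀ f : Ω^ (Fin n) XC x, GenLoop.Homotopic f GenLoop.const) ∧
    ∀ x y : XC, Joined x y := sys.main fun _ => true

end Pool.Agent.MP_a61dd1_gt

end

-- part MP_a61dd1_gt.HomU
section

/-! `T0` and the `TU j` are 3-tori.

Hints.  The sets are compact (closed, bounded); build a continuous bijection onto `Fin 3 → Circle`
and use `Continuous.homeoOfEquivCompactToT2`.  Let `dir : ℝ × ℝ → Circle` be the direction of a nonzero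
vector (for instance `⟨(z.1 + z.2 I) / ‖z.1 + z.2 I‖, _⟩` on nonzero vectors, or
`Circle.exp (Complex.arg _)`-free variant), continuous on `z ≠ 0`; `dir z = dir z'` iff `z' = t • z`, `t > 0`.
* `T0`: `w ↦ fun j => dir (w j)`, all radii are `sqrt (4096/3)`.
* `TU j`: with `p = w (j+1)`, `n = w (j+2)`, `y = (w j).2`, `τ = sq2 p - sq2 n`, map
  `w ↦ ![dir p, dir n, dir (τ, y)]`.  Here `p ≠ 0` and `n ≠ 0` because `bA 0 = bB 0 = 2`
  (`rect_eq_zero`) would give `fU > 0`; `(τ,y) ≠ 0` because otherwise `sq2 p = sq2 n = 2048`, both bumps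
  vanish and `fU = -25`.  Given directions `e1 e2` and `(cos θ, sin θ)`, points are
  `(τ,y) = t (cos θ, sin θ)`, `sq2 p = (4096 - y^2 + τ)/2`, `sq2 n = (4096 - y^2 - τ)/2`.
  Along `t`, as long as `y^2 ≤ 25`: if `cos θ ≥ 0` then `sq2 p > 2000` so `bA p = 0`, and `sq2 n`
  decreases so `bB n` increases (`ρ ↦ rect a b c (ρ e)` is monotone on `ρ ≥ 0` when `a ≤ 0 ≤ b`, `0 ≤ c`, and
  strictly so once positive: `rp_lt`); symmetric for `cos θ ≤ 0`.  Injectivity: two points with the same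
  directions and `t < t'`: `fU` would increase strictly (if `sin θ ≠ 0` by `y^2`; if `sin θ = 0` the bump equals
  `1`, so `rect = 1` (`rp_eq_one`) at both radii, impossible by strict monotonicity).
  Surjectivity: intermediate value theorem in `t` on `[0, t1]`, `fU = -25` at `t = 0`, and `t1` the first
  time that `y^2 = 25` or the small radius is `0` (e.g. apply the IVT to the continuous function of `t`
  obtained with `sqrt (max _ 0)`, on `[0, 5000]`, where `fU ≥ 0` at `t = 5000`: either `y^2 ≥ 25`, or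
  `|τ| > 4096` and the small radius is clipped to `0` where the bump is `2`; at a zero `y^2 ≤ 25` and no
  radius is clipped since a clipped radius gives `fU > 0`).
-/

namespace Pool.Agent.MP_a61dd1_gt

open Set

namespace HomU

/-- The complex number with the given real coordinates. -/
def cz (z : ℝ × ℝ) : ℂ := ⟨z.1, z.2⟩

lemma cz_eq (z : ℝ × ℝ) : cz z = (z.1 : ℂ) + (z.2 : ℂ) * Complex.I := by
  apply Complex.ext <;> simp [cz]

lemma continuous_cz : Continuous cz := by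
  have : cz = fun z : ℝ × ℝ => (z.1 : ℂ) + (z.2 : ℂ) * Complex.I := funext cz_eq
  rw [this]; fun_prop

lemma cz_inj {z z' : ℝ × ℝ} (h : cz z = cz z') : z = z' :=
  Prod.ext (congrArg Complex.re h) (congrArg Complex.im h)

lemma cz_smul (t : ℝ) (z : ℝ × ℝ) : cz (t • z) = (t : ℂ) * cz z := by
  apply Complex.ext <;> simp [cz]

lemma cz_ne {z : ℝ × ℝ} (h : z ≠ 0) : cz z ≠ 0 := fun h0 => h (cz_inj (h0.trans (by
  apply Complex.ext <;> simp [cz])))

/-- Direction of a nonzero plane vector. -/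
noncomputable def dir (z : ℝ × ℝ) (h : z ≠ 0) : Circle :=
  ⟨cz z / (‖cz z‖ : ℂ), by
    have := norm_pos_iff.mpr (cz_ne h)
    show cz z / (‖cz z‖ : ℂ) ∈ Metric.sphere (0 : ℂ) 1
    rw [mem_sphere_zero_iff_norm, norm_div, Complex.norm_real, norm_norm, div_self this.ne']⟩

lemma dir_coe (z : ℝ × ℝ) (h : z ≠ 0) : (dir z h : ℂ) = cz z / (‖cz z‖ : ℂ) := rfl

lemma of_dir_eq {z z' : ℝ × ℝ} {h : z ≠ 0} {h' : z' ≠ 0} (e : dir z h = dir z' h') :
    ∃ t : ℝ, 0 < t ∧ z' = t • z := by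
  have e1 : cz z / (‖cz z‖ : ℂ) = cz z' / (‖cz z'‖ : ℂ) := congrArg (fun c : Circle => (c : ℂ)) e
  have p := norm_pos_iff.mpr (cz_ne h)
  have p' := norm_pos_iff.mpr (cz_ne h')
  refine ⟨‖cz z'‖ / ‖cz z‖, div_pos p' p, cz_inj ?_⟩
  have q : (‖cz z‖ : ℂ) ≠ 0 := by exact_mod_cast p.ne'
  have q' : (‖cz z'‖ : ℂ) ≠ 0 := by exact_mod_cast p'.ne'
  rw [cz_smul, div_eq_div_iff q q'] at *
  push_cast
  field_simp
  linear_combination -e1

lemma dir_smul (c : Circle) {z : ℝ × ℝ} (h : z ≠ 0) {t : ℝ} (ht : 0 < t)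
    (e : z = t • ((c : ℂ).re, (c : ℂ).im)) : dir z h = c := by
  apply Circle.ext
  have e1 : cz z = (t : ℂ) * (c : ℂ) := by rw [e, cz_smul]; rfl
  have q : (t : ℂ) ≠ 0 := by exact_mod_cast ht.ne'
  rw [dir_coe, e1, norm_mul, Circle.norm_coe, Complex.norm_real, Real.norm_of_nonneg ht.le, mul_one]
  field_simp

lemma homeo_of {S : Set W} (hS : IsCompact S) (f : W → Fin 3 → ℝ × ℝ) (hf : Continuous f)
    (hne : ∀ w ∈ S, ∀ j, f w j ≠ 0)
    (hinj : ∀ w ∈ S, ∀ w' ∈ S, (∀ j, ∃ t : ℝ, 0 < t ∧ f w' j = t • f w j) → w = w')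
    (hsurj : ∀ e : Fin 3 → ℝ × ℝ, (∀ j, sq2 (e j) = 1) →
      ∃ w ∈ S, ∀ j, ∃ t : ℝ, 0 < t ∧ f w j = t • e j) :
    Nonempty (↥S ≃ₜ (Fin 3 → Circle)) := by
  have : CompactSpace S := isCompact_iff_compactSpace.mp hS
  let g : S → Fin 3 → Circle := fun w j => dir (f w.1 j) (hne w.1 w.2 j)
  have hg : Continuous g := by
    refine continuous_pi fun j => ?_
    have h1 : Continuous fun w : S => cz (f w.1 j) :=
      continuous_cz.comp ((continuous_apply j).comp (hf.comp continuous_subtype_val))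
    refine Continuous.subtype_mk (h1.div (Complex.continuous_ofReal.comp h1.norm) fun w => ?_) _
    exact Complex.ofReal_ne_zero.mpr (norm_pos_iff.mpr (cz_ne (hne w.1 w.2 j))).ne'
  have hb : Function.Bijective g := by
    refine ⟨fun w w' e => Subtype.ext (hinj _ w.2 _ w'.2 fun j => of_dir_eq (congrFun e j)), fun c => ?_⟩
    obtain ⟨w, hw, h⟩ := hsurj (fun j => ((c j : ℂ).re, (c j : ℂ).im)) fun j => by
      have := Circle.normSq_coe (c j)
      rw [Complex.normSq_apply] at this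
      unfold sq2; nlinarith
    refine ⟨⟨w, hw⟩, funext fun j => ?_⟩
    obtain ⟨t, ht, e⟩ := h j
    exact dir_smul (c j) _ ht e
  exact ⟨Continuous.homeoOfEquivCompactToT2 (f := Equiv.ofBijective g hb) hg⟩

@[fun_prop]
lemma continuous_sq2 : Continuous sq2 := by unfold sq2; fun_prop

lemma sq2_nonneg (z : ℝ × ℝ) : 0 ≤ sq2 z := by unfold sq2; positivity

lemma sq2_smul (t : ℝ) (z : ℝ × ℝ) : sq2 (t • z) = t ^ 2 * sq2 z := by
  simp only [sq2, Prod.smul_fst, Prod.smul_snd, smul_eq_mul]; ring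

lemma sq2_pos {z : ℝ × ℝ} (h : z ≠ 0) : 0 < sq2 z := by
  refine (sq2_nonneg z).lt_of_ne fun h0 => h ?_
  unfold sq2 at h0
  refine Prod.ext ?_ ?_
  · show z.1 = 0
    nlinarith [sq_nonneg z.1, sq_nonneg z.2]
  · show z.2 = 0
    nlinarith [sq_nonneg z.1, sq_nonneg z.2]

lemma eq_of_smul {z z' : ℝ × ℝ} {t : ℝ} (ht : 0 < t) (h : z ≠ 0) (e : z' = t • z)
    (hs : sq2 z' = sq2 z) : z = z' := by
  have p := sq2_pos h
  rw [e, sq2_smul] at hs
  have h1 : (t - 1) * ((t + 1) * sq2 z) = 0 := by linear_combination hs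
  have h2 : t = 1 := by
    rcases mul_eq_zero.mp h1 with h2 | h2
    · linarith
    · exact absurd h2 (by positivity)
  rw [e, h2, one_smul]

lemma isCompact_Sph : IsCompact Sph := by
  refine Metric.isCompact_of_isClosed_isBounded (isClosed_eq (by fun_prop) continuous_const) ?_
  refine (Metric.isBounded_closedBall (x := (0 : W)) (r := 64)).subset fun w hw => ?_
  rw [mem_closedBall_zero_iff, pi_norm_le_iff_of_nonneg (by norm_num)]
  intro i
  have h := Sph_sum hw i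
  have h1 := sq2_nonneg (w (i + 1))
  have h2 := sq2_nonneg (w (i + 2))
  have h3 : (w i).1 ^ 2 + (w i).2 ^ 2 ≤ 4096 := by unfold sq2 at h; unfold sq2 at h1 h2; linarith
  rw [Prod.norm_def, max_le_iff, Real.norm_eq_abs, Real.norm_eq_abs, abs_le, abs_le]
  refine ⟨⟨?_, ?_⟩, ?_, ?_⟩ <;> nlinarith [sq_nonneg (w i).1, sq_nonneg (w i).2]

lemma mem_Sph {w : W} (i : Fin 3) (h : sq2 (w i) + sq2 (w (i + 1)) + sq2 (w (i + 2)) = 4096) :
    w ∈ Sph := by
  show sq2 (w 0) + sq2 (w 1) + sq2 (w 2) = 4096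
  fin_cases i <;> simp at h <;> linarith

lemma rp_ray_le {α u r : ℝ} (hα : α ≤ 0) (h0 : 0 ≤ r) (h1 : r ≤ 1) : rp (α + r * u) ≤ rp (α + u) := by
  rcases le_total u 0 with hu | hu
  · rw [rp_of_nonpos (by nlinarith)]; exact rp_nonneg _
  · exact rp_mono (by nlinarith)

lemma rp_ray_lt {α u r : ℝ} (hα : α ≤ 0) (h1 : r < 1) (hp : 0 < rp (α + u)) :
    rp (α + r * u) < rp (α + u) := by
  have h : 0 < α + u := by
    by_contra h
    rw [rp_of_nonpos (not_lt.mp h)] at hp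
    exact lt_irrefl _ hp
  exact rp_lt h (by nlinarith)

lemma rect_ray {a b c r : ℝ} (ha : a ≤ 0) (hb : 0 ≤ b) (hc : 0 ≤ c) (h0 : 0 ≤ r) (h1 : r < 1)
    (s t : ℝ) : rect a b c (r * s) (r * t) ≤ rect a b c s t ∧
      (0 < rect a b c s t → rect a b c (r * s) (r * t) < rect a b c s t) := by
  have e : rect a b c (r * s) (r * t) =
      rp (a + r * (-s)) + rp (-b + r * s) + rp (-c + r * t) + rp (-c + r * (-t)) := by
    unfold rect; congr 2 <;> [congr 2; skip; skip] <;> ring_nf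
  have e' : rect a b c s t = rp (a + (-s)) + rp (-b + s) + rp (-c + t) + rp (-c + (-t)) := by
    unfold rect; congr 2 <;> [congr 2; skip; skip] <;> ring_nf
  have l1 := rp_ray_le (u := -s) ha h0 h1.le
  have l2 := rp_ray_le (u := s) (neg_nonpos.mpr hb) h0 h1.le
  have l3 := rp_ray_le (u := t) (neg_nonpos.mpr hc) h0 h1.le
  have l4 := rp_ray_le (u := -t) (neg_nonpos.mpr hc) h0 h1.le
  rw [e, e']
  refine ⟨by linarith, fun hp => ?_⟩
  rcases (rp_nonneg (a + -s)).eq_or_lt with z1 | z1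
  · rcases (rp_nonneg (-b + s)).eq_or_lt with z2 | z2
    · rcases (rp_nonneg (-c + t)).eq_or_lt with z3 | z3
      · have := rp_ray_lt (u := -t) (neg_nonpos.mpr hc) h1 (by linarith); linarith
      · have := rp_ray_lt (neg_nonpos.mpr hc) h1 z3; linarith
    · have := rp_ray_lt (neg_nonpos.mpr hb) h1 z2; linarith
  · have := rp_ray_lt ha h1 z1; linarith

/-- Moving outwards in `(τ, y)` and inwards in the small disc increases the defining function. -/
lemma ray_absurd {a b c r t y : ℝ} (ha : a ≤ 0) (hb : 0 ≤ b) (hc : 0 ≤ c) (h0 : 0 ≤ r) (h1 : r < 1)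
    (ht : 1 < t) (n : ℝ × ℝ) (e : y ^ 2 + 25 * bump (rect a b c n.1 n.2) = 25)
    (e' : (t * y) ^ 2 + 25 * bump (rect a b c (r * n.1) (r * n.2)) = 25) : False := by
  obtain ⟨l1, l2⟩ := rect_ray ha hb hc h0 h1 n.1 n.2
  have l3 : bump (rect a b c n.1 n.2) ≤ bump (rect a b c (r * n.1) (r * n.2)) :=
    rp_mono (by linarith)
  have ht2 : 0 < t ^ 2 - 1 := by nlinarith
  have hy : y ^ 2 = 0 := by
    refine le_antisymm ?_ (sq_nonneg y)
    by_contra hy
    have := mul_pos ht2 (not_le.mp hy)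
    nlinarith
  have hy' : (t * y) ^ 2 = 0 := by rw [mul_pow, hy, mul_zero]
  have q : rp (2 - rect a b c n.1 n.2) = 1 := by unfold bump at e; linarith
  have q' : rp (2 - rect a b c (r * n.1) (r * n.2)) = 1 := by unfold bump at e'; linarith
  rw [rp_eq_one] at q q'
  have := l2 (by linarith)
  linarith

lemma bA_zero : bA 0 = 2 := by
  unfold bA bump
  rw [rect_eq_zero (by simp) (by simp) (by simp) (by simp), rp_of_one_le (by norm_num)]; norm_num

lemma bB_zero : bB 0 = 2 := by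
  unfold bB bump
  rw [rect_eq_zero (by simp) (by simp) (by simp) (by simp), rp_of_one_le (by norm_num)]; norm_num

lemma bA_nonneg (z : ℝ × ℝ) : 0 ≤ bA z := bump_nonneg _

lemma bB_nonneg (z : ℝ × ℝ) : 0 ≤ bB z := bump_nonneg _

@[fun_prop]
lemma continuous_bA : Continuous bA := by unfold bA bump rect; fun_prop

@[fun_prop]
lemma continuous_bB : Continuous bB := by unfold bB bump rect; fun_prop

/-- The defining equations in the coordinates `p`, `n`, `y`. -/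
def Eqs (p n : ℝ × ℝ) (y : ℝ) : Prop :=
  y ^ 2 + sq2 p + sq2 n = 4096 ∧ y ^ 2 + 25 * bA p + 25 * bB n = 25

lemma Eqs.p_ne {p n : ℝ × ℝ} {y : ℝ} (h : Eqs p n y) : p ≠ 0 := by
  rintro rfl
  have := h.2
  rw [bA_zero] at this
  nlinarith [bB_nonneg n, sq_nonneg y]

lemma Eqs.n_ne {p n : ℝ × ℝ} {y : ℝ} (h : Eqs p n y) : n ≠ 0 := by
  rintro rfl
  have := h.2
  rw [bB_zero] at this
  nlinarith [bA_nonneg p, sq_nonneg y]

lemma Eqs.y_le {p n : ℝ × ℝ} {y : ℝ} (h : Eqs p n y) : y ^ 2 ≤ 25 := by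
  linarith [h.2, bA_nonneg p, bB_nonneg n]

lemma Eqs.q_ne {p n : ℝ × ℝ} {y : ℝ} (h : Eqs p n y) : (sq2 p - sq2 n, y) ≠ 0 := by
  intro h0
  have h1 : sq2 p - sq2 n = 0 := congrArg Prod.fst h0
  have h2 : y = 0 := congrArg Prod.snd h0
  obtain ⟨h3, h4⟩ := h
  subst h2
  rw [bA_of_big (by linarith), bB_of_big (by linarith)] at h4
  norm_num at h4

lemma lt_one_of_sq {r x : ℝ} (hx : 0 < x) (h : r ^ 2 * x < x) : r < 1 := by
  by_contra h1
  have h1 := not_lt.mp h1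
  have : 1 ≤ r ^ 2 := by nlinarith
  nlinarith

lemma not_one_lt {p n p' n' : ℝ × ℝ} {y y' a b t : ℝ} (h : Eqs p n y) (h' : Eqs p' n' y')
    (ha : 0 < a) (hb : 0 < b) (ep : p' = a • p) (en : n' = b • n)
    (eτ : sq2 p' - sq2 n' = t * (sq2 p - sq2 n)) (ey : y' = t * y) : ¬ 1 < t := by
  intro ht
  have hy := h.y_le
  have hy' := h'.y_le
  have hq := sq2_pos h.q_ne
  have ht2 : 0 < t ^ 2 - 1 := by nlinarith
  have hyy : y' ^ 2 - y ^ 2 = (t ^ 2 - 1) * y ^ 2 := by rw [ey]; ring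
  have hyy0 : 0 ≤ (t ^ 2 - 1) * y ^ 2 := by positivity
  obtain ⟨s1, s2⟩ := h
  obtain ⟨s1', s2'⟩ := h'
  rcases le_total 0 (sq2 p - sq2 n) with hτ | hτ
  · have k1 : 0 ≤ (t - 1) * (sq2 p - sq2 n) := mul_nonneg (by linarith) hτ
    have k2 : sq2 n' < sq2 n := by
      rcases hτ.eq_or_lt with hτ | hτ
      · have : 0 < y ^ 2 := by
          unfold sq2 at hq
          simp only at hq
          unfold sq2 at hτ
          rw [← hτ] at hq
          linarith
        have := mul_pos ht2 this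
        nlinarith
      · have := mul_pos (sub_pos.mpr ht) hτ
        nlinarith
    rw [bA_of_big (by linarith)] at s2
    rw [bA_of_big (by nlinarith)] at s2'
    have hb1 : b < 1 := lt_one_of_sq (sq2_pos (Eqs.n_ne ⟨s1, by rw [bA_of_big (by linarith)]; exact s2⟩))
      (by rw [en, sq2_smul] at k2; exact k2)
    refine ray_absurd (a := -2) (b := 4) (c := 0) (y := y) (by norm_num) (by norm_num) le_rfl hb.le hb1 ht n
      (by unfold bB at s2; linarith) ?_
    rw [en, ey] at s2'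
    unfold bB at s2'
    simp only [Prod.smul_fst, Prod.smul_snd, smul_eq_mul] at s2'
    linarith
  · have k1 : (t - 1) * (sq2 p - sq2 n) ≤ 0 := mul_nonpos_of_nonneg_of_nonpos (by linarith) hτ
    have k2 : sq2 p' < sq2 p := by
      rcases hτ.eq_or_lt with hτ | hτ
      · have : 0 < y ^ 2 := by
          unfold sq2 at hq
          simp only at hq
          unfold sq2 at hτ
          rw [hτ] at hq
          linarith
        have := mul_pos ht2 this
        nlinarith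
      · have := mul_pos (sub_pos.mpr ht) (neg_pos.mpr hτ)
        nlinarith
    rw [bB_of_big (by linarith)] at s2
    rw [bB_of_big (by nlinarith)] at s2'
    have ha1 : a < 1 := lt_one_of_sq (sq2_pos (Eqs.p_ne ⟨s1, by rw [bB_of_big (by linarith)]; exact s2⟩))
      (by rw [ep, sq2_smul] at k2; exact k2)
    refine ray_absurd (a := -5) (b := 5) (c := 5) (y := y) (by norm_num) (by norm_num) (by norm_num)
      ha.le ha1 ht p (by unfold bA at s2; linarith) ?_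
    rw [ep, ey] at s2'
    unfold bA at s2'
    simp only [Prod.smul_fst, Prod.smul_snd, smul_eq_mul] at s2'
    linarith

lemma Eqs.inj {p n p' n' : ℝ × ℝ} {y y' a b t : ℝ} (h : Eqs p n y) (h' : Eqs p' n' y')
    (ha : 0 < a) (hb : 0 < b) (ht : 0 < t) (ep : p' = a • p) (en : n' = b • n)
    (eτ : sq2 p' - sq2 n' = t * (sq2 p - sq2 n)) (ey : y' = t * y) : p = p' ∧ n = n' ∧ y = y' := by
  have h1 := not_one_lt h h' ha hb ep en eτ ey
  have h2 : ¬ 1 < t⁻¹ := not_one_lt h' h (inv_pos.mpr ha) (inv_pos.mpr hb)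
    (by rw [ep, smul_smul, inv_mul_cancel₀ ha.ne', one_smul])
    (by rw [en, smul_smul, inv_mul_cancel₀ hb.ne', one_smul])
    (by rw [eτ]; field_simp) (by rw [ey]; field_simp)
  have h3 : t = 1 := by
    refine le_antisymm (not_lt.mp h1) ?_
    by_contra h3
    exact h2 (one_lt_inv₀ ht |>.mpr (not_le.mp h3))
  subst h3
  rw [one_mul] at eτ ey
  subst ey
  exact ⟨eq_of_smul ha h.p_ne ep (by linarith [h.1, h'.1]),
    eq_of_smul hb h.n_ne en (by linarith [h.1, h'.1]), rfl⟩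

lemma exists_Eqs (e1 e2 e3 : ℝ × ℝ) (h1 : sq2 e1 = 1) (h2 : sq2 e2 = 1) (h3 : sq2 e3 = 1) :
    ∃ a b t : ℝ, 0 < a ∧ 0 < b ∧ 0 < t ∧ Eqs (a • e1) (b • e2) (t * e3.2) ∧
      sq2 (a • e1) - sq2 (b • e2) = t * e3.1 := by
  let P : ℝ → ℝ := fun t => √((4096 - (t * e3.2) ^ 2 + t * e3.1) / 2)
  let N : ℝ → ℝ := fun t => √((4096 - (t * e3.2) ^ 2 - t * e3.1) / 2)
  let F : ℝ → ℝ := fun t => (t * e3.2) ^ 2 + 25 * bA (P t • e1) + 25 * bB (N t • e2)
  have hF : Continuous F := by simp only [F, P, N]; fun_prop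
  have F0 : F 0 = 0 := by
    have p0 : P 0 ^ 2 = 2048 := by simp only [P]; rw [Real.sq_sqrt (by norm_num)]; norm_num
    have n0 : N 0 ^ 2 = 2048 := by simp only [N]; rw [Real.sq_sqrt (by norm_num)]; norm_num
    simp only [F]
    rw [bA_of_big (by rw [sq2_smul, p0, h1]; norm_num), bB_of_big (by rw [sq2_smul, n0, h2]; norm_num)]
    norm_num
  have FP : ∀ t, P t = 0 → 50 ≤ F t := fun t h => by
    simp only [F]
    rw [h, zero_smul, bA_zero]
    nlinarith [bB_nonneg (N t • e2), sq_nonneg (t * e3.2)]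
  have FN : ∀ t, N t = 0 → 50 ≤ F t := fun t h => by
    simp only [F]
    rw [h, zero_smul, bB_zero]
    nlinarith [bA_nonneg (P t • e1), sq_nonneg (t * e3.2)]
  have F1 : 25 ≤ F 5000 := by
    by_cases hy : 25 ≤ (5000 * e3.2) ^ 2
    · simp only [F]
      linarith [bA_nonneg (P 5000 • e1), bB_nonneg (N 5000 • e2)]
    · unfold sq2 at h3
      rcases le_total 0 e3.1 with hc | hc
      · have : 4096 ≤ 5000 * e3.1 := by
          by_contra hh
          nlinarith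
        linarith [FN 5000 (Real.sqrt_eq_zero'.mpr (by nlinarith [sq_nonneg (5000 * e3.2)]))]
      · have : 5000 * e3.1 ≤ -4096 := by
          by_contra hh
          nlinarith
        linarith [FP 5000 (Real.sqrt_eq_zero'.mpr (by nlinarith [sq_nonneg (5000 * e3.2)]))]
  obtain ⟨t, ht, hFt⟩ := intermediate_value_Icc (a := (0 : ℝ)) (b := 5000) (by norm_num)
    hF.continuousOn (show (25 : ℝ) ∈ Icc (F 0) (F 5000) from ⟨by rw [F0]; norm_num, F1⟩)
  have hP : 0 < P t := (Real.sqrt_nonneg _).lt_of_ne fun h => by linarith [FP t h.symm]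
  have hN : 0 < N t := (Real.sqrt_nonneg _).lt_of_ne fun h => by linarith [FN t h.symm]
  have hP2 : P t ^ 2 = (4096 - (t * e3.2) ^ 2 + t * e3.1) / 2 :=
    Real.sq_sqrt (Real.sqrt_pos.mp hP).le
  have hN2 : N t ^ 2 = (4096 - (t * e3.2) ^ 2 - t * e3.1) / 2 :=
    Real.sq_sqrt (Real.sqrt_pos.mp hN).le
  refine ⟨P t, N t, t, hP, hN, ht.1.lt_of_ne fun h => ?_, ⟨?_, hFt⟩, ?_⟩
  · rw [← h, F0] at hFt
    norm_num at hFt
  · rw [sq2_smul, sq2_smul, h1, h2, hP2, hN2]; ring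
  · rw [sq2_smul, sq2_smul, h1, h2, hP2, hN2]; ring

lemma mem_iff {j : Fin 3} {w : W} :
    w ∈ Sph ∩ TU j ↔ (w j).1 = 0 ∧ Eqs (w (j + 1)) (w (j + 2)) (w j).2 := by
  constructor
  · rintro ⟨h1, h2, h3⟩
    have h4 := Sph_sum h1 j
    refine ⟨h2, ?_, by unfold fU at h3; linarith⟩
    have : sq2 (w j) = (w j).2 ^ 2 := by unfold sq2; rw [h2]; ring
    linarith
  · rintro ⟨h2, h3, h4⟩
    have : sq2 (w j) = (w j).2 ^ 2 := by unfold sq2; rw [h2]; ring
    exact ⟨mem_Sph j (by linarith), h2, by unfold fU; linarith⟩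

end HomU

open HomU

theorem homeo_T0 : Nonempty (↥(Sph ∩ T0) ≃ₜ (Fin 3 → Circle)) := by
  have hr : ∀ w ∈ Sph ∩ T0, ∀ j, sq2 (w j) = 4096 / 3 := by
    rintro w ⟨h1, h2, h3⟩ j
    have h1 : sq2 (w 0) + sq2 (w 1) + sq2 (w 2) = 4096 := h1
    fin_cases j <;> simp <;> linarith
  have hne : ∀ w ∈ Sph ∩ T0, ∀ j, w j ≠ 0 := fun w hw j h => by
    have := hr w hw j
    rw [h] at this
    norm_num [sq2] at this
  refine homeo_of (isCompact_Sph.inter_right ?_) (fun w => w) continuous_id hne ?_ ?_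
  · exact (isClosed_eq (by fun_prop) (by fun_prop)).inter (isClosed_eq (by fun_prop) (by fun_prop))
  · intro w hw w' hw' h
    funext j
    obtain ⟨t, ht, e⟩ := h j
    exact eq_of_smul ht (hne w hw j) e (by rw [hr w hw, hr w' hw'])
  · intro e he
    have hs : ∀ j, sq2 (√(4096 / 3) • e j) = 4096 / 3 := fun j => by
      rw [sq2_smul, he, Real.sq_sqrt (by norm_num), mul_one]
    refine ⟨fun j => √(4096 / 3) • e j, ⟨?_, ?_, ?_⟩, fun j => ⟨√(4096 / 3), by positivity, rfl⟩⟩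
    · show sq2 (√(4096 / 3) • e 0) + sq2 (√(4096 / 3) • e 1) + sq2 (√(4096 / 3) • e 2) = 4096
      rw [hs, hs, hs]; norm_num
    · show sq2 (√(4096 / 3) • e 0) = sq2 (√(4096 / 3) • e 1)
      rw [hs, hs]
    · show sq2 (√(4096 / 3) • e 1) = sq2 (√(4096 / 3) • e 2)
      rw [hs, hs]

theorem homeo_TU (j : Fin 3) : Nonempty (↥(Sph ∩ TU j) ≃ₜ (Fin 3 → Circle)) := by
  refine homeo_of (isCompact_Sph.inter_right ?_)
    (fun w => ![w (j + 1), w (j + 2), (sq2 (w (j + 1)) - sq2 (w (j + 2)), (w j).2)]) ?_ ?_ ?_ ?_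
  · exact (isClosed_eq (by fun_prop) continuous_const).inter
      (isClosed_eq (by unfold fU; fun_prop) continuous_const)
  · refine continuous_pi fun k => ?_
    fin_cases k
    · show Continuous fun w : W => w (j + 1)
      fun_prop
    · show Continuous fun w : W => w (j + 2)
      fun_prop
    · show Continuous fun w : W => (sq2 (w (j + 1)) - sq2 (w (j + 2)), (w j).2)
      fun_prop
  · intro w hw k
    obtain ⟨-, h⟩ := mem_iff.mp hw
    fin_cases k
    · exact h.p_ne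
    · exact h.n_ne
    · exact h.q_ne
  · intro w hw w' hw' h
    obtain ⟨x0, hE⟩ := mem_iff.mp hw
    obtain ⟨x0', hE'⟩ := mem_iff.mp hw'
    obtain ⟨a, ha, ea⟩ := h 0
    obtain ⟨b, hb, eb⟩ := h 1
    obtain ⟨t, ht, et⟩ := h 2
    obtain ⟨r1, r2, r3⟩ := hE.inj hE' ha hb ht ea eb (congrArg Prod.fst et) (congrArg Prod.snd et)
    have r0 : w j = w' j := Prod.ext (x0.trans x0'.symm) r3
    funext k
    have hk : k = j ∨ k = j + 1 ∨ k = j + 2 :=
      (by decide : ∀ j k : Fin 3, k = j ∨ k = j + 1 ∨ k = j + 2) j k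
    rcases hk with rfl | rfl | rfl
    · exact r0
    · exact r1
    · exact r2
  · intro e he
    obtain ⟨a, b, t, ha, hb, ht, hE, hτ⟩ := exists_Eqs (e 0) (e 1) (e 2) (he 0) (he 1) (he 2)
    have n1 : j + 1 ≠ j := (by decide : ∀ j : Fin 3, j + 1 ≠ j) j
    have n2 : j + 2 ≠ j := (by decide : ∀ j : Fin 3, j + 2 ≠ j) j
    have n3 : j + 2 ≠ j + 1 := (by decide : ∀ j : Fin 3, j + 2 ≠ j + 1) j
    let w : W := fun k => if k = j then (0, t * (e 2).2) else if k = j + 1 then a • e 0 else b • e 1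
    have w0 : w j = (0, t * (e 2).2) := by simp [w]
    have w1 : w (j + 1) = a • e 0 := (if_neg n1).trans (if_pos rfl)
    have w2 : w (j + 2) = b • e 1 := (if_neg n2).trans (if_neg n3)
    refine ⟨w, mem_iff.mpr ⟨by rw [w0], by rw [w0, w1, w2]; exact hE⟩, fun k => ?_⟩
    fin_cases k
    · exact ⟨a, ha, w1⟩
    · exact ⟨b, hb, w2⟩
    · refine ⟨t, ht, ?_⟩
      show (sq2 (w (j + 1)) - sq2 (w (j + 2)), (w j).2) = t • e 2
      rw [w0, w1, w2, hτ]
      rfl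

end Pool.Agent.MP_a61dd1_gt

end
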