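import Pool.Agent.MP_a61dd1_gt.Defs
import Pool.Agent.MP_a61dd1_gt.Mg.HomU
import Pool.Agent.MP_a61dd1_gt.Theta
import Pool.Agent.MP_a61dd1_gt.HomT

/-! Transfer to the unit sphere of euclidean 6-space. -/

namespace Pool.Agent.MP_a61dd1_gt

open Set
open scoped Manifold ContDiff Topology.Homotopy

abbrev E6 := EuclideanSpace ℝ (Fin (5 + 1))

noncomputable def cvL : E6 ≃ₗ[ℝ] W where
  toFun p := ![(64 * p 0, 64 * p 1), (64 * p 2, 64 * p 3), (64 * p 4, 64 * p 5)]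
  invFun w := WithLp.toLp 2
    ![(w 0).1 / 64, (w 0).2 / 64, (w 1).1 / 64, (w 1).2 / 64, (w 2).1 / 64, (w 2).2 / 64]
  map_add' p q := by funext j; fin_cases j <;> simp [mul_add]
  map_smul' a p := by funext j; fin_cases j <;> simp [mul_left_comm]
  left_inv p := by ext j; fin_cases j <;> simp
  right_inv w := by funext j; fin_cases j <;> ext <;> simp <;> ring

noncomputable def cv : E6 ≃L[ℝ] W := cvL.toContinuousLinearEquiv

lemma cv_sq (p : E6) : sq2 (cv p 0) + sq2 (cv p 1) + sq2 (cv p 2) = 4096 * ‖p‖ ^ 2 := by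
  rw [EuclideanSpace.real_norm_sq_eq]
  simp [cv, cvL, sq2, Fin.sum_univ_succ]
  ring

lemma cv_mem {p : E6} : cv p ∈ Sph ↔ p ∈ Metric.sphere (0 : E6) 1 := by
  rw [mem_sphere_zero_iff_norm, ← sq_eq_sq₀ (norm_nonneg _) zero_le_one]
  show _ = _ ↔ _
  rw [cv_sq]
  constructor <;> intro h <;> linarith

def pull (A : Set W) : Set (Sphere 5) := {x | cv x ∈ A}

noncomputable def pullHomeo (A : Set W) : pull A ≃ₜ ↥(Sph ∩ A) where
  toFun x := ⟨cv x.1, cv_mem.2 x.1.2, x.2⟩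
  invFun w := ⟨⟨cv.symm w, cv_mem.1 (by simpa using w.2.1)⟩, by simpa [pull] using w.2.2⟩
  left_inv x := by simp
  right_inv w := by simp
  continuous_toFun := by fun_prop
  continuous_invFun := by fun_prop

lemma RegLevel.sub {A : Set W} (h : RegLevel (Sph ∩ A)) :
    IsSubmanifold (EuclideanSpace ℝ (Fin 5)) (EuclideanSpace ℝ (Fin 2)) (pull A) := by
  obtain ⟨F, cF, hF, F0, sF⟩ := h
  intro p hp
  have : Fact (Module.finrank ℝ E6 = 5 + 1) := ⟨by simp⟩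
  let π : (Fin 3 → ℝ) →L[ℝ] EuclideanSpace ℝ (Fin 2) :=
    (EuclideanSpace.equiv (Fin 2) ℝ).symm.toContinuousLinearMap.comp
      (ContinuousLinearMap.pi fun i : Fin 2 => ContinuousLinearMap.proj i.succ)
  have cH : ContDiff ℝ ∞ (π ∘ F ∘ cv) := π.contDiff.comp (cF.comp cv.contDiff)
  have hc := contMDiff_coe_sphere (E := E6) (m := ∞) (n := 5)
  refine ⟨univ, (π ∘ F ∘ cv) ∘ (↑), isOpen_univ, trivial,
    (cH.contMDiff.comp hc).contMDiffOn, ?_, ?_⟩
  · have dF : HasFDerivAt (F ∘ cv) ((fderiv ℝ F (cv p)).comp cv) (p : E6) :=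
      (cF.differentiable (by simp) _).hasFDerivAt.comp _ cv.hasFDerivAt
    have dH := π.hasFDerivAt.comp _ dF
    rw [mfderiv_comp p (dH.differentiableAt.mdifferentiableAt) (hc.mdifferentiableAt (by simp)),
      mfderiv_eq_fderiv, dH.fderiv]
    intro (y : EuclideanSpace ℝ (Fin 2))
    obtain ⟨e, he⟩ := sF _ ⟨cv_mem.2 p.2, hp⟩ ![0, y 0, y 1]
    have h1 : HasFDerivAt (fun q : E6 => 4096 * ‖q‖ ^ 2 - 4096)
        ((ContinuousLinearMap.proj 0).comp ((fderiv ℝ F (cv p)).comp (cv : E6 →L[ℝ] W))) (p : E6) := by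
      have e1 : (fun q : E6 => 4096 * ‖q‖ ^ 2 - 4096) =
          (ContinuousLinearMap.proj (R := ℝ) (φ := fun _ : Fin 3 => ℝ) 0) ∘ F ∘ cv := by
        funext q
        simp [F0, cv_sq]
      rw [e1]
      exact (ContinuousLinearMap.proj (R := ℝ) (φ := fun _ : Fin 3 => ℝ) 0).hasFDerivAt.comp _ dF
    have h2 := congrArg (fun L : E6 →L[ℝ] ℝ => L (cv.symm e)) (h1.unique
      (((hasStrictFDerivAt_norm_sq (p : E6)).hasFDerivAt.const_mul 4096).sub_const 4096))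
    have h3 : cv.symm e ∈ (ℝ ∙ (p : E6))ᗮ := by
      rw [Submodule.mem_orthogonal_singleton_iff_inner_right]
      simpa [he] using h2
    rw [← range_mvfderiv_subtypeVal (n := 5)] at h3
    obtain ⟨t, ht⟩ := h3
    refine ⟨t, ?_⟩
    have ht : mfderiv (𝓡 5) 𝓘(ℝ, E6) ((↑) : Sphere 5 → E6) p t = cv.symm e := ht
    show π (fderiv ℝ F (cv p) (cv (mfderiv (𝓡 5) 𝓘(ℝ, E6) ((↑) : Sphere 5 → E6) p t))) = y
    rw [ht, cv.apply_symm_apply, he]
    ext i
    fin_cases i <;> rfl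
  · ext x
    have h0 : F (cv x) 0 = 0 := by rw [F0, show _ = (4096 : ℝ) from cv_mem.2 x.2]; simp
    have := hF (cv x)
    simp only [mem_inter_iff, cv_mem.2 x.2, true_and] at this
    simp only [mem_inter_iff, mem_univ, and_true, true_and, mem_preimage, mem_singleton_iff, pull,
      mem_ofPred_eq, this]
    constructor
    · intro h; simp [h]
    · intro h
      funext i
      have h1 : F (cv x) 1 = 0 := congrArg (fun v : EuclideanSpace ℝ (Fin 2) => v 0) h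
      have h2 : F (cv x) 2 = 0 := congrArg (fun v : EuclideanSpace ℝ (Fin 2) => v 1) h
      fin_cases i
      exacts [h0, h1, h2]

def cmp : Option (Fin 3 × Fin 3) → Set W
  | none => T0
  | some t => comp t

lemma cmp_spec (t) : RegLevel (Sph ∩ cmp t) ∧ Nonempty (↥(Sph ∩ cmp t) ≃ₜ (Fin 3 → Circle)) := by
  rcases t with _ | ⟨s, j⟩
  · exact ⟨reg_T0, homeo_T0⟩
  fin_cases s
  exacts [⟨reg_TU j, homeo_TU j⟩, ⟨reg_T1 j, homeo_T1 j⟩, ⟨reg_T2 j, homeo_T2 j⟩]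

lemma cmp_disjoint {w} (hw : w ∈ Sph) {t t'} (h : w ∈ cmp t) (h' : w ∈ cmp t') : t = t' := by
  rcases t with _ | t <;> rcases t' with _ | t'
  · rfl
  · exact absurd h' (T0_disjoint hw h)
  · exact absurd h (T0_disjoint hw h')
  · rw [comp_disjoint hw h h']

lemma aspherical_of_retract {X Y : Type} [TopologicalSpace X] [TopologicalSpace Y] [Nonempty Y]
    (α : C(X, Y)) (β : C(Y, X)) (h : ∀ x, β (α x) = x)
    (h1 : ∀ y : Y, ∀ n, 2 ≤ n → ∀ f : Ω^ (Fin n) Y y, GenLoop.Homotopic f GenLoop.const)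
    (h2 : ∀ x y : Y, Joined x y) : IsAspherical X := by
  refine ⟨⟨⟨β (Classical.arbitrary Y)⟩, fun x y => ?_⟩, fun x n hn => ⟨fun a b => ?_⟩⟩
  · obtain ⟨γ⟩ := h2 (α x) (α y)
    exact ⟨(γ.map β.continuous).cast (h x).symm (h y).symm⟩
  have key : ∀ f : Ω^ (Fin n) X x, GenLoop.Homotopic f GenLoop.const := fun f => by
    have := (h1 (α x) n hn ⟨α.comp f.1, fun y hy => congrArg α (f.2 y hy)⟩).comp_continuousMap β
    unfold GenLoop.Homotopic
    convert this using 1 <;> ext y <;> simp [h]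
  induction a using Quotient.inductionOn
  induction b using Quotient.inductionOn
  exact Quotient.sound ((key _).trans (key _).symm)

theorem exists_link : ∃ T : Fin 10 → Set (Sphere 5),
    IsTorusLink 5 10 T ∧ IsAspherical ↥(⋃ j, T j)ᶜ := by
  let e : Option (Fin 3 × Fin 3) ≃ Fin 10 := Fintype.equivFinOfCardEq (by simp)
  refine ⟨fun j => pull (cmp (e.symm j)), ⟨fun j => ⟨(cmp_spec _).1.sub,
    ⟨(pullHomeo _).trans (cmp_spec _).2.some⟩⟩, fun i j h => disjoint_left.2 fun x h1 h2 =>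
      h (e.symm.injective (cmp_disjoint (cv_mem.2 x.2) h1 h2))⟩, ?_⟩
  have hL : ∀ x : Sphere 5, x ∈ (⋃ j, pull (cmp (e.symm j)))ᶜ ↔
      cv x ∉ T0 ∧ ∀ t, cv x ∉ comp t := fun x => by
    simp only [mem_compl_iff, mem_iUnion, not_exists, pull, mem_ofPred_eq]
    rw [e.symm.surjective.forall (p := fun t => cv x ∉ cmp t) |>.symm, Option.forall]
    rfl
  obtain ⟨Θ, Ψ, cΘ, cΨ, mΘ, mΨ, inv, nΘ, nΨ, tΘ, tΨ⟩ := exists_theta
  have : Nonempty XC := by
    obtain ⟨w, hw⟩ := (ae_FW (0, fun _ => true, fun _ => true) ∅ (by simp) (by simp)).nonempty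
    exact ⟨⟨w, CW_sub hw.1⟩⟩
  refine aspherical_of_retract (Y := XC)
    ⟨fun x => ⟨Θ (cv x.1), mΘ (cv_mem.2 x.1.2), ?_⟩, ?_⟩
    ⟨fun w => ⟨⟨cv.symm (Ψ w), cv_mem.1 (by simpa using mΨ w.2.1)⟩, ?_⟩, ?_⟩ ?_
    asph_XC.1 asph_XC.2
  · have hx := (hL _).1 x.2
    rintro (⟨t, ht⟩ | h)
    · exact hx.2 t ((nΘ _ (cv_mem.2 x.1.2)).symm.comp ht)
    · exact hx.1 (tΘ _ (cv_mem.2 x.1.2) h)
  · exact Continuous.subtype_mk (cΘ.comp_continuous (by fun_prop) fun x => cv_mem.2 x.1.2) _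
  · rw [hL]
    simp only [ContinuousLinearEquiv.apply_symm_apply]
    exact ⟨fun h => w.2.2 (Or.inr (tΨ _ w.2.1 h)),
      fun t ht => w.2.2 (Or.inl ⟨t, (nΨ _ w.2.1).symm.comp ht⟩)⟩
  · exact Continuous.subtype_mk (Continuous.subtype_mk (cv.symm.continuous.comp
      (cΨ.comp_continuous continuous_subtype_val fun w => w.2.1)) _) _
  · intro x
    ext1; ext1
    simp [inv _ (cv_mem.2 x.1.2)]

end Pool.Agent.MP_a61dd1_gt
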