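import Pool.Agent.MP_a61dd1_gt.Mg.Certs

/-! The two model chambers in the quadrant, their facets and faces. -/

namespace Pool.Agent.MP_a61dd1_gt

open Set

def sideL : Bool → List Cell
  | true => [(⟨(0, 36), (0, 36), (0, 36), (0, 36)⟩, []),
      (⟨(-34, -10), (0, 4), (0, 13), (0, 1)⟩, []), (⟨(-10, 0), (0, 4), (7, 13), (0, 1)⟩, []),
      (⟨(-9, -6), (0, 4), (0, 5), (0, 1)⟩, []), (⟨(-6, 0), (0, 4), (2, 5), (0, 1)⟩, []),
      (⟨(-6, 0), (2, 4), (0, 2), (0, 1)⟩, [])]
  | false => [(⟨(-36, 0), (0, 36), (0, 36), (1, 36)⟩, []),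
      (⟨(-36, 0), (4, 36), (0, 36), (0, 1)⟩, []), (⟨(-36, 0), (0, 4), (13, 36), (0, 1)⟩, []),
      (⟨(-36, -34), (0, 4), (0, 13), (0, 1)⟩, []), (⟨(-10, -9), (0, 4), (0, 7), (0, 1)⟩, []),
      (⟨(-9, 0), (0, 4), (5, 7), (0, 1)⟩, []), (⟨(-6, 0), (0, 2), (0, 2), (0, 1)⟩, [])]

def big : Bx := ⟨(-36, 36), (0, 36), (0, 36), (0, 36)⟩

def facet (r : Bool) : Nm → List Cell
  | .a => [(⟨(36, 36), (0, 36), (0, 36), (0, 36)⟩, []), (⟨(-36, -36), (0, 36), (0, 36), (0, 36)⟩, []),
      (⟨(-36, 36), (36, 36), (0, 36), (0, 36)⟩, [])]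
  | .b => [(⟨(-36, 36), (0, 36), (36, 36), (0, 36)⟩, []), (⟨(-36, 36), (0, 36), (0, 36), (36, 36)⟩, [])]
  | .x => (sideL (!r)).map fun c => (c.1, [(.x, true)])
  | .x1 => (sideL (!r)).map fun c => (c.1, [(.x, false)])
  | .y => [(⟨(-36, 36), (0, 0), (0, 36), (0, 36)⟩, [(.y, true)])]
  | .y1 => [(⟨(-36, 36), (0, 0), (0, 36), (0, 36)⟩, [(.y, false)])]
  | .u => [(⟨(-36, 36), (0, 36), (0, 0), (0, 36)⟩, [(.u, true)])]
  | .u1 => if r then [(⟨(-36, -10), (0, 36), (0, 0), (0, 36)⟩, [(.u, false)])] else []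
  | .u2 => [(⟨(if r then -9 else -36, 36), (0, 36), (0, 0), (0, 36)⟩, [(.u, false)])]
  | .v => [(⟨(-36, 36), (0, 36), (0, 36), (0, 0)⟩, [(.v, true)])]
  | .v1 => [(⟨(-36, 36), (0, 36), (0, 36), (0, 0)⟩, [(.v, false)])]

def face (r : Bool) (ns : List Nm) : List Cell := ns.foldl (fun l n => meet l (facet r n)) (sideL r)

def Nm.idx : Nm → ℕ
  | .a => 0 | .b => 1 | .x => 2 | .x1 => 3 | .y => 4 | .y1 => 5 | .u => 6 | .u1 => 7 | .u2 => 8
  | .v => 9 | .v1 => 10

def names : List Nm := [.a, .b, .x, .x1, .y, .y1, .u, .u1, .u2, .v, .v1]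

def adjQ (r : Bool) (n m : Nm) : Bool := (row r n).testBit m.idx

def presQ (r : Bool) (n : Nm) : Bool := r || n != .u1

def look (r : Bool) (ns : List Nm) : Ct :=
  ((if r then certR else certL).lookup (ns.map fun n => 2 ^ n.idx).sum).getD .E

def allCl (r : Bool) : List Nm → List Nm → Bool
  | ch, [] => chk (look r ch) true (face r ch)
  | ch, n :: rest => allCl r ch rest &&
      (!(presQ r n && ch.all (adjQ r n)) || allCl r (ch ++ [n]) rest)

theorem allCl_L : allCl false [] names = true := by decide +kernel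

theorem allCl_R : allCl true [] names = true := by decide +kernel

theorem emp_ok : ∀ r n m, n.idx < m.idx → presQ r n = true → presQ r m = true →
    adjQ r n m = true ∨ chk (look r [n, m]) false (face r [n, m]) = true := by decide +kernel

theorem adjQ_symm : ∀ r n m, adjQ r n m = adjQ r m n := by decide +kernel

theorem closed_ok : ∀ r, (sideL r).all closedOK = true ∧
    ∀ n, (face r [n]).all closedOK = true := by decide +kernel

theorem cov_ok : kd (fun B => (sideL false ++ sideL true).any fun c => bsub B c.1) certCov big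
    = true := by decide +kernel

theorem wall_ok : (meet (sideL false) (sideL true)).all (fun c => deg c.1 .x 0 ||
    0 < ((PH .x).iv c.1).1 || ((PH .x).iv c.1).2 < 0) = true := by decide +kernel

theorem dj_ok : ∀ k l : Ax, k ≠ l → ∃ t ∈ [certD k l, certD l k], kd (fun B =>
    0 < ((PH k).iv B).1 || ((PH k).iv B).2 < 0 || 0 < ((PH l).iv B).1 || ((PH l).iv B).2 < 0) t
    (.of fun i => if i = k ∨ i = l then (0, 0) else if i = .x then (-64, 64) else (0, 64)) = true := by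
  decide +kernel

end Pool.Agent.MP_a61dd1_gt
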